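import Pool.Agent.Helper28.EC.Fam

/-!
# EC-CH: elementary facts on letters and chains

Everything is elementary: exact division by `p^N` (`Int.ediv`), induction on the chain.
`child_shift`: if `p^N` divides `x = d^tau a + off` then `(x + p^N y)/p^N = x/p^N + y`.
-/

set_option autoImplicit false

namespace PoolAgent.Helper28.EC

open Finset

namespace Sys

variable (S : Sys)

theorem pN_pos (k : ℕ) : (0 : ℤ) < (S.p : ℤ) ^ k := pow_pos (by exact_mod_cast S.hp.pos) k

theorem child_shift (w : S.ι) (a z : ℤ) (k : ℕ) (h : (S.p : ℤ) ^ S.N ∣ S.d ^ S.tau w * a + S.off w) :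
    S.child w (a + (S.p : ℤ) ^ (S.N + k) * z) = S.child w a + (S.p : ℤ) ^ k * (S.d ^ S.tau w * z) := by
  unfold child
  have h1 : S.d ^ S.tau w * (a + (S.p : ℤ) ^ (S.N + k) * z) + S.off w =
      (S.d ^ S.tau w * a + S.off w) + (S.p : ℤ) ^ S.N * ((S.p : ℤ) ^ k * (S.d ^ S.tau w * z)) := by
    rw [pow_add]; ring
  rw [h1, Int.add_mul_ediv_left _ _ (S.pN_pos S.N).ne']

theorem valid_per (w : S.ι) (a z : ℤ) : S.valid w (a + (S.p : ℤ) ^ (S.N + S.rho) * z) ↔ S.valid w a := by
  unfold valid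
  have h1 : S.d ^ S.tau w * (a + (S.p : ℤ) ^ (S.N + S.rho) * z) + S.off w =
      (S.d ^ S.tau w * a + S.off w) + (S.p : ℤ) ^ S.N * ((S.p : ℤ) ^ S.rho * (S.d ^ S.tau w * z)) := by
    rw [pow_add]; ring
  have h2 : (S.p : ℤ) ^ S.N ∣ S.d ^ S.tau w * (a + (S.p : ℤ) ^ (S.N + S.rho) * z) + S.off w ↔
      (S.p : ℤ) ^ S.N ∣ S.d ^ S.tau w * a + S.off w := by
    rw [h1]
    exact (dvd_add_left (Dvd.intro _ rfl))
  rw [h2]
  constructor
  · rintro ⟨h3, h4⟩
    refine ⟨h3, ?_⟩
    rw [S.child_shift w a z S.rho h3, S.alive_per] at h4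
    exact h4
  · rintro ⟨h3, h4⟩
    refine ⟨h3, ?_⟩
    rw [S.child_shift w a z S.rho h3, S.alive_per]
    exact h4

theorem Z1_per (a z : ℤ) : S.Z1 (a + (S.p : ℤ) ^ (S.N + S.rho) * z) = S.Z1 a := by
  unfold Z1
  refine Finset.sum_congr rfl fun w _ => ?_
  by_cases h : S.valid w a
  · rw [if_pos h, if_pos ((S.valid_per w a z).2 h)]
  · rw [if_neg h, if_neg fun h' => h ((S.valid_per w a z).1 h')]

theorem Z1_nonneg (a : ℤ) : 0 ≤ S.Z1 a := by
  unfold Z1
  refine Finset.sum_nonneg fun w _ => ?_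
  split_ifs
  · exact (S.om_pos w).le
  · exact le_rfl

theorem Z1_pos_of_valid (w : S.ι) (a : ℤ) (h : S.valid w a) : 0 < S.Z1 a := by
  unfold Z1
  refine Finset.sum_pos' (fun v _ => ?_) ⟨w, Finset.mem_univ w, ?_⟩
  · split_ifs
    · exact (S.om_pos v).le
    · exact le_rfl
  · rw [if_pos h]
    exact S.om_pos w

theorem Z1_pos (h2 : S.Two) (a : ℤ) (ha : S.alive a) : 0 < S.Z1 a := by
  obtain ⟨w, w', _, hw, _⟩ := h2 a ha
  exact S.Z1_pos_of_valid w a hw

theorem pr_per (w : S.ι) (a z : ℤ) : S.pr w (a + (S.p : ℤ) ^ (S.N + S.rho) * z) = S.pr w a := by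
  unfold pr
  rw [S.Z1_per]
  by_cases h : S.valid w a
  · rw [if_pos h, if_pos ((S.valid_per w a z).2 h)]
  · rw [if_neg h, if_neg fun h' => h ((S.valid_per w a z).1 h')]

theorem pr_nonneg (w : S.ι) (a : ℤ) : 0 ≤ S.pr w a := by
  unfold pr
  split_ifs
  · exact div_nonneg (S.om_pos w).le (S.Z1_nonneg a)
  · exact le_rfl

theorem valid_of_pr (w : S.ι) (a : ℤ) (h : S.pr w a ≠ 0) : S.valid w a := by
  by_contra h'
  apply h
  unfold pr
  exact if_neg h'

theorem pr_sum_of_valid (w : S.ι) (a : ℤ) (h : S.valid w a) : ∑ v : S.ι, S.pr v a = 1 := by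
  have hpos := S.Z1_pos_of_valid w a h
  have h1 : ∀ v : S.ι, S.pr v a = (open Classical in if S.valid v a then S.om v else 0) / S.Z1 a := by
    intro v
    unfold pr
    split_ifs
    · rfl
    · rw [zero_div]
  simp only [h1]
  rw [← Finset.sum_div]
  exact div_self hpos.ne'

theorem pr_sum (h2 : S.Two) (a : ℤ) (ha : S.alive a) : ∑ w : S.ι, S.pr w a = 1 := by
  obtain ⟨w, w', _, hw, _⟩ := h2 a ha
  exact S.pr_sum_of_valid w a hw

theorem pr_le_one (w : S.ι) (a : ℤ) : S.pr w a ≤ 1 := by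
  by_cases h : S.valid w a
  · rw [← S.pr_sum_of_valid w a h]
    exact Finset.single_le_sum (f := fun v => S.pr v a) (fun v _ => S.pr_nonneg v a) (Finset.mem_univ w)
  · unfold pr
    rw [if_neg h]
    exact zero_le_one

theorem pr_pos (w : S.ι) (a : ℤ) (h : S.valid w a) : 0 < S.pr w a := by
  unfold pr
  rw [if_pos h]
  exact div_pos (S.om_pos w) (S.Z1_pos_of_valid w a h)

theorem mem_chains (t : ℕ) (u : List S.ι) : u ∈ S.chains t ↔ u.length = t := by
  induction t generalizing u with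
  | zero =>
    unfold chains
    rw [Finset.mem_singleton, List.length_eq_zero_iff]
  | succ t ih =>
    unfold chains
    rw [Finset.mem_image]
    constructor
    · rintro ⟨q, hq, rfl⟩
      rw [Finset.mem_product] at hq
      rw [List.length_cons, (ih q.2).1 hq.2]
    · intro h
      match u, h with
      | w :: u, h =>
        refine ⟨(w, u), ?_, rfl⟩
        rw [Finset.mem_product]
        exact ⟨Finset.mem_univ _, (ih u).2 (by simpa using h)⟩

theorem sum_chains_succ {M : Type*} [AddCommMonoid M] (t : ℕ) (F : List S.ι → M) :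
    ∑ u ∈ S.chains (t + 1), F u = ∑ w : S.ι, ∑ u ∈ S.chains t, F (w :: u) := by
  rw [← Finset.sum_product']
  show ∑ u ∈ (Finset.univ ×ˢ S.chains t).image (fun q => q.1 :: q.2), F u = _
  rw [Finset.sum_image]
  intro q _ q' _ h
  simp only [List.cons.injEq] at h
  exact Prod.ext h.1 h.2

theorem pc_nonneg (u : List S.ι) (a : ℤ) : 0 ≤ S.pc u a := by
  induction u generalizing a with
  | nil => exact zero_le_one
  | cons w u ih => exact mul_nonneg (S.pr_nonneg w a) (ih _)

theorem pc_per (u : List S.ι) (a z : ℤ) :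
    S.pc u (a + (S.p : ℤ) ^ (S.N * u.length + S.rho) * z) = S.pc u a := by
  induction u generalizing a z with
  | nil => rfl
  | cons w u ih =>
    show S.pr w _ * S.pc u _ = S.pr w a * S.pc u _
    have e1 : S.N * (w :: u).length + S.rho = (S.N + S.rho) + S.N * u.length := by
      rw [List.length_cons]; ring
    have e2 : (S.p : ℤ) ^ (S.N * (w :: u).length + S.rho) * z =
        (S.p : ℤ) ^ (S.N + S.rho) * ((S.p : ℤ) ^ (S.N * u.length) * z) := by
      rw [e1, pow_add]; ring
    have h1 : S.pr w (a + (S.p : ℤ) ^ (S.N * (w :: u).length + S.rho) * z) = S.pr w a := by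
      rw [e2, S.pr_per]
    rw [h1]
    by_cases h0 : S.pr w a = 0
    · rw [h0, zero_mul, zero_mul]
    congr 1
    have hv := (S.valid_of_pr w a h0).1
    have e3 : (S.p : ℤ) ^ (S.N * (w :: u).length + S.rho) * z =
        (S.p : ℤ) ^ (S.N + (S.N * u.length + S.rho)) * z := by
      congr 2
      rw [List.length_cons]; ring
    rw [e3, S.child_shift w a z _ hv, ih]

theorem cc_shift (u : List S.ι) (a z : ℤ) (k : ℕ) (h : S.pc u a ≠ 0) :
    S.cc u (a + (S.p : ℤ) ^ (S.N * u.length + k) * z) = S.cc u a + (S.p : ℤ) ^ k * (S.d ^ S.tt u * z) := by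
  induction u generalizing a z with
  | nil =>
    show a + (S.p : ℤ) ^ (S.N * 0 + k) * z = a + (S.p : ℤ) ^ k * (S.d ^ 0 * z)
    rw [mul_zero, zero_add, pow_zero, one_mul]
  | cons w u ih =>
    have h' : S.pr w a * S.pc u (S.child w a) ≠ 0 := h
    have hw : S.pr w a ≠ 0 := left_ne_zero_of_mul h'
    have hu : S.pc u (S.child w a) ≠ 0 := right_ne_zero_of_mul h'
    have hv := (S.valid_of_pr w a hw).1
    show S.cc u (S.child w _) = S.cc u (S.child w a) + (S.p : ℤ) ^ k * (S.d ^ (S.tau w + S.tt u) * z)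
    have e3 : (S.p : ℤ) ^ (S.N * (w :: u).length + k) * z =
        (S.p : ℤ) ^ (S.N + (S.N * u.length + k)) * z := by
      congr 2
      rw [List.length_cons]; ring
    rw [e3, S.child_shift w a z _ hv, ih _ _ hu, pow_add]
    ring

theorem cc_alive (u : List S.ι) (a : ℤ) (ha : S.alive a) (h : S.pc u a ≠ 0) : S.alive (S.cc u a) := by
  induction u generalizing a with
  | nil => exact ha
  | cons w u ih =>
    have h' : S.pr w a * S.pc u (S.child w a) ≠ 0 := h
    exact ih _ (S.valid_of_pr w a (left_ne_zero_of_mul h')).2 (right_ne_zero_of_mul h')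

theorem pc_sum (h2 : S.Two) (t : ℕ) (a : ℤ) (ha : S.alive a) : ∑ u ∈ S.chains t, S.pc u a = 1 := by
  induction t generalizing a with
  | zero =>
    show ∑ u ∈ {([] : List S.ι)}, S.pc u a = 1
    rw [Finset.sum_singleton]
    rfl
  | succ t ih =>
    rw [S.sum_chains_succ]
    have h1 : ∀ w : S.ι, ∑ u ∈ S.chains t, S.pc (w :: u) a = S.pr w a := by
      intro w
      show ∑ u ∈ S.chains t, S.pr w a * S.pc u (S.child w a) = S.pr w a
      rw [← Finset.mul_sum]
      by_cases h0 : S.pr w a = 0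
      · rw [h0, zero_mul]
      · rw [ih _ (S.valid_of_pr w a h0).2, mul_one]
    simp only [h1]
    exact S.pr_sum h2 a ha

theorem cc_formula (u : List S.ι) (a : ℤ) (h : S.pc u a ≠ 0) :
    (S.p : ℤ) ^ (S.N * u.length) * S.cc u a = S.d ^ S.tt u * a + S.oo u := by
  induction u generalizing a with
  | nil =>
    show (S.p : ℤ) ^ (S.N * 0) * a = S.d ^ 0 * a + 0
    rw [mul_zero, pow_zero, pow_zero, add_zero]
  | cons w u ih =>
    have h' : S.pr w a * S.pc u (S.child w a) ≠ 0 := h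
    have hw : S.pr w a ≠ 0 := left_ne_zero_of_mul h'
    have hu : S.pc u (S.child w a) ≠ 0 := right_ne_zero_of_mul h'
    have hv := (S.valid_of_pr w a hw).1
    have h1 : (S.p : ℤ) ^ S.N * S.child w a = S.d ^ S.tau w * a + S.off w := Int.mul_ediv_cancel' hv
    show (S.p : ℤ) ^ (S.N * (w :: u).length) * S.cc u (S.child w a) =
      S.d ^ (S.tau w + S.tt u) * a + (S.d ^ S.tt u * S.off w + (S.p : ℤ) ^ S.N * S.oo u)
    have e1 : (S.p : ℤ) ^ (S.N * (w :: u).length) = (S.p : ℤ) ^ S.N * (S.p : ℤ) ^ (S.N * u.length) := by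
      rw [← pow_add]; congr 1; rw [List.length_cons]; ring
    rw [e1, mul_assoc, ih _ hu, pow_add]
    linear_combination (S.d ^ S.tt u) * h1

theorem P_iter (j : ℕ) (f : ℤ → ℝ) (a : ℤ) :
    (S.P^[j] f) a = ∑ u ∈ S.chains j, S.pc u a * f (S.cc u a) := by
  induction j generalizing a with
  | zero =>
    show f a = ∑ u ∈ {([] : List S.ι)}, S.pc u a * f (S.cc u a)
    rw [Finset.sum_singleton]
    show f a = 1 * f a
    rw [one_mul]
  | succ j ih =>
    rw [Function.iterate_succ_apply', S.sum_chains_succ]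
    show ∑ w : S.ι, S.pr w a * (S.P^[j] f) (S.child w a) = _
    refine Finset.sum_congr rfl fun w _ => ?_
    rw [ih, Finset.mul_sum]
    refine Finset.sum_congr rfl fun u _ => ?_
    show _ = S.pr w a * S.pc u (S.child w a) * f (S.cc u (S.child w a))
    ring

theorem tt_le : ∃ K : ℕ, 1 ≤ K ∧ ∀ u : List S.ι, S.tt u ≤ K * u.length := by
  refine ⟨∑ w : S.ι, S.tau w + 1, by omega, fun u => ?_⟩
  induction u with
  | nil => exact le_rfl
  | cons w u ih =>
    show S.tau w + S.tt u ≤ _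
    have h1 : S.tau w ≤ ∑ w : S.ι, S.tau w := Finset.single_le_sum (fun _ _ => Nat.zero_le _) (Finset.mem_univ w)
    rw [List.length_cons, mul_add, mul_one]
    omega

end Sys

end PoolAgent.Helper28.EC
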