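import Pool.Agent.Helper28.EC.Chain

/-!
# EC-CE: the entropy of the random chain grows linearly

One letter: `∑_w φ(pr w a) > 0` for alive `a` (two letters have positive probability, the sum is 1, so some value lies strictly between 0 and 1, and
`φ >= 0` on `[0,1]`, `φ > 0` on `(0,1)`); it depends on `a mod p^(N+rho)` only (`pr_per`), so it is `>= h0 > 0` for all alive `a`
(minimum over the alive representatives in `range (p^(N+rho))`; alive is periodic too).
Chain rule: `∑_{w,u} φ(pr w a * pc u a') = ∑_w φ(pr w a) + ∑_w pr w a ∑_u φ(pc u a')` (`Real.negMulLog_mul`, `∑_u pc u a' = 1`), `a' = child w a` alive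
whenever `pr w a <> 0`.  Induction on `t`.
-/

set_option autoImplicit false

namespace PoolAgent.Helper28.EC

open Finset Real

private lemma negMulLog_pos_h68 {x : ℝ} (h0 : 0 < x) (h1 : x < 1) : 0 < Real.negMulLog x := by
  unfold Real.negMulLog
  have := Real.log_neg h0 h1
  nlinarith

private lemma one_letter_h68 (S : Sys) (h2 : S.Two) {a : ℤ} (ha : S.alive a) :
    0 < ∑ w : S.ι, Real.negMulLog (S.pr w a) := by
  obtain ⟨w, w', hne, hw, hw'⟩ := h2 a ha
  have h1 := S.pr_pos w a hw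
  have h1' := S.pr_pos w' a hw'
  have hsum := S.pr_sum h2 a ha
  have hlt : S.pr w a < 1 := by
    have h3 : S.pr w a + S.pr w' a ≤ ∑ v : S.ι, S.pr v a := by
      have h4 : ∑ v ∈ ({w, w'} : Finset S.ι), S.pr v a ≤ ∑ v : S.ι, S.pr v a :=
        Finset.sum_le_sum_of_subset_of_nonneg (Finset.subset_univ _) fun v _ _ => S.pr_nonneg v a
      rwa [Finset.sum_pair hne] at h4
    linarith
  refine Finset.sum_pos' (fun v _ => Real.negMulLog_nonneg (S.pr_nonneg v a) (S.pr_le_one v a))
    ⟨w, Finset.mem_univ w, negMulLog_pos_h68 h1 hlt⟩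

private lemma exists_h0_h68 (S : Sys) (h2 : S.Two) :
    ∃ h0 : ℝ, 0 < h0 ∧ ∀ a : ℤ, S.alive a → h0 ≤ ∑ w : S.ι, Real.negMulLog (S.pr w a) := by
  classical
  set n : ℕ := S.p ^ (S.N + S.rho) with hn
  have hn0 : 0 < n := pow_pos S.hp.pos _
  have hnZ : (n : ℤ) = (S.p : ℤ) ^ (S.N + S.rho) := by rw [hn]; push_cast; rfl
  have halive : ∀ a z : ℤ, S.alive (a + (S.p : ℤ) ^ (S.N + S.rho) * z) ↔ S.alive a := by
    intro a z
    have e : (S.p : ℤ) ^ (S.N + S.rho) * z = (S.p : ℤ) ^ S.rho * ((S.p : ℤ) ^ S.N * z) := by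
      rw [pow_add]; ring
    rw [e]
    exact S.alive_per a _
  set m : ℕ → ℝ := fun x => if S.alive (x : ℤ) then ∑ w : S.ι, Real.negMulLog (S.pr w (x : ℤ)) else 1 with hm
  have hmpos : ∀ x, 0 < m x := by
    intro x
    rw [hm]
    simp only
    split_ifs with h
    · exact one_letter_h68 S h2 h
    · exact one_pos
  obtain ⟨x0, hx0, hmin⟩ := Finset.exists_min_image (range n) m ⟨0, Finset.mem_range.2 hn0⟩
  refine ⟨m x0, hmpos x0, fun a ha => ?_⟩
  -- the representative of `a`
  have hnpos : (0 : ℤ) < n := by exact_mod_cast hn0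
  have h1 := Int.emod_nonneg a hnpos.ne'
  have h2' := Int.emod_lt_of_pos a hnpos
  obtain ⟨x, hx⟩ := Int.eq_ofNat_of_zero_le h1
  have hxn : x < n := by
    rw [hx] at h2'
    exact_mod_cast h2'
  have hax : a = (x : ℤ) + (S.p : ℤ) ^ (S.N + S.rho) * (a / n) := by
    rw [← hnZ, ← hx]
    exact (Int.emod_add_mul_ediv a n).symm
  have hxa : S.alive (x : ℤ) := by
    rw [hax] at ha
    exact (halive _ _).1 ha
  have hle := hmin x (Finset.mem_range.2 hxn)
  refine hle.trans ?_
  rw [hm]
  simp only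
  rw [if_pos hxa]
  apply le_of_eq
  refine Finset.sum_congr rfl fun w _ => ?_
  conv_rhs => rw [hax]
  rw [S.pr_per]

theorem ent_chain (S : Sys) (h2 : S.Two) : ∃ h0 : ℝ, 0 < h0 ∧ ∀ (t : ℕ) (a : ℤ), S.alive a →
    h0 * t ≤ ∑ u ∈ S.chains t, Real.negMulLog (S.pc u a) := by
  obtain ⟨h0, hpos, hmin⟩ := exists_h0_h68 S h2
  refine ⟨h0, hpos, fun t => ?_⟩
  induction t with
  | zero =>
    intro a _
    show h0 * ((0 : ℕ) : ℝ) ≤ ∑ u ∈ {([] : List S.ι)}, Real.negMulLog (S.pc u a)
    rw [Finset.sum_singleton]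
    show h0 * ((0 : ℕ) : ℝ) ≤ Real.negMulLog 1
    simp
  | succ t ih =>
    intro a ha
    rw [S.sum_chains_succ]
    have h1 : ∀ w ∈ (Finset.univ : Finset S.ι), Real.negMulLog (S.pr w a) + S.pr w a * (h0 * t) ≤
        ∑ u ∈ S.chains t, Real.negMulLog (S.pc (w :: u) a) := by
      intro w _
      show _ ≤ ∑ u ∈ S.chains t, Real.negMulLog (S.pr w a * S.pc u (S.child w a))
      by_cases hw : S.pr w a = 0
      · simp [hw]
      · have hal := (S.valid_of_pr w a hw).2
        have e1 : ∑ u ∈ S.chains t, Real.negMulLog (S.pr w a * S.pc u (S.child w a)) =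
            Real.negMulLog (S.pr w a) * ∑ u ∈ S.chains t, S.pc u (S.child w a) +
              S.pr w a * ∑ u ∈ S.chains t, Real.negMulLog (S.pc u (S.child w a)) := by
          rw [Finset.mul_sum, Finset.mul_sum, ← Finset.sum_add_distrib]
          refine Finset.sum_congr rfl fun u _ => ?_
          rw [Real.negMulLog_mul]
          ring
        rw [e1, S.pc_sum h2 t _ hal, mul_one]
        have h3 := mul_le_mul_of_nonneg_left (ih (S.child w a) hal) (S.pr_nonneg w a)
        linarith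
    refine le_trans ?_ (Finset.sum_le_sum h1)
    rw [Finset.sum_add_distrib, ← Finset.sum_mul, S.pr_sum h2 a ha, one_mul]
    have h3 := hmin a ha
    push_cast
    linarith

end PoolAgent.Helper28.EC
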