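import Pool.Agent.Helper28.EC.Fam

/-!
# EC-EN: basic facts on `En` (mass times entropy) and on the entropies `H` of a family

`En s μ = ∑ φ(μ x) - φ(∑ μ x)`, `φ = negMulLog`.
-/

set_option autoImplicit false

namespace PoolAgent.Helper28.EC

open Finset Real

variable {α κ : Type*} {p : ℕ}

theorem en_nonneg (s : Finset α) (μ : α → ℝ) (h : ∀ x ∈ s, 0 ≤ μ x) : 0 ≤ En s μ := by
  unfold En
  have key : ∀ x ∈ s, -(μ x * Real.log (∑ x ∈ s, μ x)) ≤ Real.negMulLog (μ x) := by
    intro x hx
    rcases (h x hx).eq_or_lt with h0 | h0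
    · rw [← h0]; simp
    · have h1 : μ x ≤ ∑ x ∈ s, μ x := Finset.single_le_sum h hx
      have h2 := Real.log_le_log h0 h1
      have h3 := mul_le_mul_of_nonneg_left h2 h0.le
      rw [Real.negMulLog]
      linarith
  have h4 := Finset.sum_le_sum key
  rw [Finset.sum_neg_distrib, ← Finset.sum_mul] at h4
  have h5 : Real.negMulLog (∑ x ∈ s, μ x) = -((∑ x ∈ s, μ x) * Real.log (∑ x ∈ s, μ x)) := by
    rw [Real.negMulLog]; ring
  linarith

theorem en_smul (s : Finset α) (μ : α → ℝ) (c : ℝ) : En s (fun x => c * μ x) = c * En s μ := by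
  unfold En
  rw [← Finset.mul_sum]
  simp only [Real.negMulLog_mul]
  rw [Finset.sum_add_distrib, ← Finset.sum_mul, ← Finset.mul_sum]
  ring

/-- Superadditivity (concavity of the entropy). -/
theorem en_superadd (K : Finset κ) (s : Finset α) (μ : κ → α → ℝ) (h : ∀ k ∈ K, ∀ x ∈ s, 0 ≤ μ k x) :
    ∑ k ∈ K, En s (μ k) ≤ En s (fun x => ∑ k ∈ K, μ k x) := by
  set T : ℝ := ∑ x ∈ s, ∑ k ∈ K, μ k x with hT
  have hT' : T = ∑ k ∈ K, ∑ x ∈ s, μ k x := by rw [hT, Finset.sum_comm]
  set A : κ → ℝ := fun k => ∑ x ∈ s, μ k x with hA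
  set a : α → ℝ := fun x => ∑ k ∈ K, μ k x with ha
  have hAnn : ∀ k ∈ K, 0 ≤ A k := fun k hk => Finset.sum_nonneg fun x hx => h k hk x hx
  have hann : ∀ x ∈ s, 0 ≤ a x := fun x hx => Finset.sum_nonneg fun k hk => h k hk x hx
  have hTnn : 0 ≤ T := Finset.sum_nonneg fun x hx => hann x hx
  have term : ∀ k ∈ K, ∀ x ∈ s, μ k x - A k * a x / T ≤
      μ k x * (Real.log (μ k x) + Real.log T - Real.log (A k) - Real.log (a x)) := by
    intro k hk x hx
    rcases (h k hk x hx).eq_or_lt with h0 | h0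
    · rw [← h0]
      have : 0 ≤ A k * a x / T := div_nonneg (mul_nonneg (hAnn k hk) (hann x hx)) hTnn
      linarith
    · have h1 : μ k x ≤ A k := Finset.single_le_sum (f := fun x => μ k x) (fun x hx => h k hk x hx) hx
      have h2 : μ k x ≤ a x := Finset.single_le_sum (f := fun k => μ k x) (fun k hk => h k hk x hx) hk
      have h3 : a x ≤ T := Finset.single_le_sum (f := a) hann hx
      have hA0 : 0 < A k := lt_of_lt_of_le h0 h1
      have ha0 : 0 < a x := lt_of_lt_of_le h0 h2
      have hT0 : 0 < T := lt_of_lt_of_le ha0 h3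
      have h4 : Real.log (μ k x) + Real.log T - Real.log (A k) - Real.log (a x) =
          Real.log (μ k x * T / (A k * a x)) := by
        rw [Real.log_div (by positivity) (by positivity), Real.log_mul h0.ne' hT0.ne',
          Real.log_mul hA0.ne' ha0.ne']
        ring
      rw [h4]
      have h5 : 1 - (μ k x * T / (A k * a x))⁻¹ ≤ Real.log (μ k x * T / (A k * a x)) :=
        Real.one_sub_inv_le_log_of_pos (by positivity)
      have h6 := mul_le_mul_of_nonneg_left h5 h0.le
      refine le_trans (le_of_eq ?_) h6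
      field_simp
  have hsum : ∑ k ∈ K, ∑ x ∈ s, (μ k x - A k * a x / T) ≤
      ∑ k ∈ K, ∑ x ∈ s, μ k x * (Real.log (μ k x) + Real.log T - Real.log (A k) - Real.log (a x)) :=
    Finset.sum_le_sum fun k hk => Finset.sum_le_sum fun x hx => term k hk x hx
  have hL : ∑ k ∈ K, ∑ x ∈ s, (μ k x - A k * a x / T) = 0 := by
    have e1 : ∑ k ∈ K, ∑ x ∈ s, A k * a x / T = (∑ k ∈ K, A k) * (∑ x ∈ s, a x) / T := by
      rw [Finset.sum_mul_sum, Finset.sum_div]
      refine Finset.sum_congr rfl fun k _ => ?_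
      rw [Finset.sum_div]
    simp only [Finset.sum_sub_distrib]
    rw [e1, ← hT', ← hT]
    rcases eq_or_ne T 0 with h0 | h0
    · rw [h0]; simp
    · field_simp
      ring
  have hR : ∑ k ∈ K, ∑ x ∈ s, μ k x * (Real.log (μ k x) + Real.log T - Real.log (A k) - Real.log (a x)) =
      (∑ x ∈ s, Real.negMulLog (a x) - Real.negMulLog T) -
        ∑ k ∈ K, (∑ x ∈ s, Real.negMulLog (μ k x) - Real.negMulLog (A k)) := by
    have e0 : ∀ k x, μ k x * (Real.log (μ k x) + Real.log T - Real.log (A k) - Real.log (a x)) =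
        -Real.negMulLog (μ k x) + μ k x * Real.log T - μ k x * Real.log (A k) - μ k x * Real.log (a x) := by
      intro k x
      rw [Real.negMulLog]; ring
    simp only [e0, Finset.sum_sub_distrib, Finset.sum_add_distrib, Finset.sum_neg_distrib]
    have e1 : ∑ k ∈ K, ∑ x ∈ s, μ k x * Real.log T = -Real.negMulLog T := by
      simp only [← Finset.sum_mul]
      rw [← hT', Real.negMulLog]; ring
    have e2 : ∑ k ∈ K, ∑ x ∈ s, μ k x * Real.log (A k) = -∑ k ∈ K, Real.negMulLog (A k) := by
      rw [← Finset.sum_neg_distrib]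
      refine Finset.sum_congr rfl fun k _ => ?_
      rw [← Finset.sum_mul, Real.negMulLog]; ring
    have e3 : ∑ k ∈ K, ∑ x ∈ s, μ k x * Real.log (a x) = -∑ x ∈ s, Real.negMulLog (a x) := by
      rw [Finset.sum_comm, ← Finset.sum_neg_distrib]
      refine Finset.sum_congr rfl fun x _ => ?_
      rw [← Finset.sum_mul, Real.negMulLog]; ring
    rw [e1, e2, e3]
    ring
  rw [hL, hR] at hsum
  unfold En
  linarith

theorem en_le_log (s : Finset α) (μ : α → ℝ) (h : ∀ x ∈ s, 0 ≤ μ x) :
    En s μ ≤ (∑ x ∈ s, μ x) * Real.log s.card := by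
  rcases s.eq_empty_or_nonempty with hs | hs
  · subst hs
    simp [En]
  have hn : (0 : ℝ) < s.card := by exact_mod_cast hs.card_pos
  set M : ℝ := ∑ x ∈ s, μ x with hM
  have term : ∀ x ∈ s, Real.negMulLog (μ x) + μ x * Real.log M - μ x * Real.log s.card ≤ M / s.card - μ x := by
    intro x hx
    have hMx : μ x ≤ M := Finset.single_le_sum h hx
    rcases (h x hx).eq_or_lt with h0 | h0
    · rw [← h0]
      have h1 : 0 ≤ M := le_trans (h x hx) hMx
      simp only [Real.negMulLog_zero, zero_mul, add_zero, sub_zero]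
      positivity
    · have hM0 : 0 < M := lt_of_lt_of_le h0 hMx
      have h1 : Real.log (M / (s.card * μ x)) ≤ M / (s.card * μ x) - 1 := Real.log_le_sub_one_of_pos (by positivity)
      have h2 := mul_le_mul_of_nonneg_left h1 h0.le
      have h3 : μ x * (M / (s.card * μ x) - 1) = M / s.card - μ x := by
        field_simp
      have h4 : Real.log (M / (s.card * μ x)) = Real.log M - Real.log s.card - Real.log (μ x) := by
        rw [Real.log_div hM0.ne' (by positivity), Real.log_mul hn.ne' h0.ne']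
        ring
      rw [h3, h4] at h2
      rw [Real.negMulLog]
      linarith
  have h1 := Finset.sum_le_sum term
  have h2 : ∑ x ∈ s, (M / s.card - μ x) = 0 := by
    rw [Finset.sum_sub_distrib, Finset.sum_const, nsmul_eq_mul, ← hM]
    field_simp
    ring
  rw [h2, Finset.sum_sub_distrib, Finset.sum_add_distrib, ← Finset.sum_mul, ← Finset.sum_mul, ← hM] at h1
  unfold En
  rw [← hM]
  have h3 : Real.negMulLog M = -(M * Real.log M) := by rw [Real.negMulLog]; ring
  linarith

/-- Chain rule. -/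
theorem en_fiber (a b : ℕ) (μ : ℕ → ℝ) :
    En (range (a * b)) μ = En (range a) (fun y => ∑ e ∈ range b, μ (y + a * e)) +
      ∑ y ∈ range a, En (range b) (fun e => μ (y + a * e)) := by
  unfold En
  rw [sum_range_mul, sum_range_mul, Finset.sum_sub_distrib]
  ring

/-- The entropy of a family at the level `i + w`. -/
theorem H_add (μ : Fam p) (i w : ℕ) : μ.H (i + w) = μ.H i + ∑ y ∈ range (p ^ i), (μ.res i y).H w := by
  unfold Fam.H
  rw [pow_add, en_fiber]
  congr 1
  · congr 1
    funext y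
    rw [μ.cons_iter i w]
    refine Finset.sum_congr rfl fun e _ => ?_
    push_cast
    rfl

theorem H_zero (μ : Fam p) : μ.H 0 = 0 := by
  unfold Fam.H En
  simp

theorem H_nonneg (μ : Fam p) (j : ℕ) : 0 ≤ μ.H j :=
  en_nonneg _ _ fun _ _ => μ.nonneg _ _

theorem H_mono (μ : Fam p) {i j : ℕ} (h : i ≤ j) : μ.H i ≤ μ.H j := by
  obtain ⟨w, rfl⟩ := Nat.exists_eq_add_of_le h
  rw [H_add]
  have : 0 ≤ ∑ y ∈ range (p ^ i), (μ.res i y).H w := Finset.sum_nonneg fun y _ => H_nonneg _ _
  linarith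

theorem H_le (μ : Fam p) (j : ℕ) : μ.H j ≤ μ.mass * (j * Real.log p) := by
  have h := en_le_log (range (p ^ j)) (fun x => μ.m j (x : ℤ)) fun _ _ => μ.nonneg _ _
  rw [μ.sum_eq_mass, Finset.card_range, Nat.cast_pow, Real.log_pow] at h
  exact h

/-- The deficit of the window `[i, i+w)` is the sum of the deficits of the first `w` digits in the classes modulo `p^i`. -/
theorem df_eq (μ : Fam p) (w i : ℕ) : μ.df w i = ∑ y ∈ range (p ^ i), (μ.res i y).df w 0 := by
  unfold Fam.df
  have h1 : ∀ y : ℕ, (μ.res i y).mass * (w * Real.log p) - ((μ.res i y).H (0 + w) - (μ.res i y).H 0) =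
      μ.m i (y : ℤ) * (w * Real.log p) - (μ.res i y).H w := by
    intro y
    rw [zero_add, H_zero, sub_zero, Fam.res_mass]
  simp only [h1]
  rw [Finset.sum_sub_distrib, ← Finset.sum_mul, μ.sum_eq_mass, H_add]
  ring

theorem df_nonneg (μ : Fam p) (w i : ℕ) : 0 ≤ μ.df w i := by
  rw [df_eq]
  refine Finset.sum_nonneg fun y _ => ?_
  unfold Fam.df
  rw [zero_add, H_zero, sub_zero]
  have := H_le (μ.res i y) w
  linarith

end PoolAgent.Helper28.EC
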