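import Pool.Agent.Helper28.EC.Chain
import Pool.Agent.Helper28.EC.En

/-!
# EC-CHAT: the law of the offset `chat = cc u B / p^rho` given `B`, `tt u = T`, `cc u B = R mod p^rho`
-/

set_option autoImplicit false

namespace PoolAgent.Helper28.EC

open Finset Real

open Classical in
/-- The law of `cc u B / p^rho` over the chains `u` of length `t` with `tt u = T` and `cc u B = R mod p^rho`. -/
noncomputable def nuF (S : Sys) (t : ℕ) (B : ℤ) (T R : ℕ) : Fam S.p :=
  Fam.law S.hp.pos ((S.chains t).filter fun u => S.tt u = T ∧ S.cc u B % (S.p : ℤ) ^ S.rho = R)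
    (fun u => S.pc u B) (fun u => S.pc_nonneg u B) (fun u => S.cc u B / (S.p : ℤ) ^ S.rho)

/-- The masses add up to 1: every chain `u` of length `t` has `tt u <= K t` and exactly one residue `R`; `Fam.law` has mass `∑ P`. -/
theorem nuF_mass (S : Sys) (h2 : S.Two) (K : ℕ) (hK : ∀ u : List S.ι, S.tt u ≤ K * u.length) (t : ℕ) (B : ℤ)
    (hB : S.alive B) : ∑ T ∈ range (K * t + 1), ∑ R ∈ range (S.p ^ S.rho), (nuF S t B T R).mass = 1 := by
  classical
  have hpr : (0 : ℤ) < (S.p : ℤ) ^ S.rho := S.pN_pos _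
  have h1 : ∀ T R : ℕ, (nuF S t B T R).mass = ∑ u ∈ S.chains t,
      if S.tt u = T ∧ S.cc u B % (S.p : ℤ) ^ S.rho = R then S.pc u B else 0 := by
    intro T R
    show ∑ u ∈ (S.chains t).filter (fun u => S.tt u = T ∧ S.cc u B % (S.p : ℤ) ^ S.rho = R),
      (if S.cc u B / (S.p : ℤ) ^ S.rho ≡ 0 [ZMOD (S.p : ℤ) ^ 0] then S.pc u B else 0) = _
    rw [Finset.sum_filter]
    refine Finset.sum_congr rfl fun u _ => ?_
    have h2 : S.cc u B / (S.p : ℤ) ^ S.rho ≡ 0 [ZMOD (S.p : ℤ) ^ 0] := by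
      rw [pow_zero]
      exact Int.modEq_one
    rw [if_pos h2]
  simp only [h1]
  rw [← Finset.sum_product', Finset.sum_comm, ← S.pc_sum h2 t B hB]
  refine Finset.sum_congr rfl fun u hu => ?_
  have hlen : u.length = t := (S.mem_chains t u).1 hu
  have hc0 := Int.emod_nonneg (S.cc u B) hpr.ne'
  have hc1 := Int.emod_lt_of_pos (S.cc u B) hpr
  rw [Finset.sum_eq_single (S.tt u, (S.cc u B % (S.p : ℤ) ^ S.rho).toNat)]
  · rw [if_pos]
    refine ⟨rfl, ?_⟩
    show S.cc u B % (S.p : ℤ) ^ S.rho = (((S.cc u B % (S.p : ℤ) ^ S.rho).toNat : ℕ) : ℤ)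
    rw [Int.toNat_of_nonneg hc0]
  · intro q _ hq
    rw [if_neg]
    rintro ⟨h3, h4⟩
    apply hq
    ext
    · exact h3.symm
    · show q.2 = (S.cc u B % (S.p : ℤ) ^ S.rho).toNat
      rw [h4]
      simp
  · intro hq
    exfalso
    apply hq
    rw [Finset.mem_product, mem_range, mem_range]
    constructor
    · show S.tt u < K * t + 1
      have := hK u
      rw [hlen] at this
      omega
    · show (S.cc u B % (S.p : ℤ) ^ S.rho).toNat < S.p ^ S.rho
      rw [← Nat.cast_pow] at hc1 hc0 ⊢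
      omega

end PoolAgent.Helper28.EC
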