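import Pool.Agent.Helper28.EC.Minor

/-!
# EC-CLS: every stationary family is uniform on the classes modulo `p^rho` (section E of h28_PRE5_alt.md)

`c R := ⨅ over j >= rho and x = R mod p^rho of p^(j-rho) ω_j(x)` (bounded below by 0; depends on the class of `R` mod `p^rho`),
`κ_j(x) := c(x) p^(rho-j)` for `j >= rho` (at a level `j < rho`: the sum of the `c` over the classes below `x`, i.e. use
`κ.m j x = ∑_{e<p^(rho-j)} c(x + p^j e)`).  `κ <= ω`.  One step of the chain sends `κ` to `κ'`, `κ'_j(x) = p^(rho-j) c'(x)`,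
`c'(x) = ∑_{s < p^(N+rho)} c(s) p^(-N) ∑_w pr w s [child w s = x mod p^rho]`
(for `s < p^(N+rho)` and `w` valid at `s` exactly one `y < p^(j+N)`, `y = s mod p^(N+rho)`, has `child w y = x mod p^j` if `child w s = x mod p^rho`, and none otherwise:
`child_shift`).  Since `κ <= ω` and `ω` is invariant, `p^(rho-j) c'(x) <= ω_j(x)` for all `j`, `x`, so `c' <= c`; both have the same total mass over the classes mod `p^rho`
(`pr_sum` for alive `s`; `c(s) = 0` for `s` not alive), so `c' = c`: `κ` is invariant.  Let `mu = 1 - mass κ`.  If `mu > 0` then `(ω - κ)/mu` is a stationary family, `Minor` gives a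
class `R` and `c4 > 0` with `p^j (ω_j(x) - κ_j(x)) >= mu c4` for all `x = R mod p^rho`, contradicting the definition of `c R` as an infimum.  So `mu = 0`, and `κ <= ω` with
equal mass at every level gives `κ = ω`.
-/

set_option autoImplicit false

namespace PoolAgent.Helper28.EC

open Finset Real

namespace Cls

/-- Densities of `ω` above the class of `R`. -/
def dset (S : Sys) (ω : Fam S.p) (R : ℤ) : Set ℝ :=
  {r : ℝ | ∃ (j : ℕ) (x : ℤ), S.rho ≤ j ∧ x ≡ R [ZMOD (S.p : ℤ) ^ S.rho] ∧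
    r = (S.p : ℝ) ^ (j - S.rho) * ω.m j x}

/-- Their infimum. -/
noncomputable def c (S : Sys) (ω : Fam S.p) (R : ℤ) : ℝ := sInf (dset S ω R)

variable (S : Sys) (ω : Fam S.p)

theorem dset_bdd (R : ℤ) : BddBelow (dset S ω R) := by
  refine ⟨0, ?_⟩
  rintro r ⟨j, x, _, _, rfl⟩
  exact mul_nonneg (by positivity) (ω.nonneg _ _)

theorem dset_ne (R : ℤ) : (dset S ω R).Nonempty :=
  ⟨_, S.rho, R, le_rfl, Int.ModEq.refl _, rfl⟩

theorem c_nonneg (R : ℤ) : 0 ≤ c S ω R := by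
  apply le_csInf (dset_ne S ω R)
  rintro r ⟨j, x, _, _, rfl⟩
  exact mul_nonneg (by positivity) (ω.nonneg _ _)

theorem c_le (R : ℤ) (j : ℕ) (x : ℤ) (hj : S.rho ≤ j) (h : x ≡ R [ZMOD (S.p : ℤ) ^ S.rho]) :
    c S ω R ≤ (S.p : ℝ) ^ (j - S.rho) * ω.m j x :=
  csInf_le (dset_bdd S ω R) ⟨j, x, hj, h, rfl⟩

theorem le_c (R : ℤ) (b : ℝ) (h : ∀ (j : ℕ) (x : ℤ), S.rho ≤ j → x ≡ R [ZMOD (S.p : ℤ) ^ S.rho] →
    b ≤ (S.p : ℝ) ^ (j - S.rho) * ω.m j x) : b ≤ c S ω R := by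
  apply le_csInf (dset_ne S ω R)
  rintro r ⟨j, x, hj, hx, rfl⟩
  exact h j x hj hx

theorem c_congr {R R' : ℤ} (h : R ≡ R' [ZMOD (S.p : ℤ) ^ S.rho]) : c S ω R = c S ω R' := by
  unfold c
  congr 1
  ext r
  constructor
  · rintro ⟨j, x, hj, hx, rfl⟩
    exact ⟨j, x, hj, hx.trans h, rfl⟩
  · rintro ⟨j, x, hj, hx, rfl⟩
    exact ⟨j, x, hj, hx.trans h.symm, rfl⟩

theorem c_per (R z : ℤ) (j : ℕ) (hj : S.rho ≤ j) : c S ω (R + (S.p : ℤ) ^ j * z) = c S ω R := by
  apply c_congr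
  rw [Int.modEq_iff_dvd]
  have : R - (R + (S.p : ℤ) ^ j * z) = (S.p : ℤ) ^ j * (-z) := by ring
  rw [this]
  exact (pow_dvd_pow _ hj).mul_right _

/-- The maximal locally uniform part. -/
noncomputable def kap : Fam S.p where
  m j x := (∑ e ∈ range (S.p ^ (S.rho - j)), c S ω (x + (S.p : ℤ) ^ j * e)) / (S.p : ℝ) ^ (j - S.rho)
  nonneg j x := div_nonneg (Finset.sum_nonneg fun e _ => c_nonneg S ω _) (by positivity)
  per j x z := by
    congr 1
    have h := sum_range_shift (S.p ^ (S.rho - j)) (fun y : ℤ => c S ω (x + (S.p : ℤ) ^ j * y)) ?_ z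
    · rw [← h]
      refine Finset.sum_congr rfl fun e _ => ?_
      congr 1
      ring
    · intro y z'
      have : x + (S.p : ℤ) ^ j * (y + ((S.p ^ (S.rho - j) : ℕ) : ℤ) * z') =
          x + (S.p : ℤ) ^ j * y + (S.p : ℤ) ^ (j + (S.rho - j)) * z' := by
        push_cast; ring
      simp only [this]
      exact c_per S ω _ _ _ (by omega)
  cons j x := by
    have hp : (S.p : ℝ) ≠ 0 := by exact_mod_cast S.hp.ne_zero
    rcases le_or_gt S.rho j with hj | hj
    · have e1 : S.rho - j = 0 := by omega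
      have e2 : S.rho - (j + 1) = 0 := by omega
      have e3 : j + 1 - S.rho = (j - S.rho) + 1 := by omega
      simp only [e1, e2, e3, pow_zero, range_one, sum_singleton, Nat.cast_zero, mul_zero, add_zero]
      have : ∀ e ∈ range S.p, c S ω (x + (S.p : ℤ) ^ j * e) / (S.p : ℝ) ^ (j - S.rho + 1) =
          c S ω x / (S.p : ℝ) ^ (j - S.rho + 1) := by
        intro e _
        rw [c_per S ω _ _ _ hj]
      rw [Finset.sum_congr rfl this, Finset.sum_const, card_range, nsmul_eq_mul, pow_succ]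
      field_simp
    · have e1 : S.rho - j = (S.rho - (j + 1)) + 1 := by omega
      have e2 : j - S.rho = 0 := by omega
      have e3 : j + 1 - S.rho = 0 := by omega
      rw [e2, e3, e1, pow_succ', sum_range_mul]
      simp only [pow_zero, div_one]
      refine Finset.sum_congr rfl fun y _ => ?_
      refine Finset.sum_congr rfl fun e _ => ?_
      congr 1
      push_cast
      ring

theorem kap_m (j : ℕ) (x : ℤ) (hj : S.rho ≤ j) :
    (kap S ω).m j x = c S ω x / (S.p : ℝ) ^ (j - S.rho) := by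
  have e1 : S.rho - j = 0 := by omega
  show (∑ e ∈ range (S.p ^ (S.rho - j)), c S ω (x + (S.p : ℤ) ^ j * e)) / (S.p : ℝ) ^ (j - S.rho) = _
  rw [e1]
  simp

theorem kap_le' (j : ℕ) (x : ℤ) (hj : S.rho ≤ j) : (kap S ω).m j x ≤ ω.m j x := by
  have hp : (0 : ℝ) < (S.p : ℝ) := by exact_mod_cast S.hp.pos
  rw [kap_m S ω j x hj, div_le_iff₀ (by positivity), mul_comm]
  exact c_le S ω x j x hj (Int.ModEq.refl _)

theorem kap_le (j : ℕ) (x : ℤ) : (kap S ω).m j x ≤ ω.m j x := by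
  rw [(kap S ω).cons_iter j S.rho, ω.cons_iter j S.rho]
  exact Finset.sum_le_sum fun e _ => kap_le' S ω _ _ (by omega)

/-- Transition weights modulo `p^j`. -/
noncomputable def q (j : ℕ) (y x : ℤ) : ℝ :=
  ∑ w : S.ι, if S.child w y ≡ x [ZMOD (S.p : ℤ) ^ j] then S.pr w y else 0

theorem q_nonneg (j : ℕ) (y x : ℤ) : 0 ≤ q S j y x :=
  Finset.sum_nonneg fun w _ => by split_ifs <;> simp [S.pr_nonneg]

theorem q_congr (j : ℕ) (y : ℤ) {x x' : ℤ} (h : x ≡ x' [ZMOD (S.p : ℤ) ^ j]) : q S j y x = q S j y x' := by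
  unfold q
  refine Finset.sum_congr rfl fun w _ => ?_
  have : (S.child w y ≡ x [ZMOD (S.p : ℤ) ^ j]) ↔ S.child w y ≡ x' [ZMOD (S.p : ℤ) ^ j] :=
    ⟨fun h' => h'.trans h, fun h' => h'.trans h.symm⟩
  simp only [this]

/-- A linear congruence with invertible coefficient has one solution. -/
theorem uniq (D : ℤ) (hD : IsCoprime D (S.p : ℤ)) (n : ℕ) (u : ℤ) (a : ℝ) :
    ∑ e ∈ range (S.p ^ n), (if D * (e : ℤ) ≡ u [ZMOD (S.p : ℤ) ^ n] then a else 0) = a := by
  have hp' : (0 : ℤ) < S.p := by exact_mod_cast S.hp.pos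
  have hpn : (0 : ℤ) < (S.p : ℤ) ^ n := pow_pos hp' n
  have hco : IsCoprime D ((S.p : ℤ) ^ n) := hD.pow_right
  obtain ⟨s, t, hst⟩ := hco
  -- s D = 1 mod p^n
  have hsD : s * D ≡ 1 [ZMOD (S.p : ℤ) ^ n] := by
    rw [Int.modEq_iff_dvd]; exact ⟨t, by linarith⟩
  rw [Finset.sum_eq_single ((s * u) % (S.p : ℤ) ^ n).toNat]
  · rw [if_pos]
    rw [Int.toNat_of_nonneg (Int.emod_nonneg _ hpn.ne')]
    have h1 : (s * u) % (S.p : ℤ) ^ n ≡ s * u [ZMOD (S.p : ℤ) ^ n] := Int.mod_modEq _ _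
    calc D * ((s * u) % (S.p : ℤ) ^ n) ≡ D * (s * u) [ZMOD (S.p : ℤ) ^ n] := h1.mul_left _
      _ = (s * D) * u := by ring
      _ ≡ 1 * u [ZMOD (S.p : ℤ) ^ n] := hsD.mul_right _
      _ = u := one_mul u
  · intro e he hne
    rw [if_neg]
    intro h
    apply hne
    have h1 : (e : ℤ) ≡ s * u [ZMOD (S.p : ℤ) ^ n] := by
      calc (e : ℤ) = 1 * e := (one_mul _).symm
        _ ≡ (s * D) * e [ZMOD (S.p : ℤ) ^ n] := (hsD.symm).mul_right _
        _ = s * (D * e) := by ring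
        _ ≡ s * u [ZMOD (S.p : ℤ) ^ n] := h.mul_left _
    have h2 : (e : ℤ) % (S.p : ℤ) ^ n = (s * u) % (S.p : ℤ) ^ n := h1
    rw [Int.emod_eq_of_lt (by positivity) (by exact_mod_cast mem_range.1 he)] at h2
    rw [← h2]; simp
  · intro hne
    exfalso
    apply hne
    rw [mem_range]
    have h1 := Int.emod_lt_of_pos (s * u) hpn
    have h2 := Int.emod_nonneg (s * u) hpn.ne'
    have h3 : ((S.p ^ n : ℕ) : ℤ) = (S.p : ℤ) ^ n := by push_cast; ring
    omega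

theorem q_sum (j : ℕ) (hj : S.rho ≤ j) (y x : ℤ) :
    ∑ e ∈ range (S.p ^ (j - S.rho)), q S j (y + ((S.p ^ (S.N + S.rho) : ℕ) : ℤ) * e) x = q S S.rho y x := by
  unfold q
  rw [Finset.sum_comm]
  refine Finset.sum_congr rfl fun w _ => ?_
  have hpp : Prime (S.p : ℤ) := Nat.prime_iff_prime_int.1 S.hp
  have hcop : IsCoprime (S.d ^ S.tau w) (S.p : ℤ) := by
    apply IsCoprime.pow_left
    exact ((Prime.coprime_iff_not_dvd hpp).2 S.hd).symm
  have hcast : ((S.p ^ (S.N + S.rho) : ℕ) : ℤ) = (S.p : ℤ) ^ (S.N + S.rho) := by push_cast; ring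
  rw [hcast]
  by_cases hpr : S.pr w y = 0
  · have : ∀ e ∈ range (S.p ^ (j - S.rho)),
        (if S.child w (y + (S.p : ℤ) ^ (S.N + S.rho) * e) ≡ x [ZMOD (S.p : ℤ) ^ j]
          then S.pr w (y + (S.p : ℤ) ^ (S.N + S.rho) * e) else 0) = 0 := by
      intro e _
      rw [S.pr_per, hpr]; simp
    rw [Finset.sum_eq_zero this, hpr]; simp
  · have hval := S.valid_of_pr w y hpr
    have hdiv := hval.1
    have hch : ∀ e : ℕ, S.child w (y + (S.p : ℤ) ^ (S.N + S.rho) * e) =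
        S.child w y + (S.p : ℤ) ^ S.rho * (S.d ^ S.tau w * e) := fun e => S.child_shift w y e S.rho hdiv
    have hpow : (S.p : ℤ) ^ j = (S.p : ℤ) ^ S.rho * (S.p : ℤ) ^ (j - S.rho) := by
      rw [← pow_add]; congr 1; omega
    have hp' : (0 : ℤ) < S.p := by exact_mod_cast S.hp.pos
    have hpr0 : (S.p : ℤ) ^ S.rho ≠ 0 := (pow_pos hp' _).ne'
    simp only [hch, S.pr_per]
    by_cases hx : S.child w y ≡ x [ZMOD (S.p : ℤ) ^ S.rho]
    · rw [if_pos hx]
      obtain ⟨u, hu⟩ := hx.dvd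
      have hiff : ∀ e : ℕ, (S.child w y + (S.p : ℤ) ^ S.rho * (S.d ^ S.tau w * e) ≡ x [ZMOD (S.p : ℤ) ^ j]) ↔
          S.d ^ S.tau w * (e : ℤ) ≡ u [ZMOD (S.p : ℤ) ^ (j - S.rho)] := by
        intro e
        rw [Int.modEq_iff_dvd, Int.modEq_iff_dvd, hpow]
        have : x - (S.child w y + (S.p : ℤ) ^ S.rho * (S.d ^ S.tau w * e)) =
            (S.p : ℤ) ^ S.rho * (u - S.d ^ S.tau w * e) := by
          rw [mul_sub, ← hu]; ring
        rw [this]
        exact mul_dvd_mul_iff_left hpr0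
      simp only [hiff]
      exact uniq S _ hcop _ _ _
    · rw [if_neg hx]
      refine Finset.sum_eq_zero fun e _ => ?_
      rw [if_neg]
      intro h
      apply hx
      have h1 : S.child w y + (S.p : ℤ) ^ S.rho * (S.d ^ S.tau w * e) ≡ x [ZMOD (S.p : ℤ) ^ S.rho] :=
        h.of_dvd (pow_dvd_pow _ hj)
      refine Int.ModEq.trans ?_ h1
      rw [Int.modEq_iff_dvd]
      exact ⟨S.d ^ S.tau w * e, by ring⟩

/-- One step of the chain applied to `κ`. -/
noncomputable def K' (j : ℕ) (x : ℤ) : ℝ :=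
  ∑ y ∈ range (S.p ^ (j + S.N)), (kap S ω).m (j + S.N) (y : ℤ) * q S j y x

theorem K'_struct (j : ℕ) (x : ℤ) (hj : S.rho ≤ j) :
    (S.p : ℝ) ^ (j - S.rho) * K' S ω j x = K' S ω S.rho x := by
  have hp : (S.p : ℝ) ≠ 0 := by exact_mod_cast S.hp.ne_zero
  have key : ∀ i : ℕ, S.rho ≤ i → K' S ω i x =
      ∑ y ∈ range (S.p ^ (S.N + S.rho)), c S ω (y : ℤ) / (S.p : ℝ) ^ (i + S.N - S.rho) * q S S.rho y x := by
    intro i hi
    unfold K'
    have e1 : i + S.N = (S.N + S.rho) + (i - S.rho) := by omega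
    have e2 : S.p ^ (i + S.N) = S.p ^ (S.N + S.rho) * S.p ^ (i - S.rho) := by
      rw [← pow_add]; congr 1
    rw [e2, sum_range_mul]
    refine Finset.sum_congr rfl fun y _ => ?_
    rw [← q_sum S i hi (y : ℤ) x, Finset.mul_sum]
    refine Finset.sum_congr rfl fun e _ => ?_
    rw [kap_m S ω _ _ (by omega)]
    push_cast
    rw [c_per S ω _ _ _ (by omega)]
  rw [key j hj, key S.rho le_rfl, Finset.mul_sum]
  refine Finset.sum_congr rfl fun y _ => ?_
  have e3 : j + S.N - S.rho = (j - S.rho) + S.N := by omega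
  have e4 : S.rho + S.N - S.rho = S.N := by omega
  rw [e3, e4, pow_add]
  field_simp

variable {ω} in
theorem K'_le (hst : Stat S ω) (j : ℕ) (x : ℤ) (hj : S.rho ≤ j) : K' S ω j x ≤ ω.m j x := by
  rw [hst.inv j x hj]
  unfold K'
  refine Finset.sum_le_sum fun y _ => ?_
  exact mul_le_mul_of_nonneg_right (kap_le S ω _ _) (q_nonneg S j y x)

theorem K'_congr (j : ℕ) {x x' : ℤ} (h : x ≡ x' [ZMOD (S.p : ℤ) ^ j]) : K' S ω j x = K' S ω j x' := by
  unfold K'
  refine Finset.sum_congr rfl fun y _ => ?_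
  rw [q_congr S j y h]

variable {ω} in
theorem K'_le_c (hst : Stat S ω) (x : ℤ) : K' S ω S.rho x ≤ c S ω x := by
  apply le_c
  intro j x' hj hx'
  rw [← K'_congr S ω S.rho hx', ← K'_struct S ω j x' hj]
  exact mul_le_mul_of_nonneg_left (K'_le S hst j x' hj) (by positivity)

theorem sum_q (y : ℤ) : ∑ x ∈ range (S.p ^ S.rho), q S S.rho y (x : ℤ) = ∑ w : S.ι, S.pr w y := by
  unfold q
  rw [Finset.sum_comm]
  refine Finset.sum_congr rfl fun w _ => ?_
  have := uniq S 1 isCoprime_one_left S.rho (S.child w y) (S.pr w y)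
  conv_rhs => rw [← this]
  refine Finset.sum_congr rfl fun x _ => ?_
  rw [one_mul]
  have : (S.child w y ≡ (x : ℤ) [ZMOD (S.p : ℤ) ^ S.rho]) ↔ ((x : ℤ) ≡ S.child w y [ZMOD (S.p : ℤ) ^ S.rho]) :=
    ⟨Int.ModEq.symm, Int.ModEq.symm⟩
  simp only [this]

variable {ω} in
theorem sum_K' (h2 : S.Two) (hst : Stat S ω) :
    ∑ x ∈ range (S.p ^ S.rho), K' S ω S.rho (x : ℤ) = ∑ x ∈ range (S.p ^ S.rho), c S ω (x : ℤ) := by
  unfold K'
  rw [Finset.sum_comm]
  have h1 : ∀ y ∈ range (S.p ^ (S.rho + S.N)), ∑ x ∈ range (S.p ^ S.rho),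
      (kap S ω).m (S.rho + S.N) (y : ℤ) * q S S.rho y (x : ℤ) = (kap S ω).m (S.rho + S.N) (y : ℤ) := by
    intro y _
    rw [← Finset.mul_sum, sum_q]
    by_cases ha : S.alive (y : ℤ)
    · rw [S.pr_sum h2 _ ha, mul_one]
    · have h3 : (kap S ω).m (S.rho + S.N) (y : ℤ) = 0 := by
        apply le_antisymm _ ((kap S ω).nonneg _ _)
        rw [← hst.supp (S.rho + S.N) y (by omega) ha]
        exact kap_le S ω _ _
      rw [h3, zero_mul]
  rw [Finset.sum_congr rfl h1, (kap S ω).sum_eq_mass, ← (kap S ω).sum_eq_mass S.rho]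
  refine Finset.sum_congr rfl fun x _ => ?_
  rw [kap_m S ω _ _ le_rfl]
  simp

/-- Reduction of an integer to the range. -/
theorem red (n : ℕ) (x : ℤ) : ∃ x0 ∈ range (S.p ^ n), ((x0 : ℕ) : ℤ) ≡ x [ZMOD (S.p : ℤ) ^ n] := by
  have hp' : (0 : ℤ) < S.p := by exact_mod_cast S.hp.pos
  have hpn : (0 : ℤ) < (S.p : ℤ) ^ n := pow_pos hp' n
  refine ⟨(x % (S.p : ℤ) ^ n).toNat, ?_, ?_⟩
  · rw [mem_range]
    have h1 := Int.emod_lt_of_pos x hpn
    have h2 := Int.emod_nonneg x hpn.ne'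
    have h3 : ((S.p ^ n : ℕ) : ℤ) = (S.p : ℤ) ^ n := by push_cast; ring
    omega
  · rw [Int.toNat_of_nonneg (Int.emod_nonneg _ hpn.ne')]
    exact Int.mod_modEq _ _

variable {ω} in
theorem K'_eq_c (h2 : S.Two) (hst : Stat S ω) (x : ℤ) : K' S ω S.rho x = c S ω x := by
  obtain ⟨x0, hx0, hx⟩ := red S S.rho x
  rw [← K'_congr S ω S.rho hx, ← c_congr S ω hx]
  have := (Finset.sum_eq_sum_iff_of_le (fun i (_ : i ∈ range (S.p ^ S.rho)) => K'_le_c S hst (i : ℤ))).1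
    (sum_K' S h2 hst)
  exact this x0 hx0

variable {ω} in
theorem kap_inv (h2 : S.Two) (hst : Stat S ω) (j : ℕ) (x : ℤ) (hj : S.rho ≤ j) :
    (kap S ω).m j x = K' S ω j x := by
  have hp : (0 : ℝ) < (S.p : ℝ) := by exact_mod_cast S.hp.pos
  rw [kap_m S ω j x hj, ← K'_eq_c S h2 hst x, ← K'_struct S ω j x hj]
  field_simp

/-- The remainder. -/
noncomputable def nu (μ : ℝ) (hμ : 0 < μ) : Fam S.p where
  m j x := (ω.m j x - (kap S ω).m j x) / μ
  nonneg j x := div_nonneg (sub_nonneg.2 (kap_le S ω j x)) hμ.le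
  per j x z := by rw [ω.per, (kap S ω).per]
  cons j x := by
    rw [← Finset.sum_div, Finset.sum_sub_distrib, ← ω.cons, ← (kap S ω).cons]

variable {ω} in
theorem mass_one (h2 : S.Two) (hmin : Minor S) (hst : Stat S ω) : (kap S ω).mass = 1 := by
  have hp : (0 : ℝ) < (S.p : ℝ) := by exact_mod_cast S.hp.pos
  have hle : (kap S ω).mass ≤ 1 := by
    have := kap_le S ω 0 0
    rw [hst.mass] at this
    exact this
  by_contra hne
  have hμ : 0 < 1 - (kap S ω).mass := by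
    have := lt_of_le_of_ne hle hne
    linarith
  set μ := 1 - (kap S ω).mass with hμdef
  have hν : Stat S (nu S ω μ hμ) := by
    refine ⟨?_, ?_, ?_⟩
    · show (ω.m 0 0 - (kap S ω).m 0 0) / μ = 1
      rw [hst.mass]
      exact div_self hμ.ne'
    · intro j x hj hx
      show (ω.m j x - (kap S ω).m j x) / μ = 0
      have h0 := hst.supp j x hj hx
      have h3 : (kap S ω).m j x = 0 := by
        apply le_antisymm _ ((kap S ω).nonneg _ _)
        rw [← h0]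
        exact kap_le S ω _ _
      rw [h0, h3]; simp
    · intro j x hj
      show (ω.m j x - (kap S ω).m j x) / μ = ∑ y ∈ range (S.p ^ (j + S.N)),
        ((ω.m (j + S.N) y - (kap S ω).m (j + S.N) y) / μ) * q S j y x
      rw [kap_inv S h2 hst j x hj, hst.inv j x hj]
      unfold K'
      rw [← Finset.sum_sub_distrib, Finset.sum_div]
      refine Finset.sum_congr rfl fun y _ => ?_
      show (ω.m (j + S.N) y * q S j y x - (kap S ω).m (j + S.N) y * q S j y x) / μ = _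
      ring
  obtain ⟨R, c4, hc4, h⟩ := hmin _ hν
  have hcontra : c S ω R + c4 * μ / (S.p : ℝ) ^ S.rho ≤ c S ω R := by
    apply le_c
    intro j x hj hx
    have h1 := h j x hj hx
    have h1' : c4 ≤ (S.p : ℝ) ^ j * ((ω.m j x - (kap S ω).m j x) / μ) := h1
    rw [kap_m S ω j x hj, c_congr S ω hx] at h1'
    have hpow : (S.p : ℝ) ^ j = (S.p : ℝ) ^ S.rho * (S.p : ℝ) ^ (j - S.rho) := by
      rw [← pow_add]; congr 1; omega
    rw [hpow] at h1'
    have h3 : c4 * μ / (S.p : ℝ) ^ S.rho ≤ (S.p : ℝ) ^ (j - S.rho) * ω.m j x - c S ω R := by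
      rw [div_le_iff₀ (by positivity)]
      have h4 : (S.p : ℝ) ^ S.rho * (S.p : ℝ) ^ (j - S.rho) *
          ((ω.m j x - c S ω R / (S.p : ℝ) ^ (j - S.rho)) / μ) =
          ((S.p : ℝ) ^ (j - S.rho) * ω.m j x - c S ω R) * (S.p : ℝ) ^ S.rho / μ := by
        field_simp
      rw [h4, le_div_iff₀ hμ] at h1'
      exact h1'
    linarith
  have : 0 < c4 * μ / (S.p : ℝ) ^ S.rho := by positivity
  linarith

variable {ω} in
theorem kap_eq (h2 : S.Two) (hmin : Minor S) (hst : Stat S ω) (j : ℕ) (x : ℤ) :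
    (kap S ω).m j x = ω.m j x := by
  obtain ⟨x0, hx0, hx⟩ := red S j x
  rw [← (kap S ω).congr_of_modEq j hx, ← ω.congr_of_modEq j hx]
  have h1 : ∑ y ∈ range (S.p ^ j), (kap S ω).m j (y : ℤ) = ∑ y ∈ range (S.p ^ j), ω.m j (y : ℤ) := by
    rw [(kap S ω).sum_eq_mass, ω.sum_eq_mass, mass_one S h2 hmin hst]
    exact hst.mass.symm
  exact (Finset.sum_eq_sum_iff_of_le (fun i (_ : i ∈ range (S.p ^ j)) => kap_le S ω j (i : ℤ))).1 h1 x0 hx0

end Cls

theorem classify (S : Sys) (h2 : S.Two) (hmin : Minor S) (ω : Fam S.p) (hst : Stat S ω) (j : ℕ) (x : ℤ) (hj : S.rho ≤ j) :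
    (S.p : ℝ) ^ j * ω.m j x = (S.p : ℝ) ^ S.rho * ω.m S.rho x := by
  have hp : (0 : ℝ) < (S.p : ℝ) := by exact_mod_cast S.hp.pos
  rw [← Cls.kap_eq S h2 hmin hst, ← Cls.kap_eq S h2 hmin hst, Cls.kap_m S ω j x hj, Cls.kap_m S ω _ x le_rfl]
  have hpow : (S.p : ℝ) ^ j = (S.p : ℝ) ^ S.rho * (S.p : ℝ) ^ (j - S.rho) := by
    rw [← pow_add]; congr 1; omega
  rw [hpow]
  simp only [Nat.sub_self, pow_zero, div_one]
  field_simp

end PoolAgent.Helper28.EC
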