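import Pool.Agent.Helper28.EC.Loc

/-!
# EC-CONV: the entropy of `D z + c` level by level (helper8's lemma CONV, homogeneous form)

`σ = Fam.aff D μ ν` (law of `D z + c`, `z ~ μ`, `c ~ ν` independent), `D` prime to `p`.
`conv_step`: by `H_add` the difference `σ.H (i+w) - σ.H i` is `∑_{y<p^i} En(window of σ above y)`; with `z = a + p^i e'`
`σ_{i+w}(y + p^i e) = ∑_{a<p^i} ∑_{e'<p^w} μ_{i+w}(a + p^i e') ν_{i+w}((y - D a) + p^i (e - D e'))`,
i.e. a sum over `a` of convolutions on `Z/p^w` of `q_a(f) = μ_{i+w}(a + p^i D' f)` (`D D' = 1 mod p^w`, so `q_a` is a rearrangement of the window of `μ`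
above `a`) with `ν^b(c) = ν_{i+w}(b + p^i c)`, `b = y - D a`.  `en_superadd`, then `loc` for each `a`, then exchange the sums: for fixed `a`
the class `y - D a` runs over all classes mod `p^i` (`sum_range_shift`), `∑_b mass(ν^b) = ν.mass`, `∑_b (mass - coll)(ν^b) = ν.nc i`,
`∑_a` of the deficits of the windows `= μ.df w i` (`df_eq`).
(In `loc` the collision sum is over `e + p c`, `c < p^(w-1)`: `∑_c ν_{i+w}(b + p^i (e + p c)) = ν_{i+1}(b + p^i e)` by `cons_iter`.)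
-/

set_option autoImplicit false

namespace PoolAgent.Helper28.EC

open Finset Real

/-- Reindexing of a sum of a periodic function by a unit. -/
private theorem sum_unit_h52 {M : Type*} [AddCommMonoid M] (n : ℕ) (g : ℤ → M) (hg : ∀ x z : ℤ, g (x + n * z) = g x)
    (u u' : ℤ) (hu : u * u' ≡ 1 [ZMOD (n : ℤ)]) : ∑ x ∈ range n, g (u * x) = ∑ x ∈ range n, g x := by
  rcases Nat.eq_zero_or_pos n with rfl | hn
  · simp
  have hn' : (0 : ℤ) < n := by exact_mod_cast hn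
  have key : ∀ y : ℤ, g y = g ((y % n).toNat : ℤ) := by
    intro y
    rw [Int.toNat_of_nonneg (Int.emod_nonneg _ hn'.ne')]
    conv_lhs => rw [← Int.emod_add_mul_ediv y n]
    exact hg _ _
  have inv : ∀ v v' : ℤ, v * v' ≡ 1 [ZMOD (n : ℤ)] → ∀ x ∈ range n,
      ((v' * (((v * (x : ℤ)) % n).toNat : ℤ)) % n).toNat = x := by
    intro v v' hv x hx
    rw [mem_range] at hx
    rw [Int.toNat_of_nonneg (Int.emod_nonneg _ hn'.ne')]
    have h1 : v' * ((v * (x : ℤ)) % n) ≡ v' * (v * x) [ZMOD (n : ℤ)] := (Int.mod_modEq _ _).mul_left _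
    have h2 : v' * (v * (x : ℤ)) ≡ x [ZMOD (n : ℤ)] := by
      have h3 := hv.mul_right (x : ℤ)
      rw [one_mul] at h3
      have h4 : v' * (v * (x : ℤ)) = v * v' * x := by ring
      rw [h4]
      exact h3
    have h5 : (v' * ((v * (x : ℤ)) % n)) % n = x % n := h1.trans h2
    rw [h5, Int.emod_eq_of_lt (by positivity) (by exact_mod_cast hx)]
    rfl
  refine Finset.sum_nbij' (fun x => ((u * (x : ℤ)) % n).toNat) (fun x => ((u' * (x : ℤ)) % n).toNat)
    ?_ ?_ ?_ ?_ ?_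
  · intro x _
    rw [mem_range]
    have h1 := Int.emod_lt_of_pos (u * (x : ℤ)) hn'
    have h2 := Int.emod_nonneg (u * (x : ℤ)) hn'.ne'
    omega
  · intro x _
    rw [mem_range]
    have h1 := Int.emod_lt_of_pos (u' * (x : ℤ)) hn'
    have h2 := Int.emod_nonneg (u' * (x : ℤ)) hn'.ne'
    omega
  · intro x hx
    exact inv u u' hu x hx
  · intro x hx
    exact inv u' u (by rw [mul_comm]; exact hu) x hx
  · intro x _
    exact key _

private theorem sum_affine_h52 {M : Type*} [AddCommMonoid M] (n : ℕ) (g : ℤ → M) (hg : ∀ x z : ℤ, g (x + n * z) = g x)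
    (u u' c : ℤ) (hu : u * u' ≡ 1 [ZMOD (n : ℤ)]) : ∑ x ∈ range n, g (u * x + c) = ∑ x ∈ range n, g x := by
  have h1 := sum_unit_h52 n (fun x => g (x + c)) (fun x z => by
    have : x + n * z + c = (x + c) + n * z := by ring
    simp only [this, hg]) u u' hu
  rw [h1]
  exact sum_range_shift n g hg c

private theorem exists_inv_h52 {p : ℕ} (hp : p.Prime) (D : ℤ) (hD : ¬ (p : ℤ) ∣ D) (w : ℕ) :
    ∃ D' : ℤ, D * D' ≡ 1 [ZMOD (p : ℤ) ^ w] := by
  have h1 : IsCoprime (p : ℤ) D := ((Nat.prime_iff_prime_int.1 hp).irreducible.coprime_iff_not_dvd).2 hD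
  have h2 : IsCoprime D ((p : ℤ) ^ w) := h1.symm.pow_right
  obtain ⟨a, b, hab⟩ := h2
  refine ⟨a, ?_⟩
  rw [Int.modEq_iff_dvd]
  exact ⟨b, by linarith⟩

/-- The window of the law of `D z + c` is a sum of convolutions. -/
private theorem aff_window_h52 {p : ℕ} (D D' : ℤ) (μ ν : Fam p) (i w : ℕ) (hDD : D * D' ≡ 1 [ZMOD (p : ℤ) ^ w])
    (y e : ℤ) :
    (Fam.aff D μ ν).m (i + w) (y + (p : ℤ) ^ i * e) = ∑ a ∈ range (p ^ i), ∑ c ∈ range (p ^ w),
      ν.m (i + w) ((y - D * a) + (p : ℤ) ^ i * c) * μ.m (i + w) (a + (p : ℤ) ^ i * (D' * (e - c))) := by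
  show ∑ z ∈ range (p ^ (i + w)), μ.m (i + w) (z : ℤ) * ν.m (i + w) (y + (p : ℤ) ^ i * e - D * z) = _
  rw [pow_add, sum_range_mul]
  refine Finset.sum_congr rfl fun a _ => ?_
  set g : ℤ → ℝ := fun x => μ.m (i + w) (a + (p : ℤ) ^ i * x) * ν.m (i + w) ((y - D * a) + (p : ℤ) ^ i * (e - D * x)) with hgdef
  have hg : ∀ x z : ℤ, g (x + ((p ^ w : ℕ) : ℤ) * z) = g x := by
    intro x z
    have h1 : (a : ℤ) + (p : ℤ) ^ i * (x + ((p ^ w : ℕ) : ℤ) * z) = (a + (p : ℤ) ^ i * x) + (p : ℤ) ^ (i + w) * z := by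
      push_cast; ring
    have h2 : (y - D * a) + (p : ℤ) ^ i * (e - D * (x + ((p ^ w : ℕ) : ℤ) * z)) =
        ((y - D * a) + (p : ℤ) ^ i * (e - D * x)) + (p : ℤ) ^ (i + w) * (-(D * z)) := by
      push_cast; ring
    simp only [hgdef, h1, h2, μ.per, ν.per]
  have h3 := sum_affine_h52 (p ^ w) g hg (-D') (-D) (D' * e) (by
    rw [Nat.cast_pow]
    have : -D' * -D = D * D' := by ring
    rw [this]
    exact hDD)
  have h4 : ∑ e' ∈ range (p ^ w), μ.m (i + w) (((a + p ^ i * e' : ℕ) : ℤ)) *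
      ν.m (i + w) (y + (p : ℤ) ^ i * e - D * ((a + p ^ i * e' : ℕ) : ℤ)) = ∑ x ∈ range (p ^ w), g x := by
    refine Finset.sum_congr rfl fun x _ => ?_
    simp only [hgdef]
    have k1 : ((a + p ^ i * x : ℕ) : ℤ) = (a : ℤ) + (p : ℤ) ^ i * x := by push_cast; ring
    rw [k1]
    have k2 : y + (p : ℤ) ^ i * e - D * ((a : ℤ) + (p : ℤ) ^ i * x) = y - D * a + (p : ℤ) ^ i * (e - D * x) := by ring
    rw [k2]
  rw [h4, ← h3]
  refine Finset.sum_congr rfl fun c _ => ?_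
  simp only [hgdef]
  rw [mul_comm]
  congr 1
  · refine ν.congr_of_modEq _ ?_
    refine Int.ModEq.add_left _ ?_
    rw [pow_add]
    refine Int.ModEq.mul_left' ?_
    have h5 : D * (-D' * c + D' * e) = D * D' * (e - c) := by ring
    rw [h5]
    have h6 : D * D' * (e - c) ≡ 1 * (e - c) [ZMOD (p : ℤ) ^ w] := hDD.mul_right _
    have h7 := (Int.ModEq.refl e).sub h6
    have h8 : e - 1 * (e - c) = c := by ring
    rw [h8] at h7
    exact h7
  · congr 1
    ring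

theorem conv_step {p : ℕ} (hp : p.Prime) (D : ℤ) (hD : ¬ (p : ℤ) ∣ D) (μ ν : Fam p) (i w : ℕ) (hw : 1 ≤ w) :
    ν.mass * (μ.H (i + w) - μ.H i) + 1 / (4 * (p : ℝ) ^ (3 * w)) * (ν.nc i * μ.df w i) ≤
      (Fam.aff D μ ν).H (i + w) - (Fam.aff D μ ν).H i := by
  obtain ⟨D', hDD⟩ := exists_inv_h52 hp D hD w
  set K : ℝ := 1 / (4 * (p : ℝ) ^ (3 * w)) with hK
  set q : ℕ → ℤ → ℝ := fun a x => μ.m (i + w) (a + (p : ℤ) ^ i * (D' * x)) with hq
  set nb : ℤ → ℤ → ℝ := fun b c => ν.m (i + w) (b + (p : ℤ) ^ i * c) with hnb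
  -- the loss function of the noise
  set F : ℤ → ℝ := fun b => ν.m i b - (∑ e ∈ range p, ν.m (i + 1) (b + (p : ℤ) ^ i * e) ^ 2) / ν.m i b with hF
  have hwin : ∀ (y : ℕ) (e : ℕ), (Fam.aff D μ ν).m (i + w) ((y : ℤ) + (p : ℤ) ^ i * e) =
      ∑ a ∈ range (p ^ i), ∑ c ∈ range (p ^ w), nb (y - D * a) c * q a ((e : ℤ) - c) := by
    intro y e
    exact aff_window_h52 D D' μ ν i w hDD y e
  -- facts on `q a`
  have hDn : D' * D ≡ 1 [ZMOD ((p ^ w : ℕ) : ℤ)] := by
    rw [Nat.cast_pow, mul_comm]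
    exact hDD
  have hper : ∀ (a : ℕ) (x z : ℤ), μ.m (i + w) (a + (p : ℤ) ^ i * (x + ((p ^ w : ℕ) : ℤ) * z)) = μ.m (i + w) (a + (p : ℤ) ^ i * x) := by
    intro a x z
    have h1 : (a : ℤ) + (p : ℤ) ^ i * (x + ((p ^ w : ℕ) : ℤ) * z) = (a + (p : ℤ) ^ i * x) + (p : ℤ) ^ (i + w) * z := by
      push_cast; ring
    rw [h1, μ.per]
  have hqmass : ∀ a : ℕ, ∑ x ∈ range (p ^ w), q a x = μ.m i a := by
    intro a
    have h1 := sum_unit_h52 (p ^ w) (fun x => μ.m (i + w) (a + (p : ℤ) ^ i * x)) (hper a) D' D hDn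
    simp only [hq]
    rw [h1, ← μ.cons_iter]
  have hqen : ∀ a : ℕ, En (range (p ^ w)) (fun x => q a (x : ℤ)) = (μ.res i a).H w := by
    intro a
    have h1 := sum_unit_h52 (p ^ w) (fun x => Real.negMulLog (μ.m (i + w) (a + (p : ℤ) ^ i * x)))
      (fun x z => by simp only [hper a x z]) D' D hDn
    unfold En Fam.H En
    rw [hqmass a]
    have h2 : ∑ x ∈ range (p ^ w), (μ.res i (a : ℤ)).m w (x : ℤ) = μ.m i a := (μ.cons_iter i w a).symm
    rw [h2]
    congr 1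
  -- facts on the noise
  have hbmass : ∀ b : ℤ, ∑ c ∈ range (p ^ w), nb b c = ν.m i b := fun b => (ν.cons_iter i w b).symm
  have hbcoll : ∀ b : ℤ, ∀ e : ℕ, ∑ c ∈ range (p ^ (w - 1)), nb b ((e : ℤ) + p * c) = ν.m (i + 1) (b + (p : ℤ) ^ i * e) := by
    intro b e
    rw [ν.cons_iter (i + 1) (w - 1)]
    have h1 : i + 1 + (w - 1) = i + w := by omega
    rw [h1]
    refine Finset.sum_congr rfl fun c _ => ?_
    simp only [hnb]
    congr 1
    ring
  have hFper : ∀ x z : ℤ, F (x + ((p ^ i : ℕ) : ℤ) * z) = F x := by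
    intro x z
    simp only [hF]
    have h1 : ν.m i (x + ((p ^ i : ℕ) : ℤ) * z) = ν.m i x := ν.per_nat i x z
    have h2 : ∑ e ∈ range p, ν.m (i + 1) (x + ((p ^ i : ℕ) : ℤ) * z + (p : ℤ) ^ i * e) ^ 2 =
        ∑ e ∈ range p, ν.m (i + 1) (x + (p : ℤ) ^ i * e) ^ 2 := by
      have h3 := sum_range_shift p (fun e => ν.m (i + 1) (x + (p : ℤ) ^ i * e) ^ 2) (fun y z => by
        have : x + (p : ℤ) ^ i * (y + p * z) = (x + (p : ℤ) ^ i * y) + (p : ℤ) ^ (i + 1) * z := by ring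
        simp only [this, ν.per]) z
      rw [← h3]
      refine Finset.sum_congr rfl fun e _ => ?_
      congr 2
      push_cast
      ring
    rw [h1, h2]
  have hFsum : ∀ c : ℤ, ∑ y ∈ range (p ^ i), F ((y : ℤ) + c) = ν.nc i := by
    intro c
    rw [sum_range_shift (p ^ i) F hFper c]
    rfl
  have hMsum : ∀ c : ℤ, ∑ y ∈ range (p ^ i), ν.m i ((y : ℤ) + c) = ν.mass := by
    intro c
    rw [sum_range_shift (p ^ i) (fun x => ν.m i x) (fun x z => ν.per_nat i x z) c, ν.sum_eq_mass]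
  -- the local inequality
  have hloc : ∀ y a : ℕ, ν.m i (y - D * a) * (μ.res i a).H w + K * (F (y - D * a) * (μ.m i a * (w * Real.log p) - (μ.res i a).H w)) ≤
      En (range (p ^ w)) (fun x => ∑ c ∈ range (p ^ w), nb (y - D * a) (c : ℤ) * q a ((x : ℤ) - c)) := by
    intro y a
    have h := loc hp w hw (q a) (nb (y - D * a)) (fun x => μ.nonneg _ _) (fun x => ν.nonneg _ _)
      (fun x z => by
        simp only [hq]
        have h1 : (a : ℤ) + (p : ℤ) ^ i * (D' * (x + (p : ℤ) ^ w * z)) = (a + (p : ℤ) ^ i * (D' * x)) + (p : ℤ) ^ (i + w) * (D' * z) := by ring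
        rw [h1, μ.per])
      (fun x z => by
        simp only [hnb]
        have h1 : ((y : ℤ) - D * a) + (p : ℤ) ^ i * (x + (p : ℤ) ^ w * z) = ((y - D * a) + (p : ℤ) ^ i * x) + (p : ℤ) ^ (i + w) * z := by ring
        rw [h1, ν.per])
    rw [hbmass, hqen, hqmass] at h
    simp only [hbcoll] at h
    exact h
  -- the sum over `y` and `a`
  have hH : (Fam.aff D μ ν).H (i + w) - (Fam.aff D μ ν).H i =
      ∑ y ∈ range (p ^ i), En (range (p ^ w)) (fun e => ∑ a ∈ range (p ^ i), ∑ c ∈ range (p ^ w), nb ((y : ℤ) - D * a) c * q a ((e : ℤ) - c)) := by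
    rw [H_add]
    have h1 : ∀ y : ℕ, ((Fam.aff D μ ν).res i y).H w = En (range (p ^ w)) (fun e => ∑ a ∈ range (p ^ i), ∑ c ∈ range (p ^ w), nb ((y : ℤ) - D * a) c * q a ((e : ℤ) - c)) := by
      intro y
      unfold Fam.H
      congr 1
      funext e
      exact hwin y e
    simp only [h1]
    ring
  rw [hH]
  have hdf : μ.mass * (w * Real.log p) - (μ.H (i + w) - μ.H i) = ∑ a ∈ range (p ^ i), (μ.m i a * (w * Real.log p) - (μ.res i a).H w) := by
    rw [Finset.sum_sub_distrib, ← Finset.sum_mul, μ.sum_eq_mass, H_add]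
    ring
  have hHμ : μ.H (i + w) - μ.H i = ∑ a ∈ range (p ^ i), (μ.res i a).H w := by
    rw [H_add]
    ring
  calc ν.mass * (μ.H (i + w) - μ.H i) + K * (ν.nc i * μ.df w i)
      = ∑ a ∈ range (p ^ i), ∑ y ∈ range (p ^ i), (ν.m i (y - D * a) * (μ.res i a).H w +
          K * (F (y - D * a) * (μ.m i a * (w * Real.log p) - (μ.res i a).H w))) := by
        have h1 : ∀ a : ℕ, ∑ y ∈ range (p ^ i), (ν.m i (y - D * a) * (μ.res i a).H w +
          K * (F (y - D * a) * (μ.m i a * (w * Real.log p) - (μ.res i a).H w))) =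
          ν.mass * (μ.res i a).H w + K * (ν.nc i * (μ.m i a * (w * Real.log p) - (μ.res i a).H w)) := by
          intro a
          rw [Finset.sum_add_distrib, ← Finset.sum_mul, ← Finset.mul_sum, ← Finset.sum_mul]
          have h2 := hMsum (-(D * a))
          have h3 := hFsum (-(D * a))
          simp only [← sub_eq_add_neg] at h2 h3
          rw [h2, h3]
        simp only [h1]
        rw [Finset.sum_add_distrib, ← Finset.mul_sum, ← Finset.mul_sum, ← Finset.mul_sum, ← hHμ, ← hdf]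
        rfl
    _ = ∑ y ∈ range (p ^ i), ∑ a ∈ range (p ^ i), (ν.m i (y - D * a) * (μ.res i a).H w +
          K * (F (y - D * a) * (μ.m i a * (w * Real.log p) - (μ.res i a).H w))) := Finset.sum_comm
    _ ≤ ∑ y ∈ range (p ^ i), ∑ a ∈ range (p ^ i),
          En (range (p ^ w)) (fun x => ∑ c ∈ range (p ^ w), nb ((y : ℤ) - D * a) (c : ℤ) * q a ((x : ℤ) - c)) :=
        Finset.sum_le_sum fun y _ => Finset.sum_le_sum fun a _ => hloc y a
    _ ≤ _ := by
        refine Finset.sum_le_sum fun y _ => ?_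
        exact en_superadd (range (p ^ i)) (range (p ^ w))
          (fun (a : ℕ) (e : ℕ) => ∑ c ∈ range (p ^ w), nb ((y : ℤ) - D * a) c * q a ((e : ℤ) - c))
          (fun a _ e _ => Finset.sum_nonneg fun c _ => mul_nonneg (ν.nonneg _ _) (μ.nonneg _ _))

end PoolAgent.Helper28.EC
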