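import Pool.Agent.Helper28.EC.Conv

/-!
# EC-CSUM: summation over the levels, formula (4.1)

`g j = σ.H j - ν.mass * μ.H j`, `σ = aff D μ ν`.  `g 0 = 0`, `g` is monotone (`conv_step` with `w = 1`, the second summand is nonnegative:
`nc_nonneg`, `df_nonneg`), and `g (i+w) - g i >= (4 p^(3w))^(-1) nc_i df_i` (`conv_step`).  Sum over `i < L - w + 1`: the left side telescopes to
`∑_{j=L-w+1..L} g j - ∑_{j<w} g j <= w g L`.
-/

set_option autoImplicit false

namespace PoolAgent.Helper28.EC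

open Finset Real

private theorem nc_term_nonneg {p : ℕ} (ν : Fam p) (i : ℕ) (y : ℤ) :
    0 ≤ ν.m i y - (∑ e ∈ range p, ν.m (i + 1) (y + (p : ℤ) ^ i * e) ^ 2) / ν.m i y := by
  rcases (ν.nonneg i y).eq_or_lt with h | h
  · rw [← h]; simp
  · have h1 : ∑ e ∈ range p, ν.m (i + 1) (y + (p : ℤ) ^ i * e) ^ 2 ≤ ν.m i y ^ 2 := by
      rw [ν.cons i y]
      exact Finset.sum_sq_le_sq_sum_of_nonneg (fun e _ => ν.nonneg _ _)
    have h2 : (∑ e ∈ range p, ν.m (i + 1) (y + (p : ℤ) ^ i * e) ^ 2) / ν.m i y ≤ ν.m i y := by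
      rw [div_le_iff₀ h]
      calc _ ≤ ν.m i y ^ 2 := h1
        _ = _ := by ring
    linarith

/-- `0 <= nc i`: `∑_e ν_{i+1}(y + p^i e)^2 <= (∑_e ν_{i+1}(y + p^i e))^2 = ν_i(y)^2`. -/
theorem nc_nonneg {p : ℕ} (ν : Fam p) (i : ℕ) : 0 ≤ ν.nc i := by
  unfold Fam.nc
  exact Finset.sum_nonneg fun y _ => nc_term_nonneg ν i y

theorem nc_le_mass {p : ℕ} (ν : Fam p) (i : ℕ) : ν.nc i ≤ ν.mass := by
  unfold Fam.nc
  rw [← ν.sum_eq_mass i]
  refine Finset.sum_le_sum fun y _ => ?_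
  have : 0 ≤ (∑ e ∈ range p, ν.m (i + 1) ((y : ℤ) + (p : ℤ) ^ i * e) ^ 2) / ν.m i (y : ℤ) :=
    div_nonneg (Finset.sum_nonneg fun e _ => sq_nonneg _) (ν.nonneg _ _)
  linarith

private theorem tele (g : ℕ → ℝ) (N w : ℕ) :
    ∑ i ∈ range N, (g (i + w) - g i) = ∑ j ∈ range w, (g (N + j) - g j) := by
  rw [Finset.sum_sub_distrib, Finset.sum_sub_distrib]
  have h1 := Finset.sum_range_add g N w
  have h2 := Finset.sum_range_add g w N
  rw [add_comm w N] at h2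
  have h3 : ∑ x ∈ range N, g (w + x) = ∑ x ∈ range N, g (x + w) :=
    Finset.sum_congr rfl fun x _ => by rw [add_comm]
  rw [h3] at h2
  linarith

theorem conv_sum {p : ℕ} (hp : p.Prime) (D : ℤ) (hD : ¬ (p : ℤ) ∣ D) (μ ν : Fam p) (L w : ℕ) (hw : 1 ≤ w) (hL : w ≤ L) :
    ∑ i ∈ range (L - w + 1), ν.nc i * μ.df w i ≤
      4 * w * (p : ℝ) ^ (3 * w) * ((Fam.aff D μ ν).H L - ν.mass * μ.H L) := by
  have hp0 : (0 : ℝ) < p := by exact_mod_cast hp.pos
  set g : ℕ → ℝ := fun j => (Fam.aff D μ ν).H j - ν.mass * μ.H j with hg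
  have hstep : ∀ i v : ℕ, 1 ≤ v → 1 / (4 * (p : ℝ) ^ (3 * v)) * (ν.nc i * μ.df v i) ≤ g (i + v) - g i := by
    intro i v hv
    have h := conv_step hp D hD μ ν i v hv
    simp only [hg]
    linarith
  have hmono : Monotone g := by
    refine monotone_nat_of_le_succ fun i => ?_
    have h := hstep i 1 le_rfl
    have h1 : 0 ≤ 1 / (4 * (p : ℝ) ^ (3 * 1)) * (ν.nc i * μ.df 1 i) :=
      mul_nonneg (by positivity) (mul_nonneg (nc_nonneg ν i) (df_nonneg μ 1 i))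
    linarith
  have hg0 : g 0 = 0 := by
    simp only [hg, H_zero]; ring
  have hgn : ∀ j, 0 ≤ g j := fun j => by rw [← hg0]; exact hmono (Nat.zero_le j)
  have h1 : 1 / (4 * (p : ℝ) ^ (3 * w)) * ∑ i ∈ range (L - w + 1), ν.nc i * μ.df w i ≤ w * g L := by
    rw [Finset.mul_sum]
    calc ∑ i ∈ range (L - w + 1), 1 / (4 * (p : ℝ) ^ (3 * w)) * (ν.nc i * μ.df w i)
        ≤ ∑ i ∈ range (L - w + 1), (g (i + w) - g i) :=
          Finset.sum_le_sum fun i _ => hstep i w hw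
      _ = ∑ j ∈ range w, (g (L - w + 1 + j) - g j) := tele g _ _
      _ ≤ ∑ j ∈ range w, g L := by
          refine Finset.sum_le_sum fun j hj => ?_
          have hj' := mem_range.1 hj
          have h2 : g (L - w + 1 + j) ≤ g L := hmono (by omega)
          have h3 := hgn j
          linarith
      _ = w * g L := by simp
  have hc : (0 : ℝ) < 4 * (p : ℝ) ^ (3 * w) := by positivity
  rw [one_div, inv_mul_le_iff₀ hc] at h1
  calc ∑ i ∈ range (L - w + 1), ν.nc i * μ.df w i ≤ 4 * (p : ℝ) ^ (3 * w) * (w * g L) := h1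
    _ = _ := by simp only [hg]; ring

end PoolAgent.Helper28.EC
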