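import Mathlib

/-!
# EC: entropy of affine chains over the `p`-adic integers (project PRE, MP_fd8838_nt)

Abstract setting for the proof in `/team-store/h28_PRE5_alt.md`.  A finite set `ι` of letters; the letter `w` sends the
integer `a` to `(d^(tau w) a + off w) / p^N` when this is an integer which is alive.  Being alive depends on `a mod p^rho`.

-/

set_option autoImplicit false

namespace PoolAgent.Helper28.EC

open Finset

/-- An affine letter system over the integers, expanding by `p^N`. -/
structure Sys where
  /-- the prime -/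
  p : ℕ
  /-- the expansion exponent -/
  N : ℕ
  /-- alive depends on the class modulo `p^rho` -/
  rho : ℕ
  /-- the base of the multipliers, prime to `p` -/
  d : ℤ
  /-- the letters -/
  ι : Type
  /-- the multiplier exponents -/
  tau : ι → ℕ
  /-- the offsets -/
  off : ι → ℤ
  /-- the alive integers -/
  alive : ℤ → Prop
  /-- the weights of the letters -/
  om : ι → ℝ
  [fin : Fintype ι]
  [dec : DecidableEq ι]
  hp : p.Prime
  hN : 1 ≤ N
  hd : ¬ (p : ℤ) ∣ d
  alive_per : ∀ a z : ℤ, alive (a + (p : ℤ) ^ rho * z) ↔ alive a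
  om_pos : ∀ w, 0 < om w

attribute [instance] Sys.fin Sys.dec

namespace Sys

variable (S : Sys)

/-- The child of `a` along the letter `w` (meaningful if `w` is valid at `a`). -/
def child (w : S.ι) (a : ℤ) : ℤ := (S.d ^ S.tau w * a + S.off w) / (S.p : ℤ) ^ S.N

/-- The letter `w` is valid at `a`: the child is an integer and alive. -/
def valid (w : S.ι) (a : ℤ) : Prop :=
  (S.p : ℤ) ^ S.N ∣ S.d ^ S.tau w * a + S.off w ∧ S.alive (S.child w a)

open Classical in
/-- The total weight of the valid letters at `a`. -/
noncomputable def Z1 (a : ℤ) : ℝ := ∑ w : S.ι, if S.valid w a then S.om w else 0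

open Classical in
/-- The weighted number of valid chains of length `t` at `a`. -/
noncomputable def Z : ℕ → ℤ → ℝ
  | 0, _ => 1
  | t + 1, a => ∑ w : S.ι, if S.valid w a then S.om w * Z t (S.child w a) else 0

open Classical in
/-- The transition probabilities of the (untilted) chain: the letter `w` at `a`. -/
noncomputable def pr (w : S.ι) (a : ℤ) : ℝ := if S.valid w a then S.om w / S.Z1 a else 0

/-- The transition operator of the chain on functions. -/
noncomputable def P (f : ℤ → ℝ) (a : ℤ) : ℝ := ∑ w : S.ι, S.pr w a * f (S.child w a)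

/-- The end point of the chain `u` (head first) started at `a`. -/
def cc : List S.ι → ℤ → ℤ
  | [], a => a
  | w :: u, a => cc u (S.child w a)

/-- The probability of the chain `u` started at `a`. -/
noncomputable def pc : List S.ι → ℤ → ℝ
  | [], _ => 1
  | w :: u, a => S.pr w a * pc u (S.child w a)

/-- The multiplier exponent of a chain. -/
def tt : List S.ι → ℕ
  | [] => 0
  | w :: u => S.tau w + tt u

/-- The offset of a chain: `p^(N n) * cc u a = d^(tt u) * a + oo u` for a valid chain of length `n`. -/
def oo : List S.ι → ℤ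
  | [] => 0
  | w :: u => S.d ^ tt S u * S.off w + (S.p : ℤ) ^ S.N * oo u

/-- All chains of length `t`. -/
def chains : ℕ → Finset (List S.ι)
  | 0 => {[]}
  | t + 1 => (Finset.univ ×ˢ chains t).image fun q => q.1 :: q.2

/-- Two valid letters at every alive integer. -/
def Two : Prop := ∀ a, S.alive a → ∃ w w', w ≠ w' ∧ S.valid w a ∧ S.valid w' a

/-- Different chains of the same length with the same multiplier have different offsets. -/
def Sep : Prop := ∀ u u' : List S.ι, u.length = u'.length → S.tt u = S.tt u' → S.oo u = S.oo u' → u = u'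

/-- The offsets of the chains of length `n` are less than `p^(N M n)/2`. -/
def OffBd (M : ℕ) : Prop := ∀ u : List S.ι, 2 * |S.oo u| < (S.p : ℤ) ^ (S.N * M * u.length)

end Sys

/-- A consistent family of masses of the residue classes modulo the powers of `p` (a finite measure on the `p`-adic integers):
`m j x` is the mass of `x + p^j`. -/
structure Fam (p : ℕ) where
  /-- the masses -/
  m : ℕ → ℤ → ℝ
  nonneg : ∀ j x, 0 ≤ m j x
  per : ∀ j x z, m j (x + (p : ℤ) ^ j * z) = m j x
  cons : ∀ j x, m j x = ∑ e ∈ range p, m (j + 1) (x + (p : ℤ) ^ j * e)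

/-- Mass times entropy of a finite nonnegative vector: `∑ φ(μ x) - φ(∑ μ x)`, `φ(x) = - x log x`. -/
noncomputable def En {α : Type*} (s : Finset α) (μ : α → ℝ) : ℝ :=
  ∑ x ∈ s, Real.negMulLog (μ x) - Real.negMulLog (∑ x ∈ s, μ x)

/-- The entropy of a family at the level `j` (mass times entropy of the class modulo `p^j`). -/
noncomputable def Fam.H {p : ℕ} (μ : Fam p) (j : ℕ) : ℝ := En (range (p ^ j)) fun x => μ.m j (x : ℤ)

/-- The restriction of a family to the class of `y` modulo `p^l`, rescaled. -/
def Fam.at {p : ℕ} (μ : Fam p) (l : ℕ) (y : ℤ) : ℕ → ℤ → ℝ := fun j e => μ.m (l + j) (y + (p : ℤ) ^ l * e)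

/-- Stationary families of a system: probability families carried by the alive classes and invariant under one step of the chain. -/
structure Stat (S : Sys) (μ : Fam S.p) : Prop where
  mass : μ.m 0 0 = 1
  supp : ∀ j x, S.rho ≤ j → ¬ S.alive x → μ.m j x = 0
  inv : ∀ j x, S.rho ≤ j → μ.m j x = ∑ y ∈ range (S.p ^ (j + S.N)), μ.m (j + S.N) (y : ℤ) *
    ∑ w : S.ι, if S.child w y ≡ x [ZMOD (S.p : ℤ) ^ j] then S.pr w y else 0

end PoolAgent.Helper28.EC
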