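import Pool.Agent.Helper28.EC.ConvSum

/-!
# EC-DIG: one digit entropy against the non-collision

For a law `ν` on `p` points `H(ν) <= sqrt(p (1 - ∑ ν_e^2))`: `φ(x)^2 <= x (1 - x)` on `[0,1]` (that is `y^2 <= e^y - 1` for `y = -log x >= 0`:
`e^y >= 1 + y + y^2/2 + y^3/6` and `y + y^3/6 >= 2 y^2/sqrt 6 >= y^2/2`), then Cauchy-Schwarz.  Homogeneous: for each `y < p^i` the window of one digit
above `y` has `En <= sqrt(p m_y nc_y)`, `m_y = ν_i(y)`, `nc_y = m_y - ∑_e ν_{i+1}(y + p^i e)^2/m_y`; sum over `y` (`H_add` with `w = 1`) by Cauchy-Schwarz, `∑ m_y = mass`, `∑ nc_y = nc i`.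
-/

set_option autoImplicit false

namespace PoolAgent.Helper28.EC

open Finset Real

private theorem sq_le_exp_sub_one {y : ℝ} (hy : 0 ≤ y) : y ^ 2 ≤ Real.exp y - 1 := by
  have h := Real.sum_le_exp_of_nonneg hy 4
  simp only [Finset.sum_range_succ, Finset.sum_range_zero, Nat.factorial] at h
  norm_num at h
  nlinarith [mul_nonneg hy (sq_nonneg (y - 3 / 2)), mul_nonneg hy (sq_nonneg y), sq_nonneg y]

private theorem phi_sq {x : ℝ} (h0 : 0 ≤ x) (h1 : x ≤ 1) : Real.negMulLog x ^ 2 ≤ x * (1 - x) := by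
  rcases h0.eq_or_lt with h | h
  · rw [← h]; simp
  · have hl : 0 ≤ -Real.log x := by
      have := Real.log_nonpos h0 h1
      linarith
    have h2 := sq_le_exp_sub_one hl
    rw [Real.exp_neg, Real.exp_log h] at h2
    have h3 : x ^ 2 * (-Real.log x) ^ 2 ≤ x ^ 2 * (x⁻¹ - 1) := mul_le_mul_of_nonneg_left h2 (sq_nonneg x)
    have h4 : x ^ 2 * (x⁻¹ - 1) = x * (1 - x) := by
      field_simp
    rw [h4] at h3
    calc Real.negMulLog x ^ 2 = x ^ 2 * (-Real.log x) ^ 2 := by rw [Real.negMulLog]; ring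
      _ ≤ x * (1 - x) := h3

private theorem phi_le {x : ℝ} (h0 : 0 ≤ x) (h1 : x ≤ 1) : Real.negMulLog x ≤ Real.sqrt (x * (1 - x)) :=
  Real.le_sqrt_of_sq_le (phi_sq h0 h1)

private theorem en_le_sqrt {α : Type*} (s : Finset α) (ν : α → ℝ) (h : ∀ e ∈ s, 0 ≤ ν e) :
    En s ν ≤ Real.sqrt (s.card * ((∑ e ∈ s, ν e) *
      ((∑ e ∈ s, ν e) - (∑ e ∈ s, ν e ^ 2) / (∑ e ∈ s, ν e)))) := by
  classical
  set V : ℝ := ∑ e ∈ s, ν e with hV
  have hV0 : 0 ≤ V := Finset.sum_nonneg h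
  rcases hV0.eq_or_lt with h0 | h0
  · have hz : ∀ e ∈ s, ν e = 0 := (Finset.sum_eq_zero_iff_of_nonneg h).1 (hV.symm.trans h0.symm)
    have : En s ν = 0 := by
      unfold En
      rw [← hV, ← h0, Finset.sum_congr rfl (fun e he => by rw [hz e he])]
      simp
    rw [this]
    exact Real.sqrt_nonneg _
  · have hx0 : ∀ e ∈ s, 0 ≤ ν e / V := fun e he => div_nonneg (h e he) hV0
    have hx1 : ∀ e ∈ s, ν e / V ≤ 1 := fun e he => by
      rw [div_le_one h0]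
      exact Finset.single_le_sum h he
    have h1 : En s ν = V * En s (fun e => ν e / V) := by
      rw [← en_smul]
      congr 1
      funext e
      field_simp
    have h2 : ∑ e ∈ s, ν e / V = 1 := by
      rw [← Finset.sum_div, ← hV, div_self h0.ne']
    have h3 : En s (fun e => ν e / V) ≤ ∑ e ∈ s, Real.sqrt (1 * ((ν e / V) * (1 - ν e / V))) := by
      unfold En
      rw [h2, Real.negMulLog_one, sub_zero]
      refine Finset.sum_le_sum fun e he => ?_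
      rw [one_mul]
      exact phi_le (hx0 e he) (hx1 e he)
    have h4 : ∑ e ∈ s, Real.sqrt (1 * ((ν e / V) * (1 - ν e / V))) ≤
        Real.sqrt (∑ e ∈ s, (1 : ℝ)) * Real.sqrt (∑ e ∈ s, (ν e / V) * (1 - ν e / V)) := by
      have h5 := Real.sum_sqrt_mul_sqrt_le s (f := fun _ => (1 : ℝ))
        (g := fun e => (if e ∈ s then (ν e / V) * (1 - ν e / V) else 0)) (fun _ => zero_le_one)
        (fun e => by
          by_cases he : e ∈ s
          · simp only [he, if_true]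
            exact mul_nonneg (hx0 e he) (sub_nonneg.2 (hx1 e he))
          · simp only [he, if_false]; exact le_rfl)
      have h6 : ∀ e ∈ s, (if e ∈ s then (ν e / V) * (1 - ν e / V) else 0) = (ν e / V) * (1 - ν e / V) :=
        fun e he => if_pos he
      rw [Finset.sum_congr rfl h6] at h5
      refine le_trans (le_of_eq ?_) h5
      refine Finset.sum_congr rfl fun e he => ?_
      rw [h6 e he, one_mul, Real.sqrt_one, one_mul]
    have h7 : ∑ e ∈ s, (ν e / V) * (1 - ν e / V) = 1 - (∑ e ∈ s, ν e ^ 2) / V ^ 2 := by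
      have : ∀ e ∈ s, (ν e / V) * (1 - ν e / V) = ν e / V - ν e ^ 2 / V ^ 2 := fun e _ => by
        field_simp
      rw [Finset.sum_congr rfl this, Finset.sum_sub_distrib, h2, ← Finset.sum_div]
    rw [h7, Finset.sum_const, nsmul_eq_mul, mul_one, ← Real.sqrt_mul (Nat.cast_nonneg _)] at h4
    calc En s ν = V * En s (fun e => ν e / V) := h1
      _ ≤ V * Real.sqrt (s.card * (1 - (∑ e ∈ s, ν e ^ 2) / V ^ 2)) :=
        mul_le_mul_of_nonneg_left (h3.trans h4) hV0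
      _ = Real.sqrt (V ^ 2) * Real.sqrt (s.card * (1 - (∑ e ∈ s, ν e ^ 2) / V ^ 2)) := by
        rw [Real.sqrt_sq hV0]
      _ = Real.sqrt (V ^ 2 * (s.card * (1 - (∑ e ∈ s, ν e ^ 2) / V ^ 2))) := by
        rw [Real.sqrt_mul (sq_nonneg V)]
      _ = _ := by
        congr 1
        field_simp

private theorem nc_term' {p : ℕ} (ν : Fam p) (i : ℕ) (y : ℤ) :
    0 ≤ ν.m i y - (∑ e ∈ range p, ν.m (i + 1) (y + (p : ℤ) ^ i * e) ^ 2) / ν.m i y := by
  rcases (ν.nonneg i y).eq_or_lt with h | h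
  · rw [← h]; simp
  · have h1 : ∑ e ∈ range p, ν.m (i + 1) (y + (p : ℤ) ^ i * e) ^ 2 ≤ ν.m i y ^ 2 := by
      rw [ν.cons i y]
      exact Finset.sum_sq_le_sq_sum_of_nonneg (fun e _ => ν.nonneg _ _)
    have h2 : (∑ e ∈ range p, ν.m (i + 1) (y + (p : ℤ) ^ i * e) ^ 2) / ν.m i y ≤ ν.m i y := by
      rw [div_le_iff₀ h]
      calc _ ≤ ν.m i y ^ 2 := h1
        _ = _ := by ring
    linarith

theorem dig {p : ℕ} (hp : p.Prime) (ν : Fam p) (i : ℕ) :
    ν.H (i + 1) - ν.H i ≤ Real.sqrt (p * (ν.mass * ν.nc i)) := by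
  have h1 : ν.H (i + 1) - ν.H i = ∑ y ∈ range (p ^ i), (ν.res i y).H 1 := by
    rw [H_add]; ring
  have hnc : ∀ y : ℕ, 0 ≤ ν.m i (y : ℤ) -
      (∑ e ∈ range p, ν.m (i + 1) ((y : ℤ) + (p : ℤ) ^ i * e) ^ 2) / ν.m i (y : ℤ) := fun y =>
    nc_term' ν i y
  have h2 : ∀ y ∈ range (p ^ i), (ν.res i y).H 1 ≤ Real.sqrt (p * ν.m i (y : ℤ)) *
      Real.sqrt (ν.m i (y : ℤ) -
        (∑ e ∈ range p, ν.m (i + 1) ((y : ℤ) + (p : ℤ) ^ i * e) ^ 2) / ν.m i (y : ℤ)) := by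
    intro y _
    have h3 := en_le_sqrt (range p) (fun e : ℕ => ν.m (i + 1) ((y : ℤ) + (p : ℤ) ^ i * e))
      (fun _ _ => ν.nonneg _ _)
    rw [← ν.cons i y, Finset.card_range] at h3
    have h4 : (ν.res i y).H 1 = En (range p) (fun e : ℕ => ν.m (i + 1) ((y : ℤ) + (p : ℤ) ^ i * e)) := by
      unfold Fam.H
      rw [pow_one]
      rfl
    rw [h4]
    refine h3.trans (le_of_eq ?_)
    rw [← Real.sqrt_mul (mul_nonneg (Nat.cast_nonneg _) (ν.nonneg _ _)), mul_assoc]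
  rw [h1]
  refine (Finset.sum_le_sum h2).trans ?_
  have h5 := Real.sum_sqrt_mul_sqrt_le (range (p ^ i)) (f := fun y : ℕ => (p : ℝ) * ν.m i (y : ℤ))
    (g := fun y : ℕ => ν.m i (y : ℤ) -
        (∑ e ∈ range p, ν.m (i + 1) ((y : ℤ) + (p : ℤ) ^ i * e) ^ 2) / ν.m i (y : ℤ))
    (fun y => mul_nonneg (Nat.cast_nonneg _) (ν.nonneg _ _)) hnc
  refine h5.trans (le_of_eq ?_)
  rw [← Finset.mul_sum, ν.sum_eq_mass i, ← Real.sqrt_mul (mul_nonneg (Nat.cast_nonneg _) ν.mass_nonneg),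
    mul_assoc]
  rfl

end PoolAgent.Helper28.EC
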