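import Pool.Agent.Helper28.EC.Defs

/-!
# EC: operations on families: restriction to a class, law of an integer valued variable, law of `D z + c`
-/

set_option autoImplicit false

namespace PoolAgent.Helper28.EC

open Finset

variable {p : ℕ}

/-- Splitting a sum over residues modulo `a b`. -/
theorem sum_range_mul {M : Type*} [AddCommMonoid M] (a b : ℕ) (f : ℕ → M) :
    ∑ x ∈ range (a * b), f x = ∑ y ∈ range a, ∑ e ∈ range b, f (y + a * e) := by
  rcases Nat.eq_zero_or_pos a with rfl | ha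
  · simp
  rw [← Finset.sum_product']
  refine Finset.sum_nbij' (fun x => (x % a, x / a)) (fun q => q.1 + a * q.2) ?_ ?_ ?_ ?_ ?_
  · intro x hx
    rw [mem_range] at hx
    rw [mem_product, mem_range, mem_range]
    exact ⟨Nat.mod_lt _ ha, Nat.div_lt_of_lt_mul hx⟩
  · intro q hq
    rw [mem_product, mem_range, mem_range] at hq
    rw [mem_range]
    calc q.1 + a * q.2 < a + a * q.2 := by omega
      _ = a * (q.2 + 1) := by ring
      _ ≤ a * b := Nat.mul_le_mul_left _ hq.2
  · intro x hx
    exact Nat.mod_add_div x a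
  · intro q hq
    rw [mem_product, mem_range, mem_range] at hq
    ext
    · simp [Nat.mod_eq_of_lt hq.1]
    · simp [Nat.add_mul_div_left _ _ ha, Nat.div_eq_of_lt hq.1]
  · intro x hx
    simp only
    rw [Nat.mod_add_div x a]

/-- A sum of a periodic function over a complete residue system may be translated. -/
theorem sum_range_shift {M : Type*} [AddCommMonoid M] (n : ℕ) (g : ℤ → M) (hg : ∀ x z : ℤ, g (x + n * z) = g x)
    (c : ℤ) : ∑ x ∈ range n, g ((x : ℤ) + c) = ∑ x ∈ range n, g x := by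
  rcases Nat.eq_zero_or_pos n with rfl | hn
  · simp
  have hn' : (0 : ℤ) < n := by exact_mod_cast hn
  have key : ∀ y : ℤ, g y = g ((y % n).toNat : ℤ) := by
    intro y
    rw [Int.toNat_of_nonneg (Int.emod_nonneg _ hn'.ne')]
    conv_lhs => rw [← Int.emod_add_mul_ediv y n]
    exact hg _ _
  refine Finset.sum_nbij' (fun x => (((x : ℤ) + c) % n).toNat) (fun x => (((x : ℤ) - c) % n).toNat)
    ?_ ?_ ?_ ?_ ?_
  · intro x _
    rw [mem_range]
    have h1 := Int.emod_lt_of_pos ((x : ℤ) + c) hn'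
    have h2 := Int.emod_nonneg ((x : ℤ) + c) hn'.ne'
    omega
  · intro x _
    rw [mem_range]
    have h1 := Int.emod_lt_of_pos ((x : ℤ) - c) hn'
    have h2 := Int.emod_nonneg ((x : ℤ) - c) hn'.ne'
    omega
  · intro x hx
    rw [mem_range] at hx
    rw [Int.toNat_of_nonneg (Int.emod_nonneg _ hn'.ne'), Int.emod_sub_emod, add_sub_cancel_right,
      Int.emod_eq_of_lt (by positivity) (by exact_mod_cast hx)]
    rfl
  · intro x hx
    rw [mem_range] at hx
    rw [Int.toNat_of_nonneg (Int.emod_nonneg _ hn'.ne'), Int.emod_add_emod, sub_add_cancel,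
      Int.emod_eq_of_lt (by positivity) (by exact_mod_cast hx)]
    rfl
  · intro x _
    exact key _

namespace Fam

/-- Total mass. -/
def mass (μ : Fam p) : ℝ := μ.m 0 0

theorem m_zero (μ : Fam p) (x : ℤ) : μ.m 0 x = μ.mass := by
  have h := μ.per 0 0 x
  rw [pow_zero, one_mul, zero_add] at h
  exact h

theorem per_nat (μ : Fam p) (j : ℕ) (x z : ℤ) : μ.m j (x + ((p ^ j : ℕ) : ℤ) * z) = μ.m j x := by
  rw [Nat.cast_pow]; exact μ.per j x z

theorem congr_of_modEq (μ : Fam p) (j : ℕ) {x y : ℤ} (h : x ≡ y [ZMOD (p : ℤ) ^ j]) : μ.m j x = μ.m j y := by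
  obtain ⟨z, hz⟩ := h.dvd
  have : y = x + (p : ℤ) ^ j * z := by linarith
  rw [this, μ.per]

/-- Consistency over several levels. -/
theorem cons_iter (μ : Fam p) (j w : ℕ) (x : ℤ) :
    μ.m j x = ∑ e ∈ range (p ^ w), μ.m (j + w) (x + (p : ℤ) ^ j * e) := by
  induction w generalizing x with
  | zero => simp
  | succ w ih =>
    rw [ih, pow_succ, sum_range_mul]
    refine Finset.sum_congr rfl fun y _ => ?_
    rw [μ.cons, add_assoc]
    refine Finset.sum_congr rfl fun e _ => ?_
    congr 1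
    push_cast
    ring

theorem sum_eq_mass (μ : Fam p) (j : ℕ) : ∑ x ∈ range (p ^ j), μ.m j (x : ℤ) = μ.mass := by
  have h := μ.cons_iter 0 j 0
  rw [m_zero] at h
  rw [h]
  refine Finset.sum_congr rfl fun x _ => ?_
  simp

theorem mass_nonneg (μ : Fam p) : 0 ≤ μ.mass := μ.nonneg 0 0

theorem m_le_mass (μ : Fam p) (hp : 0 < p) (j : ℕ) (x : ℤ) : μ.m j x ≤ μ.mass := by
  have hn : (0 : ℤ) < ((p ^ j : ℕ) : ℤ) := by exact_mod_cast pow_pos hp j
  have h2 := Int.emod_nonneg x hn.ne'
  have h1 := Int.emod_lt_of_pos x hn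
  have hx : μ.m j x = μ.m j (((x % ((p ^ j : ℕ) : ℤ)).toNat : ℕ) : ℤ) := by
    rw [Int.toNat_of_nonneg h2]
    conv_lhs => rw [← Int.emod_add_mul_ediv x ((p ^ j : ℕ) : ℤ)]
    exact μ.per_nat j _ _
  rw [hx, ← μ.sum_eq_mass j]
  refine Finset.single_le_sum (f := fun x : ℕ => μ.m j (x : ℤ)) (fun y _ => μ.nonneg j _) ?_
  rw [mem_range]
  omega

/-- The restriction of a family to the class of `y` modulo `p^l`, rescaled: the digits from `l` on. -/
def res (μ : Fam p) (l : ℕ) (y : ℤ) : Fam p where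
  m j e := μ.m (l + j) (y + (p : ℤ) ^ l * e)
  nonneg j e := μ.nonneg _ _
  per j x z := by
    have : y + (p : ℤ) ^ l * (x + (p : ℤ) ^ j * z) = (y + (p : ℤ) ^ l * x) + (p : ℤ) ^ (l + j) * z := by ring
    rw [this, μ.per]
  cons j x := by
    rw [μ.cons]
    refine Finset.sum_congr rfl fun e _ => ?_
    rw [add_assoc l j 1]
    congr 1
    ring

theorem res_mass (μ : Fam p) (l : ℕ) (y : ℤ) : (μ.res l y).mass = μ.m l y := by
  show μ.m (l + 0) (y + (p : ℤ) ^ l * 0) = _
  simp

/-- The law of an integer valued variable `X` with weights `P k`, `k ∈ s`. -/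
def law (hp : 0 < p) {κ : Type*} (s : Finset κ) (P : κ → ℝ) (hP : ∀ k, 0 ≤ P k) (X : κ → ℤ) : Fam p where
  m j x := ∑ k ∈ s, if X k ≡ x [ZMOD (p : ℤ) ^ j] then P k else 0
  nonneg j x := Finset.sum_nonneg fun k _ => by split_ifs <;> simp [hP]
  per j x z := by
    refine Finset.sum_congr rfl fun k _ => ?_
    have : (X k ≡ x + (p : ℤ) ^ j * z [ZMOD (p : ℤ) ^ j]) ↔ X k ≡ x [ZMOD (p : ℤ) ^ j] := by
      have h : x + (p : ℤ) ^ j * z ≡ x [ZMOD (p : ℤ) ^ j] := by
        rw [Int.modEq_iff_dvd]; exact ⟨-z, by ring⟩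
      exact ⟨fun h' => h'.trans h, fun h' => h'.trans h.symm⟩
    simp only [this]
  cons j x := by
    rw [Finset.sum_comm]
    refine Finset.sum_congr rfl fun k _ => ?_
    have hp' : (0 : ℤ) < p := by exact_mod_cast hp
    have hpj : (0 : ℤ) < (p : ℤ) ^ j := pow_pos hp' j
    by_cases h : X k ≡ x [ZMOD (p : ℤ) ^ j]
    · rw [if_pos h]
      obtain ⟨z, hz⟩ := h.symm.dvd
      -- X k = x + p^j z
      have hz' : X k = x + (p : ℤ) ^ j * z := by linarith
      rw [Finset.sum_eq_single (z % p).toNat]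
      · rw [if_pos]
        rw [Int.toNat_of_nonneg (Int.emod_nonneg _ hp'.ne'), hz', Int.modEq_iff_dvd]
        refine ⟨-(z / p), ?_⟩
        have := Int.emod_add_mul_ediv z p
        have h2 : z % p = z - p * (z / p) := by linarith
        rw [h2]; ring
      · intro e he hne
        rw [if_neg]
        intro h'
        rw [hz', Int.modEq_iff_dvd] at h'
        obtain ⟨c, hc⟩ := h'
        apply hne
        have h3 : (e : ℤ) - z = p * c := by
          have h4 : (p : ℤ) ^ j * ((e : ℤ) - z) = (p : ℤ) ^ j * (p * c) := by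
            have : (p : ℤ) ^ (j + 1) * c = (p : ℤ) ^ j * (p * c) := by ring
            linarith
          exact mul_left_cancel₀ hpj.ne' h4
        have h5 : z % p = e := by
          have h6 : z = e + p * (-c) := by linarith
          rw [h6, Int.add_mul_emod_self_left, Int.emod_eq_of_lt (by positivity)]
          exact_mod_cast mem_range.1 he
        rw [h5]; simp
      · intro hne
        exfalso
        apply hne
        rw [mem_range]
        have h1 := Int.emod_lt_of_pos z hp'
        have h2 := Int.emod_nonneg z hp'.ne'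
        omega
    · rw [if_neg h]
      symm
      refine Finset.sum_eq_zero fun e _ => ?_
      rw [if_neg]
      intro h'
      apply h
      have h1 : X k ≡ x + (p : ℤ) ^ j * e [ZMOD (p : ℤ) ^ j] :=
        h'.of_dvd (pow_dvd_pow _ (Nat.le_succ j))
      refine h1.trans ?_
      rw [Int.modEq_iff_dvd]; exact ⟨-e, by ring⟩

/-- The law of `D z + c` for independent `z` (with law `μ`) and `c` (with law `ν`). -/
def aff (D : ℤ) (μ ν : Fam p) : Fam p where
  m j y := ∑ z ∈ range (p ^ j), μ.m j (z : ℤ) * ν.m j (y - D * z)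
  nonneg j y := Finset.sum_nonneg fun z _ => mul_nonneg (μ.nonneg _ _) (ν.nonneg _ _)
  per j x z := by
    refine Finset.sum_congr rfl fun a _ => ?_
    have : x + (p : ℤ) ^ j * z - D * a = (x - D * a) + (p : ℤ) ^ j * z := by ring
    rw [this, ν.per]
  cons j x := by
    rw [Finset.sum_comm]
    have h1 : ∀ z : ℕ, ∑ e ∈ range p, μ.m (j + 1) (z : ℤ) * ν.m (j + 1) (x + (p : ℤ) ^ j * e - D * z) =
        μ.m (j + 1) (z : ℤ) * ν.m j (x - D * z) := by
      intro z
      rw [← Finset.mul_sum, ν.cons]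
      congr 1
      refine Finset.sum_congr rfl fun e _ => ?_
      congr 1
      ring
    simp only [h1]
    rw [pow_succ, sum_range_mul]
    refine Finset.sum_congr rfl fun a _ => ?_
    rw [μ.cons, Finset.sum_mul]
    refine Finset.sum_congr rfl fun e _ => ?_
    push_cast
    congr 1
    have : x - D * ((a : ℤ) + (p : ℤ) ^ j * e) = (x - D * a) + (p : ℤ) ^ j * (-(D * e)) := by ring
    rw [this, ν.per]

theorem aff_mass (D : ℤ) (μ ν : Fam p) : (aff D μ ν).mass = μ.mass * ν.mass := by
  show ∑ z ∈ range (p ^ 0), μ.m 0 (z : ℤ) * ν.m 0 (0 - D * z) = _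
  simp [m_zero]

/-- Mean non-collision of the digit `i` given the lower digits (times the mass). -/
noncomputable def nc (ν : Fam p) (i : ℕ) : ℝ :=
  ∑ y ∈ range (p ^ i), (ν.m i (y : ℤ) - (∑ e ∈ range p, ν.m (i + 1) ((y : ℤ) + (p : ℤ) ^ i * e) ^ 2) / ν.m i (y : ℤ))

/-- Entropy deficit of the window `[i, i + w)` given the lower digits (times the mass). -/
noncomputable def df (μ : Fam p) (w i : ℕ) : ℝ := μ.mass * (w * Real.log p) - (μ.H (i + w) - μ.H i)

end Fam

end PoolAgent.Helper28.EC
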