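import Pool.Agent.Helper28.EC.GainTotal

/-!
# EC-FEK: the loss is `o(t)`

`a k = ω.H (N k + rho)` is subadditive: from `gain_total` with `w = 1` (left side `>= 0` by `nc_nonneg`, `df_nonneg`) or directly from `gain` and `conv_step`:
`0 <= ω.H (L+rho) + ω.H (Nt+rho) - ω.H (L+Nt+rho)` with `L = N s` (for `L = 0` trivial: `ω.H rho >= 0`).  `a k >= 0`, so by Fekete (`Subadditive.tendsto_lim`,
bounded below) `a k / k` converges to some `D`, hence `(a (M t) + a t - a ((M+1) t))/t -> M D + D - (M+1) D = 0`.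
-/

set_option autoImplicit false

namespace PoolAgent.Helper28.EC

open Finset Real Filter Topology

private lemma fek_tt (S : Sys) : ∃ K : ℕ, ∀ u : List S.ι, S.tt u ≤ K * u.length := by
  classical
  refine ⟨∑ w : S.ι, S.tau w, fun u => ?_⟩
  induction u with
  | nil => simp [Sys.tt]
  | cons w u ih =>
    rw [Sys.tt, List.length_cons, mul_add, mul_one, add_comm]
    refine add_le_add ih ?_
    exact Finset.single_le_sum (f := S.tau) (fun i _ => Nat.zero_le _) (Finset.mem_univ w)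

private lemma fek_sub (S : Sys) (h2 : S.Two) (ω : Fam S.p) (hst : Stat S ω) :
    Subadditive (fun k => ω.H (S.N * k + S.rho)) := by
  obtain ⟨K, hK⟩ := fek_tt S
  intro s t
  show ω.H (S.N * (s + t) + S.rho) ≤ ω.H (S.N * s + S.rho) + ω.H (S.N * t + S.rho)
  rcases Nat.eq_zero_or_pos s with rfl | hs
  · rw [zero_add]
    have := H_nonneg ω (S.N * 0 + S.rho)
    linarith
  · have hL : 1 ≤ S.N * s := Nat.mul_pos S.hN hs
    have h := gain_total S h2 ω hst K hK t (S.N * s) 1 le_rfl hL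
    have h0 : 0 ≤ ∑ i ∈ range (S.N * s - 1 + 1), ∑ B ∈ range (S.p ^ (S.N * t + S.rho)),
        ∑ T ∈ range (K * t + 1), ∑ R ∈ range (S.p ^ S.rho),
          (nuF S t B T R).nc i * (ω.res (S.N * t + S.rho) B).df 1 i :=
      Finset.sum_nonneg fun i _ => Finset.sum_nonneg fun B _ => Finset.sum_nonneg fun T _ =>
        Finset.sum_nonneg fun R _ => mul_nonneg (nc_nonneg _ _) (df_nonneg _ _ _)
    have h1 := h0.trans h
    have hp : (0 : ℝ) < 4 * ((1 : ℕ) : ℝ) * (S.p : ℝ) ^ (3 * 1) := by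
      have : (0 : ℝ) < S.p := by exact_mod_cast S.hp.pos
      positivity
    have h3 := nonneg_of_mul_nonneg_right h1 hp
    have e : S.N * (s + t) + S.rho = S.N * s + (S.N * t + S.rho) := by ring
    rw [e]
    linarith

theorem loss (S : Sys) (h2 : S.Two) (ω : Fam S.p) (hst : Stat S ω) (M : ℕ) (hM : 1 ≤ M) :
    Tendsto (fun t : ℕ => (ω.H (S.N * M * t + S.rho) + ω.H (S.N * t + S.rho) -
      ω.H (S.N * M * t + (S.N * t + S.rho))) / t) atTop (𝓝 0) := by
  have hsub := fek_sub S h2 ω hst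
  set a : ℕ → ℝ := fun k => ω.H (S.N * k + S.rho) with ha
  have hbdd : BddBelow (Set.range fun n => a n / n) := by
    refine ⟨0, ?_⟩
    rintro _ ⟨n, rfl⟩
    exact div_nonneg (H_nonneg ω _) (Nat.cast_nonneg n)
  have hlim := hsub.tendsto_lim hbdd
  have h1 : Tendsto (fun t : ℕ => a (M * t) / ((M * t : ℕ) : ℝ)) atTop (𝓝 hsub.lim) :=
    hlim.comp (tendsto_id.const_mul_atTop' hM)
  have h2' : Tendsto (fun t : ℕ => a ((M + 1) * t) / (((M + 1) * t : ℕ) : ℝ)) atTop (𝓝 hsub.lim) :=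
    hlim.comp (tendsto_id.const_mul_atTop' (Nat.succ_pos M))
  have h3 := ((h1.const_mul (M : ℝ)).add hlim).sub (h2'.const_mul ((M : ℝ) + 1))
  have e0 : (M : ℝ) * hsub.lim + hsub.lim - ((M : ℝ) + 1) * hsub.lim = 0 := by ring
  rw [e0] at h3
  refine h3.congr' ?_
  filter_upwards [eventually_ge_atTop 1] with t ht
  have ht' : (t : ℝ) ≠ 0 := by
    have : t ≠ 0 := by omega
    exact_mod_cast this
  have hM' : (M : ℝ) ≠ 0 := by
    have : M ≠ 0 := by omega
    exact_mod_cast this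
  have hM'' : (M : ℝ) + 1 ≠ 0 := by positivity
  have k1 : ω.H (S.N * M * t + S.rho) = a (M * t) := by
    rw [ha]; simp only; rw [mul_assoc]
  have k2 : ω.H (S.N * M * t + (S.N * t + S.rho)) = a ((M + 1) * t) := by
    rw [ha]; simp only; congr 1; ring
  have k3 : ω.H (S.N * t + S.rho) = a t := rfl
  rw [k1, k2, k3]
  push_cast
  field_simp

end PoolAgent.Helper28.EC
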