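import Pool.Agent.Helper28.EC.Chat
import Pool.Agent.Helper28.EC.Iter
import Pool.Agent.Helper28.EC.ConvSum

/-!
# EC-GAIN: no entropy is gained by a stationary family

`gain`: by `stat_iter` at the level `L + rho` and `y = B + p^(Nt+rho) z` (`sum_range_mul`; `pc u y = pc u B`, `cc u y = cc u B + p^rho d^(tt u) z`)
`ω.m (L+rho) (R + p^rho v) = ∑_{B<p^(Nt+rho)} ∑_{T<K t+1} (aff (d^T) (ω.res (Nt+rho) B) (nuF t B T R)).m L v` for `R < p^rho`, so
`(ω.res rho R).H L >= ∑_B ∑_T (...).H L` (`en_superadd`) and `ω.H (L+rho) = ω.H rho + ∑_R (ω.res rho R).H L` by `H_add` (`rho + L`), `ω.H rho >= 0`.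
-/

set_option autoImplicit false

namespace PoolAgent.Helper28.EC

open Finset Real

private lemma modEq_split (q P c R v w : ℤ) (hq : 0 < q) (hR0 : 0 ≤ R) (hR : R < q) :
    (c + q * w ≡ R + q * v [ZMOD (P * q)]) ↔ (c % q = R ∧ c / q ≡ v - w [ZMOD P]) := by
  have hc := Int.emod_add_mul_ediv c q
  constructor
  · intro h
    have h1 : c + q * w ≡ R + q * v [ZMOD q] := h.of_dvd (Dvd.intro_left P rfl)
    have h2 : c % q = R := by
      have h3 : (c + q * w) % q = (R + q * v) % q := h1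
      rw [Int.add_mul_emod_self_left, Int.add_mul_emod_self_left, Int.emod_eq_of_lt hR0 hR] at h3
      exact h3
    refine ⟨h2, ?_⟩
    obtain ⟨m, hm⟩ := h.dvd
    rw [Int.modEq_iff_dvd]
    refine ⟨m, ?_⟩
    have h4 : q * (v - w - c / q) = q * (P * m) := by
      rw [h2] at hc
      linear_combination hm - hc
    exact mul_left_cancel₀ hq.ne' h4
  · rintro ⟨h2, h3⟩
    rw [Int.modEq_iff_dvd] at h3 ⊢
    obtain ⟨m, hm⟩ := h3
    refine ⟨m, ?_⟩
    rw [h2] at hc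
    linear_combination q * hm + hc

private lemma gain_key (S : Sys) (ω : Fam S.p) (hst : Stat S ω) (K : ℕ)
    (hK : ∀ u : List S.ι, S.tt u ≤ K * u.length) (t L R : ℕ) (hR : R < S.p ^ S.rho) (v : ℤ) :
    ω.m (L + S.rho) (R + (S.p : ℤ) ^ S.rho * v) =
      ∑ B ∈ range (S.p ^ (S.N * t + S.rho)), ∑ T ∈ range (K * t + 1),
        (Fam.aff (S.d ^ T) (ω.res (S.N * t + S.rho) B) (nuF S t B T R)).m L v := by
  classical
  have hp0 : (0 : ℤ) < S.p := by exact_mod_cast S.hp.pos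
  have hq : (0 : ℤ) < (S.p : ℤ) ^ S.rho := pow_pos hp0 _
  rw [stat_iter S ω hst t (L + S.rho) _ (Nat.le_add_left _ _)]
  have e : L + S.rho + S.N * t = (S.N * t + S.rho) + L := by ring
  rw [e, pow_add, sum_range_mul]
  refine Finset.sum_congr rfl fun B _ => ?_
  have hrhs : ∀ T : ℕ, (Fam.aff (S.d ^ T) (ω.res (S.N * t + S.rho) B) (nuF S t B T R)).m L v =
      ∑ z ∈ range (S.p ^ L), (ω.res (S.N * t + S.rho) B).m L (z : ℤ) *
        (nuF S t B T R).m L (v - S.d ^ T * z) := fun T => rfl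
  simp only [hrhs]
  rw [Finset.sum_comm]
  refine Finset.sum_congr rfl fun z _ => ?_
  rw [← Finset.mul_sum]
  have hcast : ((B + S.p ^ (S.N * t + S.rho) * z : ℕ) : ℤ) =
      (B : ℤ) + (S.p : ℤ) ^ (S.N * t + S.rho) * z := by push_cast; ring
  rw [hcast]
  have h0 : ω.m (S.N * t + S.rho + L) ((B : ℤ) + (S.p : ℤ) ^ (S.N * t + S.rho) * z) =
      (ω.res (S.N * t + S.rho) B).m L (z : ℤ) := rfl
  rw [h0]
  congr 1
  have hnu : ∀ T : ℕ, (nuF S t B T R).m L (v - S.d ^ T * z) =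
      ∑ u ∈ S.chains t, if (S.tt u = T ∧ S.cc u B % (S.p : ℤ) ^ S.rho = R) then
        (if S.cc u B / (S.p : ℤ) ^ S.rho ≡ v - S.d ^ T * z [ZMOD (S.p : ℤ) ^ L] then S.pc u B else 0)
        else 0 := by
    intro T
    have h1 : (nuF S t B T R).m L (v - S.d ^ T * z) =
      ∑ u ∈ (S.chains t).filter (fun u => S.tt u = T ∧ S.cc u B % (S.p : ℤ) ^ S.rho = R),
        (if S.cc u B / (S.p : ℤ) ^ S.rho ≡ v - S.d ^ T * z [ZMOD (S.p : ℤ) ^ L] then S.pc u B else 0) := by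
      unfold nuF Fam.law
      dsimp only
    rw [h1, Finset.sum_filter]
  simp only [hnu]
  rw [Finset.sum_comm]
  refine Finset.sum_congr rfl fun u hu => ?_
  have hlen : u.length = t := (S.mem_chains t u).1 hu
  have hpc : S.pc u ((B : ℤ) + (S.p : ℤ) ^ (S.N * t + S.rho) * z) = S.pc u B := by
    have := S.pc_per u B z
    rwa [hlen] at this
  rw [Finset.sum_eq_single (S.tt u)]
  · rw [hpc]
    by_cases h : S.pc u B = 0
    · simp [h]
    · have hcc : S.cc u ((B : ℤ) + (S.p : ℤ) ^ (S.N * t + S.rho) * z) =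
          S.cc u B + (S.p : ℤ) ^ S.rho * (S.d ^ S.tt u * z) := by
        have := S.cc_shift u B z S.rho h
        rwa [hlen] at this
      rw [hcc]
      have hpow : (S.p : ℤ) ^ (L + S.rho) = (S.p : ℤ) ^ L * (S.p : ℤ) ^ S.rho := pow_add _ _ _
      rw [hpow]
      have hiff := modEq_split ((S.p : ℤ) ^ S.rho) ((S.p : ℤ) ^ L) (S.cc u B) R v (S.d ^ S.tt u * z) hq
        (by positivity) (by exact_mod_cast hR)
      by_cases h2 : S.cc u B + (S.p : ℤ) ^ S.rho * (S.d ^ S.tt u * z) ≡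
          R + (S.p : ℤ) ^ S.rho * v [ZMOD (S.p : ℤ) ^ L * (S.p : ℤ) ^ S.rho]
      · have h3 := hiff.1 h2
        rw [if_pos h2, if_pos ⟨rfl, h3.1⟩, if_pos h3.2]
      · rw [if_neg h2]
        by_cases h4 : S.cc u B % (S.p : ℤ) ^ S.rho = R
        · rw [if_pos ⟨rfl, h4⟩, if_neg]
          intro h5
          exact h2 (hiff.2 ⟨h4, h5⟩)
        · rw [if_neg]
          exact fun h5 => h4 h5.2
  · intro T _ hT
    rw [if_neg]
    exact fun h5 => hT h5.1.symm
  · intro hT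
    exfalso
    apply hT
    rw [mem_range]
    have := hK u
    rw [hlen] at this
    omega

theorem gain (S : Sys) (ω : Fam S.p) (hst : Stat S ω) (K : ℕ) (hK : ∀ u : List S.ι, S.tt u ≤ K * u.length) (t L : ℕ) :
    ∑ B ∈ range (S.p ^ (S.N * t + S.rho)), ∑ T ∈ range (K * t + 1), ∑ R ∈ range (S.p ^ S.rho),
      (Fam.aff (S.d ^ T) (ω.res (S.N * t + S.rho) B) (nuF S t B T R)).H L ≤ ω.H (L + S.rho) := by
  have hadd : ω.H (L + S.rho) = ω.H S.rho + ∑ R ∈ range (S.p ^ S.rho), (ω.res S.rho R).H L := by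
    rw [add_comm L, H_add]
  have h0 : 0 ≤ ω.H S.rho := H_nonneg ω _
  have hswap : ∑ B ∈ range (S.p ^ (S.N * t + S.rho)), ∑ T ∈ range (K * t + 1), ∑ R ∈ range (S.p ^ S.rho),
      (Fam.aff (S.d ^ T) (ω.res (S.N * t + S.rho) B) (nuF S t B T R)).H L =
      ∑ R ∈ range (S.p ^ S.rho), ∑ q ∈ range (S.p ^ (S.N * t + S.rho)) ×ˢ range (K * t + 1),
      (Fam.aff (S.d ^ q.2) (ω.res (S.N * t + S.rho) q.1) (nuF S t q.1 q.2 R)).H L := by
    rw [← Finset.sum_product' (range (S.p ^ (S.N * t + S.rho))) (range (K * t + 1))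
      (fun B T => ∑ R ∈ range (S.p ^ S.rho),
        (Fam.aff (S.d ^ T) (ω.res (S.N * t + S.rho) B) (nuF S t B T R)).H L), Finset.sum_comm]
  rw [hswap, hadd]
  have h1 : ∀ R ∈ range (S.p ^ S.rho),
      ∑ q ∈ range (S.p ^ (S.N * t + S.rho)) ×ˢ range (K * t + 1),
      (Fam.aff (S.d ^ q.2) (ω.res (S.N * t + S.rho) q.1) (nuF S t q.1 q.2 R)).H L ≤
      (ω.res S.rho R).H L := by
    intro R hR
    rw [mem_range] at hR
    have h2 := en_superadd (range (S.p ^ (S.N * t + S.rho)) ×ˢ range (K * t + 1)) (range (S.p ^ L))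
      (fun q x => (Fam.aff (S.d ^ q.2) (ω.res (S.N * t + S.rho) q.1) (nuF S t q.1 q.2 R)).m L (x : ℤ))
      (fun q _ x _ => Fam.nonneg _ _ _)
    refine h2.trans (le_of_eq ?_)
    unfold Fam.H
    congr 1
    funext x
    have h3 := gain_key S ω hst K hK t L R hR (x : ℤ)
    rw [Finset.sum_product, ← h3, add_comm L]
    rfl
  have h2 := Finset.sum_le_sum h1
  linarith

end PoolAgent.Helper28.EC
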