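import Pool.Agent.Helper28.EC.Gain

/-!
# EC-GT: no entropy gain, with the convolution inequality
-/

set_option autoImplicit false

namespace PoolAgent.Helper28.EC

open Finset Real

/-- Together with `conv_sum` and the chain rule `ω.H (Nt + rho + L) = ω.H (Nt + rho) + ∑_B (ω.res (Nt+rho) B).H L` and `∑_T ∑_R mass = 1` (`nuF_mass`; for `B`
not alive `ω.m (Nt+rho) B = 0` and `(ω.res ..).H L = 0`). -/
theorem gain_total (S : Sys) (h2 : S.Two) (ω : Fam S.p) (hst : Stat S ω) (K : ℕ) (hK : ∀ u : List S.ι, S.tt u ≤ K * u.length)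
    (t L w : ℕ) (hw : 1 ≤ w) (hL : w ≤ L) :
    ∑ i ∈ range (L - w + 1), ∑ B ∈ range (S.p ^ (S.N * t + S.rho)), ∑ T ∈ range (K * t + 1), ∑ R ∈ range (S.p ^ S.rho),
      (nuF S t B T R).nc i * (ω.res (S.N * t + S.rho) B).df w i ≤
      4 * w * (S.p : ℝ) ^ (3 * w) * (ω.H (L + S.rho) + ω.H (S.N * t + S.rho) - ω.H (L + (S.N * t + S.rho))) := by
  have hC : (0 : ℝ) ≤ 4 * w * (S.p : ℝ) ^ (3 * w) := by positivity
  set C : ℝ := 4 * w * (S.p : ℝ) ^ (3 * w) with hCdef
  -- the chain rule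
  have hch : ω.H (L + (S.N * t + S.rho)) = ω.H (S.N * t + S.rho) +
      ∑ B ∈ range (S.p ^ (S.N * t + S.rho)), (ω.res (S.N * t + S.rho) B).H L := by
    rw [add_comm L, H_add]
  -- the total mass
  have hmass : ∀ B : ℕ, ∑ T ∈ range (K * t + 1), ∑ R ∈ range (S.p ^ S.rho),
      (nuF S t B T R).mass * (ω.res (S.N * t + S.rho) B).H L = (ω.res (S.N * t + S.rho) B).H L := by
    intro B
    by_cases hB : S.alive (B : ℤ)
    · simp only [← Finset.sum_mul]
      rw [nuF_mass S h2 K hK t B hB, one_mul]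
    · have h0 : (ω.res (S.N * t + S.rho) B).H L = 0 := by
        apply le_antisymm _ (H_nonneg _ _)
        refine (H_le _ L).trans (le_of_eq ?_)
        rw [Fam.res_mass, hst.supp _ _ (Nat.le_add_left _ _) hB, zero_mul]
      rw [h0]
      simp
  -- the convolution inequality
  have hstep : ∀ B : ℕ, ∀ T : ℕ, ∀ R : ℕ,
      ∑ i ∈ range (L - w + 1), (nuF S t B T R).nc i * (ω.res (S.N * t + S.rho) B).df w i ≤
      C * ((Fam.aff (S.d ^ T) (ω.res (S.N * t + S.rho) B) (nuF S t B T R)).H L -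
        (nuF S t B T R).mass * (ω.res (S.N * t + S.rho) B).H L) := by
    intro B T R
    refine conv_sum S.hp (S.d ^ T) ?_ _ _ L w hw hL
    intro h
    exact S.hd ((Nat.prime_iff_prime_int.1 S.hp).dvd_of_dvd_pow h)
  have hswap : ∑ i ∈ range (L - w + 1), ∑ B ∈ range (S.p ^ (S.N * t + S.rho)), ∑ T ∈ range (K * t + 1),
      ∑ R ∈ range (S.p ^ S.rho), (nuF S t B T R).nc i * (ω.res (S.N * t + S.rho) B).df w i =
      ∑ B ∈ range (S.p ^ (S.N * t + S.rho)), ∑ T ∈ range (K * t + 1), ∑ R ∈ range (S.p ^ S.rho),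
        ∑ i ∈ range (L - w + 1), (nuF S t B T R).nc i * (ω.res (S.N * t + S.rho) B).df w i := by
    rw [Finset.sum_comm]
    refine Finset.sum_congr rfl fun B _ => ?_
    rw [Finset.sum_comm]
    refine Finset.sum_congr rfl fun T _ => ?_
    rw [Finset.sum_comm]
  rw [hswap]
  calc ∑ B ∈ range (S.p ^ (S.N * t + S.rho)), ∑ T ∈ range (K * t + 1), ∑ R ∈ range (S.p ^ S.rho),
        ∑ i ∈ range (L - w + 1), (nuF S t B T R).nc i * (ω.res (S.N * t + S.rho) B).df w i
      ≤ ∑ B ∈ range (S.p ^ (S.N * t + S.rho)), ∑ T ∈ range (K * t + 1), ∑ R ∈ range (S.p ^ S.rho),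
        C * ((Fam.aff (S.d ^ T) (ω.res (S.N * t + S.rho) B) (nuF S t B T R)).H L -
          (nuF S t B T R).mass * (ω.res (S.N * t + S.rho) B).H L) :=
        Finset.sum_le_sum fun B _ => Finset.sum_le_sum fun T _ => Finset.sum_le_sum fun R _ => hstep B T R
    _ = C * (∑ B ∈ range (S.p ^ (S.N * t + S.rho)), ∑ T ∈ range (K * t + 1), ∑ R ∈ range (S.p ^ S.rho),
          (Fam.aff (S.d ^ T) (ω.res (S.N * t + S.rho) B) (nuF S t B T R)).H L -
          ∑ B ∈ range (S.p ^ (S.N * t + S.rho)), (ω.res (S.N * t + S.rho) B).H L) := by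
        simp only [← Finset.mul_sum, Finset.sum_sub_distrib]
        congr 2
        exact Finset.sum_congr rfl fun B _ => hmass B
    _ ≤ C * (ω.H (L + S.rho) + ω.H (S.N * t + S.rho) - ω.H (L + (S.N * t + S.rho))) := by
        refine mul_le_mul_of_nonneg_left ?_ hC
        have h := gain S ω hst K hK t L
        rw [hch]
        linarith

end PoolAgent.Helper28.EC
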