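import Pool.Agent.Helper28.EC.Chain

/-!
# EC-JEN: Jensen's inequality along the plain chain (section A of h28_PRE5_alt.md)

`Z (t+1) a = Z1 a * ∑_w pr w a * Z t (child w a)` for alive `a`, `log` is concave (`strictConcaveOn_log_Ioi` / `ConcaveOn.le_map_sum`; the letters with
`pr w a <> 0` have an alive child, where `Z t > 0`), so `log (Z (t+1) a) >= log (Z1 a) + P (log (Z t)) a`; iterate:
`∑_{j<t+1} P^[j] f a = f a + P (∑_{j<t} P^[j] f) a` and `P` is monotone on functions compared at alive points.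
-/

set_option autoImplicit false

namespace PoolAgent.Helper28.EC

open Finset Real

theorem Z_pos (S : Sys) (h2 : S.Two) (t : ℕ) (a : ℤ) (ha : S.alive a) : 0 < S.Z t a := by
  induction t generalizing a with
  | zero =>
    show (0 : ℝ) < 1
    exact one_pos
  | succ t ih =>
    show 0 < ∑ w : S.ι, (open Classical in if S.valid w a then S.om w * S.Z t (S.child w a) else 0)
    obtain ⟨w, w', _, hw, _⟩ := h2 a ha
    refine Finset.sum_pos' (fun v _ => ?_) ⟨w, Finset.mem_univ w, ?_⟩
    · split_ifs with hv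
      · exact (mul_pos (S.om_pos v) (ih _ hv.2)).le
      · exact le_rfl
    · rw [if_pos hw]
      exact mul_pos (S.om_pos w) (ih _ hw.2)

theorem Z_succ (S : Sys) (h2 : S.Two) (t : ℕ) (a : ℤ) (ha : S.alive a) :
    S.Z (t + 1) a = S.Z1 a * ∑ w : S.ι, S.pr w a * S.Z t (S.child w a) := by
  have h1 := S.Z1_pos h2 a ha
  rw [Finset.mul_sum]
  show ∑ w : S.ι, (open Classical in if S.valid w a then S.om w * S.Z t (S.child w a) else 0) = _
  refine Finset.sum_congr rfl fun w _ => ?_
  unfold Sys.pr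
  split_ifs with hv
  · field_simp
  · rw [zero_mul, mul_zero]

theorem jensen_step (S : Sys) (h2 : S.Two) (t : ℕ) (a : ℤ) (ha : S.alive a) :
    Real.log (S.Z1 a) + ∑ w : S.ι, S.pr w a * Real.log (S.Z t (S.child w a)) ≤ Real.log (S.Z (t + 1) a) := by
  classical
  have h1 := S.Z1_pos h2 a ha
  have hf : ∀ g : S.ι → ℝ, ∑ w : S.ι, S.pr w a * g w =
      ∑ w ∈ univ.filter (fun w => S.pr w a ≠ 0), S.pr w a * g w := by
    intro g
    rw [Finset.sum_filter]
    refine Finset.sum_congr rfl fun w _ => ?_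
    by_cases h0 : S.pr w a = 0
    · rw [if_neg (not_not.2 h0), h0, zero_mul]
    · rw [if_pos h0]
  have hs : ∑ w ∈ univ.filter (fun w => S.pr w a ≠ 0), S.pr w a = 1 := by
    rw [Finset.sum_filter_ne_zero]
    exact S.pr_sum h2 a ha
  have hc := strictConcaveOn_log_Ioi.concaveOn.le_map_sum
    (t := univ.filter (fun w => S.pr w a ≠ 0)) (w := fun w => S.pr w a)
    (p := fun w => S.Z t (S.child w a)) (fun w _ => S.pr_nonneg w a) hs
    (fun w hw => Z_pos S h2 t _ (S.valid_of_pr w a (Finset.mem_filter.1 hw).2).2)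
  simp only [smul_eq_mul] at hc
  rw [← hf, ← hf] at hc
  have hpos : 0 < ∑ w : S.ι, S.pr w a * S.Z t (S.child w a) := by
    have h3 := Z_pos S h2 (t + 1) a ha
    rw [Z_succ S h2 t a ha] at h3
    exact (mul_pos_iff_of_pos_left h1).1 h3
  rw [Z_succ S h2 t a ha, Real.log_mul h1.ne' hpos.ne']
  linarith

theorem jensen (S : Sys) (h2 : S.Two) (t : ℕ) (a : ℤ) (ha : S.alive a) :
    ∑ j ∈ range t, (S.P^[j] fun b => Real.log (S.Z1 b)) a ≤ Real.log (S.Z t a) := by
  induction t generalizing a with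
  | zero =>
    show _ ≤ Real.log 1
    rw [Finset.sum_range_zero, Real.log_one]
  | succ t ih =>
    rw [Finset.sum_range_succ']
    have e1 : ∀ j : ℕ, (S.P^[j + 1] fun b => Real.log (S.Z1 b)) a =
        ∑ w : S.ι, S.pr w a * (S.P^[j] fun b => Real.log (S.Z1 b)) (S.child w a) := by
      intro j
      rw [Function.iterate_succ_apply']
      rfl
    have e2 : ∑ j ∈ range t, (S.P^[j + 1] fun b => Real.log (S.Z1 b)) a =
        ∑ w : S.ι, S.pr w a * ∑ j ∈ range t, (S.P^[j] fun b => Real.log (S.Z1 b)) (S.child w a) := by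
      simp only [e1, Finset.mul_sum]
      exact Finset.sum_comm
    rw [e2]
    have h3 : ∑ w : S.ι, S.pr w a * ∑ j ∈ range t, (S.P^[j] fun b => Real.log (S.Z1 b)) (S.child w a) ≤
        ∑ w : S.ι, S.pr w a * Real.log (S.Z t (S.child w a)) := by
      refine Finset.sum_le_sum fun w _ => ?_
      by_cases h0 : S.pr w a = 0
      · rw [h0, zero_mul, zero_mul]
      · exact mul_le_mul_of_nonneg_left (ih _ (S.valid_of_pr w a h0).2) (S.pr_nonneg w a)
    have h4 := jensen_step S h2 t a ha
    have h5 : (S.P^[0] fun b => Real.log (S.Z1 b)) a = Real.log (S.Z1 a) := rfl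
    rw [h5]
    linarith

end PoolAgent.Helper28.EC
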