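import Pool.Agent.Helper28.EC.Chain

/-!
# EC-ULT: uniform lower bound for the time averages (section F of h28_PRE5_alt.md)

If not, for every `t >= 1` there is an alive `a_t` with `∑_{s<t} (P^[s] f) a_t < (cs/2) t`.  `ω^t_j(x) := (1/t) ∑_{s<t} ∑_{u in chains s} pc u a_t [cc u a_t = x mod p^j]` in `[0,1]`
(it is `Fam.law`, or define the numbers directly).  Take the limit of every number along an ultrafilter on `ℕ` finer than `atTop`
(e.g. `Filter.hyperfilter ℕ`; bounded real sequences converge along an ultrafilter: `isCompact_Icc.ultrafilter_le_nhds` or `Ultrafilter.map` + compactness).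
The limits form a `Fam` (nonneg, periodic, consistent, mass 1, zero on the non-alive classes for `j >= rho`: `cc_alive`), and it is invariant: for fixed `j >= rho`, `x`
`∑_{y<p^(j+N)} ω^t_{j+N}(y) ∑_w [child w y = x mod p^j] pr w y = (1/t) ∑_{s<t} (law of the end point after s+1 steps)_j(x)` differs from `ω^t_j(x)` by at most `1/t`
(one step more: `pc (u ++ [w]) = pc u * pr w (cc u)`, or use `P_iter`: `(P^[s] g) a = ∑_u pc u a g(cc u a)` with `g = ` the indicator of the class of `x` mod `p^j` resp. `P g`,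
and `P^[s+1] g = P^[s] (P g)`; `(P g)(b)` for alive `b` depends on `b mod p^(j+N)` only, `child_shift`, `pr_per`).
So `hcl` applies to the limit `ω`: `ω_{N+rho}(R + p^rho e) = p^(-N) ω_rho(R)`.  `f` depends on the class mod `p^(N+rho)`, so `(1/t) ∑_{s<t} (P^[s] f) a_t = ∑_{x<p^(N+rho)} ω^t_{N+rho}(x) f(x)`
and in the limit `cs/2 >= ∑_x ω_{N+rho}(x) f(x) = ∑_{R<p^rho} ω_rho(R) p^(-N) ∑_e f(R + p^rho e) >= cs ∑_R ω_rho(R) = cs` (non-alive `R` have `ω_rho(R) = 0`).  Contradiction.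
-/

set_option autoImplicit false

namespace PoolAgent.Helper28.EC

open Finset Real

namespace Ult54

open Filter Topology

/-- The indicator function of the class of `x` modulo `p^j`. -/
noncomputable def ind (p j : ℕ) (x b : ℤ) : ℝ := if b ≡ x [ZMOD (p : ℤ) ^ j] then 1 else 0

/-- The time average over `t` steps from `a`. -/
noncomputable def av (S : Sys) (a : ℤ) (t : ℕ) (g : ℤ → ℝ) : ℝ :=
  (∑ s ∈ range t, (S.P^[s] g) a) / t

theorem ind_nonneg (p j : ℕ) (x b : ℤ) : 0 ≤ ind p j x b := by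
  unfold ind
  split_ifs
  · exact zero_le_one
  · exact le_rfl

theorem ind_le_one (p j : ℕ) (x b : ℤ) : |ind p j x b| ≤ 1 := by
  unfold ind
  split_ifs
  · simp
  · simp

theorem ind_per (p j : ℕ) (x z : ℤ) : ind p j (x + (p : ℤ) ^ j * z) = ind p j x := by
  funext b
  unfold ind
  have : (b ≡ x + (p : ℤ) ^ j * z [ZMOD (p : ℤ) ^ j]) ↔ b ≡ x [ZMOD (p : ℤ) ^ j] := by
    have h : x + (p : ℤ) ^ j * z ≡ x [ZMOD (p : ℤ) ^ j] := by
      rw [Int.modEq_iff_dvd]; exact ⟨-z, by ring⟩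
    exact ⟨fun h' => h'.trans h, fun h' => h'.trans h.symm⟩
  simp only [this]

/-- A periodic function is a combination of indicator functions. -/
theorem per_sum (p : ℕ) (hp : 0 < p) (k : ℕ) (g : ℤ → ℝ)
    (hg : ∀ a z : ℤ, g (a + (p : ℤ) ^ k * z) = g a) (b : ℤ) :
    g b = ∑ y ∈ range (p ^ k), g y * ind p k y b := by
  have hp' : (0 : ℤ) < (p : ℤ) ^ k := pow_pos (by exact_mod_cast hp) k
  have h1 := Int.emod_lt_of_pos b hp'
  have h2 := Int.emod_nonneg b hp'.ne'
  have h3 : (((b % (p : ℤ) ^ k).toNat : ℕ) : ℤ) = b % (p : ℤ) ^ k := Int.toNat_of_nonneg h2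
  have h4 : g (b % (p : ℤ) ^ k) = g b := by
    conv_rhs => rw [← Int.emod_add_mul_ediv b ((p : ℤ) ^ k)]
    exact (hg _ _).symm
  rw [Finset.sum_eq_single (b % (p : ℤ) ^ k).toNat]
  · rw [h3, h4]
    unfold ind
    rw [if_pos (Int.mod_modEq b _).symm, mul_one]
  · intro y hy hne
    unfold ind
    rw [if_neg, mul_zero]
    intro h
    apply hne
    have h5 : b % (p : ℤ) ^ k = (y : ℤ) % (p : ℤ) ^ k := h
    have h6 : (y : ℤ) % (p : ℤ) ^ k = y := Int.emod_eq_of_lt (by positivity) (by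
      rw [mem_range] at hy
      exact_mod_cast hy)
    rw [h5, h6]
    simp
  · intro h
    exfalso
    apply h
    rw [mem_range]
    have h6 : (((b % (p : ℤ) ^ k).toNat : ℕ) : ℤ) < ((p ^ k : ℕ) : ℤ) := by
      rw [h3]
      push_cast
      exact h1
    exact_mod_cast h6

theorem ind_cons (p : ℕ) (hp : 0 < p) (j : ℕ) (x b : ℤ) :
    ind p j x b = ∑ e ∈ range p, 1 * ind p (j + 1) (x + (p : ℤ) ^ j * e) b := by
  have h := (Fam.law (p := p) hp ({b} : Finset ℤ) (fun _ => 1) (fun _ => zero_le_one)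
    (fun y => y)).cons j x
  simp only [Fam.law, Finset.sum_singleton] at h
  unfold ind
  simp only [one_mul]
  exact h

theorem iter_sum (S : Sys) (s : ℕ) (a : ℤ) {κ : Type*} (Y : Finset κ) (c : κ → ℝ)
    (g : κ → ℤ → ℝ) :
    (S.P^[s] (fun b => ∑ y ∈ Y, c y * g y b)) a = ∑ y ∈ Y, c y * (S.P^[s] (g y)) a := by
  simp only [S.P_iter, Finset.mul_sum]
  rw [Finset.sum_comm]
  refine Finset.sum_congr rfl fun y _ => Finset.sum_congr rfl fun u _ => ?_
  ring

theorem iter_congr (S : Sys) (s : ℕ) (a : ℤ) (ha : S.alive a) (g g' : ℤ → ℝ)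
    (h : ∀ b, S.alive b → g b = g' b) : (S.P^[s] g) a = (S.P^[s] g') a := by
  rw [S.P_iter, S.P_iter]
  refine Finset.sum_congr rfl fun u _ => ?_
  by_cases h0 : S.pc u a = 0
  · rw [h0, zero_mul, zero_mul]
  · rw [h _ (S.cc_alive u a ha h0)]

theorem iter_bound (S : Sys) (h2 : S.Two) (s : ℕ) (a : ℤ) (ha : S.alive a) (g : ℤ → ℝ) (B : ℝ)
    (hg : ∀ b, |g b| ≤ B) : |(S.P^[s] g) a| ≤ B := by
  rw [S.P_iter]
  refine (Finset.abs_sum_le_sum_abs _ _).trans ?_
  calc ∑ u ∈ S.chains s, |S.pc u a * g (S.cc u a)| ≤ ∑ u ∈ S.chains s, S.pc u a * B := by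
        refine Finset.sum_le_sum fun u _ => ?_
        rw [abs_mul, abs_of_nonneg (S.pc_nonneg u a)]
        exact mul_le_mul_of_nonneg_left (hg _) (S.pc_nonneg u a)
    _ = B := by rw [← Finset.sum_mul, S.pc_sum h2 s a ha, one_mul]

theorem av_sum (S : Sys) (a : ℤ) (t : ℕ) {κ : Type*} (Y : Finset κ) (c : κ → ℝ)
    (g : κ → ℤ → ℝ) :
    av S a t (fun b => ∑ y ∈ Y, c y * g y b) = ∑ y ∈ Y, c y * av S a t (g y) := by
  unfold av
  simp only [iter_sum]
  rw [Finset.sum_comm, Finset.sum_div]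
  refine Finset.sum_congr rfl fun y _ => ?_
  rw [← Finset.mul_sum]
  ring

theorem av_congr (S : Sys) (a : ℤ) (ha : S.alive a) (t : ℕ) (g g' : ℤ → ℝ)
    (h : ∀ b, S.alive b → g b = g' b) : av S a t g = av S a t g' := by
  unfold av
  rw [Finset.sum_congr rfl fun s _ => iter_congr S s a ha g g' h]

theorem av_bound (S : Sys) (h2 : S.Two) (a : ℤ) (ha : S.alive a) (t : ℕ) (g : ℤ → ℝ) (B : ℝ)
    (hB : 0 ≤ B) (hg : ∀ b, |g b| ≤ B) : |av S a t g| ≤ B := by
  unfold av
  rw [abs_div, Nat.abs_cast]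
  refine div_le_of_le_mul₀ (Nat.cast_nonneg t) hB ?_
  refine (Finset.abs_sum_le_sum_abs _ _).trans ?_
  calc ∑ s ∈ range t, |(S.P^[s] g) a| ≤ ∑ s ∈ range t, B :=
        Finset.sum_le_sum fun s _ => iter_bound S h2 s a ha g B hg
    _ = B * t := by rw [Finset.sum_const, card_range, nsmul_eq_mul, mul_comm]

theorem av_nonneg (S : Sys) (a : ℤ) (t : ℕ) (g : ℤ → ℝ) (hg : ∀ b, 0 ≤ g b) :
    0 ≤ av S a t g := by
  unfold av
  refine div_nonneg (Finset.sum_nonneg fun s _ => ?_) (Nat.cast_nonneg t)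
  rw [S.P_iter]
  exact Finset.sum_nonneg fun u _ => mul_nonneg (S.pc_nonneg u a) (hg _)

theorem av_P (S : Sys) (a : ℤ) (t : ℕ) (g : ℤ → ℝ) :
    av S a t (S.P g) = av S a t g + ((S.P^[t] g) a - g a) / t := by
  unfold av
  rw [← add_div]
  congr 1
  have h1 : ∀ s, (S.P^[s] (S.P g)) a = (S.P^[s + 1] g) a := fun s => by
    rw [Function.iterate_succ_apply]
  simp only [h1]
  have h3 := Finset.sum_range_succ' (fun s => (S.P^[s] g) a) t
  rw [Finset.sum_range_succ] at h3
  simp only [Function.iterate_zero, id] at h3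
  linarith

theorem av_one (S : Sys) (h2 : S.Two) (a : ℤ) (ha : S.alive a) (t : ℕ) (ht : 1 ≤ t) (g : ℤ → ℝ)
    (hg : ∀ b, g b = 1) : av S a t g = 1 := by
  unfold av
  have h1 : ∀ s, (S.P^[s] g) a = 1 := by
    intro s
    rw [S.P_iter]
    simp only [hg, mul_one]
    exact S.pc_sum h2 s a ha
  simp only [h1, Finset.sum_const, card_range, nsmul_eq_mul, mul_one]
  exact div_self (by positivity)

theorem exists_lim (U : Ultrafilter ℕ) (h : ℕ → ℝ) (B : ℝ) (hB : ∀ t, |h t| ≤ B) :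
    ∃ l, Tendsto h U (𝓝 l) := by
  obtain ⟨l, -, hl⟩ := (isCompact_Icc (a := -B) (b := B)).ultrafilter_le_nhds (U.map h) (by
    rw [le_principal_iff]
    exact Filter.mem_map.2 (Filter.Eventually.of_forall fun t => abs_le.1 (hB t)))
  exact ⟨l, hl⟩

/-- The function `P (ind j x)` depends on the class modulo `p^(j+N)` only. -/
theorem P_ind_per (S : Sys) (j : ℕ) (hj : S.rho ≤ j) (x a z : ℤ) :
    S.P (ind S.p j x) (a + (S.p : ℤ) ^ (j + S.N) * z) = S.P (ind S.p j x) a := by
  unfold Sys.P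
  refine Finset.sum_congr rfl fun w _ => ?_
  have e1 : (S.p : ℤ) ^ (j + S.N) * z = (S.p : ℤ) ^ (S.N + S.rho) * ((S.p : ℤ) ^ (j - S.rho) * z) := by
    rw [← mul_assoc, ← pow_add]
    congr 2
    omega
  have e2 : S.pr w (a + (S.p : ℤ) ^ (j + S.N) * z) = S.pr w a := by rw [e1, S.pr_per]
  rw [e2]
  by_cases h0 : S.pr w a = 0
  · rw [h0, zero_mul, zero_mul]
  congr 1
  rw [add_comm j S.N, S.child_shift w a z j (S.valid_of_pr w a h0).1]
  unfold ind
  have : (S.child w a + (S.p : ℤ) ^ j * (S.d ^ S.tau w * z) ≡ x [ZMOD (S.p : ℤ) ^ j]) ↔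
      S.child w a ≡ x [ZMOD (S.p : ℤ) ^ j] := by
    have h : S.child w a + (S.p : ℤ) ^ j * (S.d ^ S.tau w * z) ≡ S.child w a [ZMOD (S.p : ℤ) ^ j] := by
      rw [Int.modEq_iff_dvd]; exact ⟨-(S.d ^ S.tau w * z), by ring⟩
    exact ⟨fun h' => h.symm.trans h', fun h' => h.trans h'⟩
  simp only [this]

theorem P_ind (S : Sys) (j : ℕ) (x y : ℤ) : S.P (ind S.p j x) y =
    ∑ w : S.ι, if S.child w y ≡ x [ZMOD (S.p : ℤ) ^ j] then S.pr w y else 0 := by
  unfold Sys.P ind
  refine Finset.sum_congr rfl fun w _ => ?_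
  split_ifs
  · rw [mul_one]
  · rw [mul_zero]

/-- The limit family. -/
theorem lim_fam (S : Sys) (h2 : S.Two) (a : ℕ → ℤ) (ha : ∀ t, S.alive (a t)) :
    ∃ (U : Ultrafilter ℕ) (ω : Fam S.p), (U : Filter ℕ) ≤ atTop ∧ Stat S ω ∧
      ∀ j x, Tendsto (fun t => av S (a t) t (ind S.p j x)) U (𝓝 (ω.m j x)) := by
  set U : Ultrafilter ℕ := hyperfilter ℕ with hU
  have hUt : (U : Filter ℕ) ≤ atTop := by
    rw [hU, ← Nat.cofinite_eq_atTop]
    exact hyperfilter_le_cofinite
  have hp : 0 < S.p := S.hp.pos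
  have hl : ∀ (j : ℕ) (x : ℤ), ∃ l, Tendsto (fun t => av S (a t) t (ind S.p j x)) U (𝓝 l) :=
    fun j x => exists_lim U _ 1 fun t => av_bound S h2 (a t) (ha t) t _ 1 zero_le_one
      fun b => ind_le_one _ _ _ _
  choose w hw using hl
  have hge : ∀ᶠ t in (U : Filter ℕ), 1 ≤ t := hUt (eventually_ge_atTop 1)
  let ω : Fam S.p :=
    { m := w
      nonneg := fun j x => ge_of_tendsto' (hw j x) fun t =>
        av_nonneg S _ _ _ fun b => ind_nonneg _ _ _ _
      per := fun j x z => by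
        refine tendsto_nhds_unique (hw j (x + (S.p : ℤ) ^ j * z)) ?_
        rw [ind_per]
        exact hw j x
      cons := fun j x => by
        refine tendsto_nhds_unique (hw j x) ?_
        have h1 : ∀ t, av S (a t) t (ind S.p j x) =
            ∑ e ∈ range S.p, 1 * av S (a t) t (ind S.p (j + 1) (x + (S.p : ℤ) ^ j * e)) := by
          intro t
          rw [← av_sum]
          congr 1
          funext b
          exact ind_cons S.p hp j x b
        simp only [h1, one_mul]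
        exact tendsto_finsetSum _ fun e _ => hw _ _ }
  refine ⟨U, ω, hUt, ⟨?_, ?_, ?_⟩, hw⟩
  · refine tendsto_nhds_unique (hw 0 0) ?_
    refine tendsto_const_nhds.congr' ?_
    filter_upwards [hge] with t ht
    refine (av_one S h2 (a t) (ha t) t ht _ fun b => ?_).symm
    unfold ind
    rw [if_pos]
    rw [pow_zero]
    exact Int.modEq_one
  · intro j x hj hx
    refine tendsto_nhds_unique (hw j x) ?_
    refine tendsto_const_nhds.congr fun t => ?_
    have h1 : av S (a t) t (ind S.p j x) = av S (a t) t (fun _ => 0) := by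
      refine av_congr S (a t) (ha t) t _ _ fun b hb => ?_
      unfold ind
      rw [if_neg]
      intro h
      apply hx
      have h3 : b ≡ x [ZMOD (S.p : ℤ) ^ S.rho] := h.of_dvd (pow_dvd_pow _ hj)
      obtain ⟨z, hz⟩ := h3.dvd
      have h4 : x = b + (S.p : ℤ) ^ S.rho * z := by linarith
      rw [h4, S.alive_per]
      exact hb
    rw [h1]
    have h5 := av_sum S (a t) t (∅ : Finset ℕ) (fun _ => 0) (fun _ _ => 0)
    simp only [Finset.sum_empty] at h5
    exact h5.symm
  · intro j x hj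
    have h1 : ∀ t, av S (a t) t (S.P (ind S.p j x)) =
        ∑ y ∈ range (S.p ^ (j + S.N)), S.P (ind S.p j x) y * av S (a t) t (ind S.p (j + S.N) y) := by
      intro t
      rw [← av_sum S (a t) t (range (S.p ^ (j + S.N))) (fun y => S.P (ind S.p j x) (y : ℤ))
        (fun y => ind S.p (j + S.N) y)]
      congr 1
      funext b
      exact per_sum S.p hp (j + S.N) _ (P_ind_per S j hj x) b
    have h3 : Tendsto (fun t => av S (a t) t (S.P (ind S.p j x))) U
        (𝓝 (∑ y ∈ range (S.p ^ (j + S.N)), S.P (ind S.p j x) y * w (j + S.N) y)) := by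
      simp only [h1]
      exact tendsto_finsetSum _ fun y _ => (hw _ _).const_mul _
    have h4 : Tendsto (fun t => av S (a t) t (S.P (ind S.p j x))) U (𝓝 (w j x)) := by
      have h5 : ∀ t, av S (a t) t (S.P (ind S.p j x)) = av S (a t) t (ind S.p j x) +
          ((S.P^[t] (ind S.p j x)) (a t) - ind S.p j x (a t)) / t := fun t => av_P S _ _ _
      simp only [h5]
      have h6 : Tendsto (fun t : ℕ => ((S.P^[t] (ind S.p j x)) (a t) - ind S.p j x (a t)) / (t : ℝ))
          U (𝓝 0) := by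
        have h7 : Tendsto (fun t : ℕ => 2 / (t : ℝ)) U (𝓝 0) :=
          (tendsto_const_div_atTop_nhds_zero_nat 2).mono_left hUt
        refine squeeze_zero_norm (fun t => ?_) h7
        rw [Real.norm_eq_abs, abs_div, Nat.abs_cast]
        refine div_le_div_of_nonneg_right ?_ (Nat.cast_nonneg t)
        have h8 := iter_bound S h2 t (a t) (ha t) (ind S.p j x) 1 fun b => ind_le_one _ _ _ _
        have h9 := ind_le_one S.p j x (a t)
        exact (abs_sub _ _).trans (by linarith)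
      have h10 := (hw j x).add h6
      rwa [add_zero] at h10
    have h11 := tendsto_nhds_unique h4 h3
    show w j x = _
    rw [h11]
    refine Finset.sum_congr rfl fun y _ => ?_
    rw [P_ind, mul_comm]

end Ult54

open Ult54 Filter Topology

theorem ultra (S : Sys) (h2 : S.Two)
    (hcl : ∀ ω : Fam S.p, Stat S ω → ∀ (j : ℕ) (x : ℤ), S.rho ≤ j →
      (S.p : ℝ) ^ j * ω.m j x = (S.p : ℝ) ^ S.rho * ω.m S.rho x)
    (f : ℤ → ℝ) (hf : ∀ a z : ℤ, f (a + (S.p : ℤ) ^ (S.N + S.rho) * z) = f a) (cs : ℝ) (hcs : 0 < cs)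
    (havg : ∀ R : ℤ, S.alive R → cs * (S.p : ℝ) ^ S.N ≤ ∑ e ∈ range (S.p ^ S.N), f (R + (S.p : ℤ) ^ S.rho * e)) :
    ∃ t : ℕ, 1 ≤ t ∧ ∀ a : ℤ, S.alive a → cs / 2 * t ≤ ∑ j ∈ range t, (S.P^[j] f) a := by
  by_contra hcon
  push Not at hcon
  obtain ⟨a0, ha0, -⟩ := hcon 1 le_rfl
  have hex : ∀ t : ℕ, ∃ a, S.alive a ∧ (1 ≤ t → ∑ j ∈ range t, (S.P^[j] f) a < cs / 2 * t) := by
    intro t
    rcases Nat.eq_zero_or_pos t with h | h
    · exact ⟨a0, ha0, fun h' => by omega⟩
    · obtain ⟨a, ha, h3⟩ := hcon t h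
      exact ⟨a, ha, fun _ => h3⟩
  choose a ha hlt using hex
  obtain ⟨U, ω, hUt, hst, hω⟩ := lim_fam S h2 a ha
  have hp : 0 < S.p := S.hp.pos
  have hpR : (0 : ℝ) < S.p := by exact_mod_cast hp
  have h1 : ∀ t, av S (a t) t f = ∑ y ∈ range (S.p ^ (S.N + S.rho)), f y *
      av S (a t) t (ind S.p (S.N + S.rho) y) := by
    intro t
    rw [← av_sum S (a t) t (range (S.p ^ (S.N + S.rho))) (fun y => f (y : ℤ))
      (fun y => ind S.p (S.N + S.rho) y)]
    congr 1
    funext b
    exact per_sum S.p hp (S.N + S.rho) _ hf b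
  have h3 : Tendsto (fun t => av S (a t) t f) U
      (𝓝 (∑ y ∈ range (S.p ^ (S.N + S.rho)), f y * ω.m (S.N + S.rho) y)) := by
    simp only [h1]
    exact tendsto_finsetSum _ fun y _ => (hω _ _).const_mul _
  have h4 : ∑ y ∈ range (S.p ^ (S.N + S.rho)), f y * ω.m (S.N + S.rho) y ≤ cs / 2 := by
    refine le_of_tendsto h3 ?_
    filter_upwards [hUt (eventually_ge_atTop 1)] with t ht
    have ht' : (0 : ℝ) < t := by exact_mod_cast ht
    unfold av
    rw [div_le_iff₀ ht']
    exact (hlt t ht).le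
  have h5 : cs ≤ ∑ y ∈ range (S.p ^ (S.N + S.rho)), f y * ω.m (S.N + S.rho) y := by
    have hm : ∑ R ∈ range (S.p ^ S.rho), ω.m S.rho (R : ℤ) = 1 := by
      rw [ω.sum_eq_mass]
      exact hst.mass
    rw [add_comm S.N S.rho, pow_add, sum_range_mul]
    calc cs = ∑ R ∈ range (S.p ^ S.rho), cs * ω.m S.rho (R : ℤ) := by
          rw [← Finset.mul_sum, hm, mul_one]
      _ ≤ _ := by
          refine Finset.sum_le_sum fun R _ => ?_
          have e1 : ∀ e : ℕ, ω.m (S.rho + S.N) ((R + S.p ^ S.rho * e : ℕ) : ℤ) =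
              ω.m S.rho (R : ℤ) / (S.p : ℝ) ^ S.N := by
            intro e
            have h6 := hcl ω hst (S.rho + S.N) ((R + S.p ^ S.rho * e : ℕ) : ℤ) (by omega)
            have h7 : ω.m S.rho ((R + S.p ^ S.rho * e : ℕ) : ℤ) = ω.m S.rho (R : ℤ) := by
              push_cast
              exact ω.per _ _ _
            rw [h7, pow_add, mul_assoc] at h6
            have h8 := mul_left_cancel₀ (pow_pos hpR S.rho).ne' h6
            rw [eq_div_iff (pow_pos hpR S.N).ne', mul_comm]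
            exact h8
          simp only [e1]
          rw [← Finset.sum_mul]
          by_cases hR : S.alive (R : ℤ)
          · have h9 := havg R hR
            have h10 : ∑ e ∈ range (S.p ^ S.N), f ((R + S.p ^ S.rho * e : ℕ) : ℤ) =
                ∑ e ∈ range (S.p ^ S.N), f ((R : ℤ) + (S.p : ℤ) ^ S.rho * e) := by
              refine Finset.sum_congr rfl fun e _ => ?_
              push_cast
              rfl
            rw [h10]
            have h11 : 0 ≤ ω.m S.rho (R : ℤ) / (S.p : ℝ) ^ S.N :=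
              div_nonneg (ω.nonneg _ _) (pow_pos hpR _).le
            calc cs * ω.m S.rho (R : ℤ) = (cs * (S.p : ℝ) ^ S.N) * (ω.m S.rho (R : ℤ) / (S.p : ℝ) ^ S.N) := by
                  field_simp
              _ ≤ _ := mul_le_mul_of_nonneg_right h9 h11
          · rw [hst.supp S.rho R le_rfl hR]
            simp
  linarith

end PoolAgent.Helper28.EC
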