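import Pool.Agent.Helper28.EC.Classify
import Pool.Agent.Helper28.EC.Ultra
import Pool.Agent.Helper28.EC.Jensen

/-!
# EC: the growth theorem for affine letter systems over the `p`-adic integers

If the class averages of `log Z1` are at least `cs > 0`, then the weighted number of valid chains grows exponentially from EVERY alive integer.
-/

set_option autoImplicit false

namespace PoolAgent.Helper28.EC

open Finset Real

theorem growth (S : Sys) (h2 : S.Two) (hsep : S.Sep) (M : ℕ) (hM : 1 ≤ M) (hoff : S.OffBd M) (cs : ℝ) (hcs : 0 < cs)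
    (havg : ∀ R : ℤ, S.alive R → cs * (S.p : ℝ) ^ S.N ≤
      ∑ e ∈ range (S.p ^ S.N), Real.log (S.Z1 (R + (S.p : ℤ) ^ S.rho * e))) :
    ∃ t : ℕ, 1 ≤ t ∧ ∀ a : ℤ, S.alive a → Real.exp (cs / 2 * t) ≤ S.Z t a := by
  obtain ⟨t, ht, h⟩ := ultra S h2 (fun ω hst j x hj => classify S h2 (minor S h2 hsep M hM hoff) ω hst j x hj)
    (fun b => Real.log (S.Z1 b)) (fun a z => by simp only [S.Z1_per]) cs hcs havg
  refine ⟨t, ht, fun a ha => ?_⟩
  have h1 := (h a ha).trans (jensen S h2 t a ha)
  rwa [Real.le_log_iff_exp_le (Z_pos S h2 t a ha)] at h1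

end PoolAgent.Helper28.EC
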