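import Pool.Agent.Helper28.EC.ChatEnt
import Pool.Agent.Helper28.EC.ChainEnt
import Pool.Agent.Helper28.EC.Dig

/-!
# EC-KAP: a positive density of non-collisions

`L = N M t`.  For `B` alive: `h0 t - log((K t+1) p^rho) <= ∑_{T,R} (nuF t B T R).H L` (`ent_chain`, `chat_ent`) and `H L = ∑_{i<L} (H (i+1) - H i)`
(`H_zero`), `H (i+1) - H i <= sqrt(p mass nc_i)` (`dig`).  Multiply by `ω.m (Nt+rho) B` and sum over `B` (total mass 1, `sum_eq_mass`; non-alive `B` have
mass 0): for `t >= t0`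
  `h0 t/2 <= ∑_{i<L} ∑_B ω_B ∑_{T,R} sqrt(p mass nc_i) <= sqrt(∑_{i,B,T,R} p ω_B mass) sqrt(∑_{i,B,T,R} ω_B nc_i) <= sqrt(p L) sqrt(∑_i A_i)`
(Cauchy-Schwarz, `∑_{T,R} mass = 1`), `A_i = ∑_B ω_B ∑_{T,R} nc_i <= 1` (`nc_le_mass`).  So `∑_{i<L} A_i >= h0^2 t^2/(4 p L) = h0^2 t/(4 p N M)`, and
dropping the last `w - 1` indices costs at most `w`.  `c1 = h0^2/(8 p N M)`.
-/

set_option autoImplicit false

namespace PoolAgent.Helper28.EC

open Finset Real Filter

/-- Cauchy-Schwarz for a weighted quadruple sum. -/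
private theorem cs_h52 (L nB nT nR : ℕ) (p : ℝ) (hp : 0 ≤ p) (wB : ℕ → ℝ) (hw : ∀ B, 0 ≤ wB B)
    (ms : ℕ → ℕ → ℕ → ℝ) (hm : ∀ B T R, 0 ≤ ms B T R) (nc : ℕ → ℕ → ℕ → ℕ → ℝ) (hn : ∀ (B T R : ℕ) (i : ℕ), 0 ≤ nc B T R i) :
    ∑ i ∈ range L, ∑ B ∈ range nB, ∑ T ∈ range nT, ∑ R ∈ range nR, wB B * √(p * (ms B T R * nc B T R i)) ≤
      √(∑ i ∈ range L, ∑ B ∈ range nB, ∑ T ∈ range nT, ∑ R ∈ range nR, wB B * (p * ms B T R)) *
      √(∑ i ∈ range L, ∑ B ∈ range nB, ∑ T ∈ range nT, ∑ R ∈ range nR, wB B * nc B T R i) := by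
  have h := Real.sum_sqrt_mul_sqrt_le (range L ×ˢ range nB ×ˢ range nT ×ˢ range nR)
    (f := fun x : ℕ × ℕ × ℕ × ℕ => wB x.2.1 * (p * ms x.2.1 x.2.2.1 x.2.2.2))
    (g := fun x : ℕ × ℕ × ℕ × ℕ => wB x.2.1 * nc x.2.1 x.2.2.1 x.2.2.2 x.1)
    (fun x => mul_nonneg (hw _) (mul_nonneg hp (hm _ _ _))) (fun x => mul_nonneg (hw _) (hn _ _ _ _))
  simp only [Finset.sum_product] at h
  refine le_trans (le_of_eq ?_) h
  refine Finset.sum_congr rfl fun i _ => Finset.sum_congr rfl fun B _ => Finset.sum_congr rfl fun T _ =>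
    Finset.sum_congr rfl fun R _ => ?_
  rw [← Real.sqrt_mul (mul_nonneg (hw _) (mul_nonneg hp (hm _ _ _)))]
  have h1 : wB B * (p * ms B T R) * (wB B * nc B T R i) = wB B ^ 2 * (p * (ms B T R * nc B T R i)) := by ring
  rw [h1, Real.sqrt_mul (sq_nonneg _), Real.sqrt_sq (hw _)]

theorem kap (S : Sys) (h2 : S.Two) (hsep : S.Sep) (M : ℕ) (hM : 1 ≤ M) (hoff : S.OffBd M)
    (K : ℕ) (hK : ∀ u : List S.ι, S.tt u ≤ K * u.length) :
    ∃ c1 : ℝ, 0 < c1 ∧ ∀ (w : ℕ), ∃ t0 : ℕ, ∀ (ω : Fam S.p), Stat S ω → ∀ t : ℕ, t0 ≤ t →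
      c1 * t ≤ ∑ i ∈ range (S.N * M * t - w + 1), ∑ B ∈ range (S.p ^ (S.N * t + S.rho)),
        ω.m (S.N * t + S.rho) (B : ℤ) * ∑ T ∈ range (K * t + 1), ∑ R ∈ range (S.p ^ S.rho), (nuF S t B T R).nc i := by
  obtain ⟨h0, hh0, hent⟩ := ent_chain S h2
  have hp : (0 : ℝ) < S.p := by exact_mod_cast S.hp.pos
  have hN : (0 : ℝ) < S.N := by exact_mod_cast S.hN
  have hMr : (0 : ℝ) < M := by exact_mod_cast hM
  set c1 : ℝ := h0 ^ 2 / (8 * (S.p * (S.N * M))) with hc1
  have hc1pos : 0 < c1 := by positivity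
  refine ⟨c1, hc1pos, fun w => ?_⟩
  set P : ℝ := (S.p : ℝ) ^ S.rho with hP
  have hPpos : 0 < P := by positivity
  refine ⟨⌈8 * ((K + 1) * P) / h0 ^ 2⌉₊ + ⌈w / c1⌉₊ + 1, fun ω hω t ht => ?_⟩
  have ht1 : (1 : ℝ) ≤ t := by
    have : 1 ≤ t := by omega
    exact_mod_cast this
  have ht0 : (0 : ℝ) < t := by linarith
  have ht2 : 8 * ((K + 1) * P) / h0 ^ 2 ≤ t := by
    refine (Nat.le_ceil _).trans ?_
    exact_mod_cast (by omega : ⌈8 * ((K + 1) * P) / h0 ^ 2⌉₊ ≤ t)
  have ht3 : w / c1 ≤ t := by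
    refine (Nat.le_ceil _).trans ?_
    exact_mod_cast (by omega : ⌈w / c1⌉₊ ≤ t)
  -- the logarithm
  have hlog : Real.log (((K * t + 1 : ℕ) : ℝ) * P) ≤ h0 * t / 2 := by
    rw [Real.log_le_iff_le_exp (by positivity)]
    have h1 := Real.quadratic_le_exp_of_nonneg (x := h0 * t / 2) (by positivity)
    have h2 : ((K * t + 1 : ℕ) : ℝ) * P ≤ (h0 * t / 2) ^ 2 / 2 := by
      push_cast
      rw [div_le_iff₀ (by positivity)] at ht2
      have h3 : (K * t + 1 : ℝ) ≤ (K + 1) * t := by nlinarith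
      have h4 : (K * t + 1 : ℝ) * P ≤ (K + 1) * t * P := mul_le_mul_of_nonneg_right h3 hPpos.le
      have h5 : (8 * ((K + 1) * P)) * t ≤ (t * h0 ^ 2) * t := mul_le_mul_of_nonneg_right ht2 ht0.le
      nlinarith
    have h3 : 0 ≤ h0 * t / 2 := by positivity
    linarith
  set L : ℕ := S.N * M * t with hL
  set nB : ℕ := S.p ^ (S.N * t + S.rho) with hnB
  set wB : ℕ → ℝ := fun B => ω.m (S.N * t + S.rho) (B : ℤ) with hwB
  have hw0 : ∀ B, 0 ≤ wB B := fun B => ω.nonneg _ _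
  have hw1 : ∑ B ∈ range nB, wB B = 1 := by
    rw [hwB, hnB, ω.sum_eq_mass]
    exact hω.mass
  have hwsupp : ∀ B : ℕ, ¬ S.alive (B : ℤ) → wB B = 0 := fun B hB => hω.supp _ _ (by omega) hB
  -- the masses
  have hmass : ∀ B : ℕ, wB B * ∑ T ∈ range (K * t + 1), ∑ R ∈ range (S.p ^ S.rho), (nuF S t B T R).mass = wB B := by
    intro B
    by_cases hB : S.alive (B : ℤ)
    · rw [nuF_mass S h2 K hK t B hB, mul_one]
    · rw [hwsupp B hB, zero_mul]
  -- lower bound for the entropies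
  have hlow : ∀ B : ℕ, wB B * (h0 * t / 2) ≤ wB B * ∑ T ∈ range (K * t + 1), ∑ R ∈ range (S.p ^ S.rho), (nuF S t B T R).H L := by
    intro B
    by_cases hB : S.alive (B : ℤ)
    · refine mul_le_mul_of_nonneg_left ?_ (hw0 B)
      have h3 := hent t B hB
      have h4 := chat_ent S h2 hsep M hoff K hK t B hB L (le_of_eq hL.symm)
      rw [← hP] at h4
      linarith
    · rw [hwsupp B hB, zero_mul, zero_mul]
  have hHle : ∀ (B T R : ℕ), (nuF S t B T R).H L ≤ ∑ i ∈ range L, √(S.p * ((nuF S t B T R).mass * (nuF S t B T R).nc i)) := by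
    intro B T R
    have h3 : (nuF S t B T R).H L = ∑ i ∈ range L, ((nuF S t B T R).H (i + 1) - (nuF S t B T R).H i) := by
      rw [Finset.sum_range_sub, H_zero, sub_zero]
    rw [h3]
    exact Finset.sum_le_sum fun i _ => dig S.hp _ i
  set A : ℕ → ℝ := fun i => ∑ B ∈ range nB, wB B * ∑ T ∈ range (K * t + 1), ∑ R ∈ range (S.p ^ S.rho), (nuF S t B T R).nc i with hA
  have hA0 : ∀ i, 0 ≤ A i := fun i => Finset.sum_nonneg fun B _ => mul_nonneg (hw0 B)
    (Finset.sum_nonneg fun T _ => Finset.sum_nonneg fun R _ => nc_nonneg _ _)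
  have hA1 : ∀ i, A i ≤ 1 := by
    intro i
    rw [← hw1]
    refine Finset.sum_le_sum fun B _ => ?_
    refine le_trans ?_ (le_of_eq (hmass B))
    exact mul_le_mul_of_nonneg_left (Finset.sum_le_sum fun T _ => Finset.sum_le_sum fun R _ => nc_le_mass _ _) (hw0 B)
  have hmain : h0 * t / 2 ≤ √(L * S.p) * √(∑ i ∈ range L, A i) := by
    have h3 := cs_h52 L nB (K * t + 1) (S.p ^ S.rho) S.p hp.le wB hw0
      (fun B T R => (nuF S t B T R).mass) (fun B T R => Fam.mass_nonneg _)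
      (fun B T R i => (nuF S t B T R).nc i) (fun _ _ _ _ => nc_nonneg _ _)
    have h4 : ∑ i ∈ range L, ∑ B ∈ range nB, ∑ T ∈ range (K * t + 1), ∑ R ∈ range (S.p ^ S.rho),
        wB B * (S.p * (nuF S t B T R).mass) = L * S.p := by
      have h5 : ∀ B : ℕ, ∑ T ∈ range (K * t + 1), ∑ R ∈ range (S.p ^ S.rho), wB B * (S.p * (nuF S t B T R).mass) = S.p * wB B := by
        intro B
        conv_rhs => rw [← hmass B]
        simp only [Finset.mul_sum]
        refine Finset.sum_congr rfl fun T _ => Finset.sum_congr rfl fun R _ => ?_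
        ring
      simp only [h5]
      rw [← Finset.mul_sum, hw1, mul_one, Finset.sum_const, card_range, nsmul_eq_mul]
    have h6 : ∑ i ∈ range L, ∑ B ∈ range nB, ∑ T ∈ range (K * t + 1), ∑ R ∈ range (S.p ^ S.rho),
        wB B * (nuF S t B T R).nc i = ∑ i ∈ range L, A i := by
      refine Finset.sum_congr rfl fun i _ => Finset.sum_congr rfl fun B _ => ?_
      rw [Finset.mul_sum]
      exact Finset.sum_congr rfl fun T _ => by rw [Finset.mul_sum]
    rw [h4, h6] at h3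
    refine le_trans ?_ h3
    calc h0 * t / 2 = ∑ B ∈ range nB, wB B * (h0 * t / 2) := by rw [← Finset.sum_mul, hw1, one_mul]
      _ ≤ ∑ B ∈ range nB, wB B * ∑ T ∈ range (K * t + 1), ∑ R ∈ range (S.p ^ S.rho), (nuF S t B T R).H L :=
          Finset.sum_le_sum fun B _ => hlow B
      _ ≤ ∑ B ∈ range nB, wB B * ∑ T ∈ range (K * t + 1), ∑ R ∈ range (S.p ^ S.rho),
            ∑ i ∈ range L, √(S.p * ((nuF S t B T R).mass * (nuF S t B T R).nc i)) :=
          Finset.sum_le_sum fun B _ => mul_le_mul_of_nonneg_left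
            (Finset.sum_le_sum fun T _ => Finset.sum_le_sum fun R _ => hHle B T R) (hw0 B)
      _ = ∑ i ∈ range L, ∑ B ∈ range nB, ∑ T ∈ range (K * t + 1), ∑ R ∈ range (S.p ^ S.rho),
            wB B * √(S.p * ((nuF S t B T R).mass * (nuF S t B T R).nc i)) := by
          symm
          rw [Finset.sum_comm]
          refine Finset.sum_congr rfl fun B _ => ?_
          simp only [Finset.mul_sum]
          rw [Finset.sum_comm]
          refine Finset.sum_congr rfl fun T _ => ?_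
          exact Finset.sum_comm
  -- the square
  have hAL0 : 0 ≤ ∑ i ∈ range L, A i := Finset.sum_nonneg fun i _ => hA0 i
  have hsq : (h0 * t / 2) ^ 2 ≤ L * S.p * ∑ i ∈ range L, A i := by
    rw [← Real.sqrt_mul (by positivity)] at hmain
    exact (Real.le_sqrt' (by positivity)).1 hmain
  have hLr : (L : ℝ) = S.N * M * t := by rw [hL]; push_cast; ring
  have hsum : 2 * (c1 * t) ≤ ∑ i ∈ range L, A i := by
    rw [hLr] at hsq
    have h3 : (h0 * t / 2) ^ 2 = (S.N * M * t * S.p) * (2 * (c1 * t)) := by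
      rw [hc1]
      field_simp
      ring
    rw [h3] at hsq
    exact le_of_mul_le_mul_left hsq (by positivity)
  -- drop the last indices
  have hdrop : ∑ i ∈ range L, A i ≤ ∑ i ∈ range (L - w + 1), A i + w := by
    rcases Nat.eq_zero_or_pos w with rfl | hw
    · have h3 : range L ⊆ range (L - 0 + 1) := by
        intro i hi
        rw [mem_range] at hi ⊢
        omega
      have h4 := Finset.sum_le_sum_of_subset_of_nonneg h3 (f := A) fun i _ _ => hA0 i
      simpa using h4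
    · by_cases hLw : L ≤ L - w + 1
      · have h3 : range L ⊆ range (L - w + 1) := by
          intro i hi
          rw [mem_range] at hi ⊢
          omega
        have h4 := Finset.sum_le_sum_of_subset_of_nonneg h3 (f := A) fun i _ _ => hA0 i
        have h5 : (0 : ℝ) ≤ w := Nat.cast_nonneg w
        linarith
      · push Not at hLw
        obtain ⟨k, hk⟩ : ∃ k, L = (L - w + 1) + k := ⟨L - (L - w + 1), by omega⟩
        have hkw : k ≤ w := by omega
        have h3 : ∑ i ∈ range L, A i = ∑ i ∈ range (L - w + 1), A i + ∑ i ∈ range k, A ((L - w + 1) + i) := by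
          conv_lhs => rw [hk]
          exact Finset.sum_range_add _ _ _
        rw [h3]
        have h4 : ∑ i ∈ range k, A ((L - w + 1) + i) ≤ w := by
          calc ∑ i ∈ range k, A ((L - w + 1) + i) ≤ ∑ i ∈ range k, (1 : ℝ) := Finset.sum_le_sum fun i _ => hA1 _
            _ = k := by simp
            _ ≤ w := by exact_mod_cast hkw
        linarith
  have hwt : (w : ℝ) ≤ c1 * t := by
    rw [div_le_iff₀ hc1pos] at ht3
    linarith
  show c1 * t ≤ ∑ i ∈ range (L - w + 1), A i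
  linarith

end PoolAgent.Helper28.EC
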