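import Pool.Agent.Helper28.EC.Fek
import Pool.Agent.Helper28.EC.Kap

/-!
# EC-KEY: a stationary family has nearly uniform windows with probability bounded below

Fix `w >= 1`, `δ > 0`; `ε = δ^2` small.  `L = N M t`, `A_i = ∑_B ω_B ∑_{T,R} nc_i`, `G_i = ∑_B ∑_{T,R} nc_i df_i(B)`, `df_i(B) = (ω.res (Nt+rho) B).df w i`.
Call `B` good at `i` if `df_i(B) <= ε ω_B`.  `A_i <= P(good_i) + G_i/ε` (for bad `B`: `ω_B < df_i(B)/ε`; for good `B`: `∑_{T,R} nc_i <= ∑ mass = 1`).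
`∑_i A_i >= c1 t` (`kap`), `∑_i G_i <= 4 w p^(3w) loss = o(t)` (`gain_total`, `loss`), so for large `t` some `i <= L - w` has `P(good_i) >= c1/(2 N M) =: 2 c2`.
Then `l = Nt + rho + i`, `df_i(B) = ∑_{y'<p^i} (res of res).df w 0` (`df_eq`), classes `y = B + p^(Nt+rho) y'` mod `p^l` (`sum_range_mul`), and by Markov the bad `y`
(those with `df > δ ω_l(y)`) above good `B` have total mass `<= (1/δ) ∑_{good B} df_i(B) <= ε/δ = δ`.  So `P(good y) >= 2 c2 - δ`; w.l.o.g. `δ <= c2`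
(the statement for a smaller `δ` is stronger).
-/

set_option autoImplicit false

namespace PoolAgent.Helper28.EC

open Finset Real

private theorem key_fam_eq {p : ℕ} {μ ν : Fam p} (h : μ.m = ν.m) : μ = ν := by
  cases μ
  cases ν
  simp only at h
  subst h
  rfl

private theorem key_res_res {p : ℕ} (μ : Fam p) (n i : ℕ) (y z : ℤ) :
    (μ.res n y).res i z = μ.res (n + i) (y + (p : ℤ) ^ n * z) := by
  apply key_fam_eq
  funext j e
  change μ.m (n + (i + j)) (y + (p : ℤ) ^ n * (z + (p : ℤ) ^ i * e)) =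
    μ.m (n + i + j) (y + (p : ℤ) ^ n * z + (p : ℤ) ^ (n + i) * e)
  rw [add_assoc n i j]
  congr 1
  ring

open Classical in
private theorem key_bind_sum (n : ℕ) (F : ℤ → ℝ) :
    (∑ a ∈ (do let a ← range n; pure (a : ℤ) : Finset ℤ), F a) = ∑ a ∈ range n, F a := by
  have h : (do let a ← range n; pure (a : ℤ) : Finset ℤ) = (range n).image (fun a : ℕ => (a : ℤ)) := by
    ext x
    simp [Finset.bind_def]
  rw [h, Finset.sum_image]
  intro a _ b _ hab
  exact Int.ofNat_inj.1 hab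

open Classical in
theorem key (S : Sys) (h2 : S.Two) (hsep : S.Sep) (M : ℕ) (hM : 1 ≤ M) (hoff : S.OffBd M) :
    ∃ c2 : ℝ, 0 < c2 ∧ ∀ ω : Fam S.p, Stat S ω → ∀ w : ℕ, 1 ≤ w → ∀ δ : ℝ, 0 < δ → ∃ l : ℕ, S.rho ≤ l ∧
      c2 ≤ ∑ y ∈ (range (S.p ^ l)).filter (fun y => (ω.res l (y : ℤ)).df w 0 ≤ δ * ω.m l (y : ℤ)), ω.m l (y : ℤ) := by
  obtain ⟨K, -, hK⟩ := S.tt_le
  obtain ⟨c1, hc1, hkap⟩ := kap S h2 hsep M hM hoff K hK
  have hN : (0 : ℝ) < S.N := by exact_mod_cast S.hN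
  have hM' : (0 : ℝ) < M := by exact_mod_cast hM
  have hp0 : (0 : ℝ) < S.p := by exact_mod_cast S.hp.pos
  obtain ⟨c2, hc2⟩ : ∃ c2 : ℝ, c2 = c1 / (4 * (S.N * M)) := ⟨_, rfl⟩
  have hc2pos : 0 < c2 := by rw [hc2]; positivity
  refine ⟨c2, hc2pos, ?_⟩
  intro ω hst w hw δ0 hδ0
  obtain ⟨δ, hδ⟩ : ∃ δ : ℝ, δ = min δ0 c2 := ⟨_, rfl⟩
  have hδpos : 0 < δ := by rw [hδ]; exact lt_min hδ0 hc2pos
  have hδ1 : δ ≤ δ0 := by rw [hδ]; exact min_le_left _ _
  have hδ2 : δ ≤ c2 := by rw [hδ]; exact min_le_right _ _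
  -- it is enough to treat the smaller `δ`
  suffices hmain : ∃ l : ℕ, S.rho ≤ l ∧
      c2 ≤ ∑ y ∈ (range (S.p ^ l)).filter (fun y => (ω.res l (y : ℤ)).df w 0 ≤ δ * ω.m l (y : ℤ)), ω.m l (y : ℤ) by
    obtain ⟨l, hl, hsum⟩ := hmain
    refine ⟨l, hl, hsum.trans ?_⟩
    refine Finset.sum_le_sum_of_subset_of_nonneg ?_ fun y _ _ => ω.nonneg _ _
    intro y hy
    rw [mem_filter] at hy ⊢
    exact ⟨hy.1, hy.2.trans (mul_le_mul_of_nonneg_right hδ1 (ω.nonneg _ _))⟩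
  obtain ⟨ε, hε⟩ : ∃ ε : ℝ, ε = δ ^ 2 := ⟨_, rfl⟩
  have hεpos : 0 < ε := by rw [hε]; positivity
  have hwr : (0 : ℝ) < w := by exact_mod_cast hw
  obtain ⟨Q, hQ⟩ : ∃ Q : ℝ, Q = 4 * w * (S.p : ℝ) ^ (3 * w) := ⟨_, rfl⟩
  have hQpos : 0 < Q := by rw [hQ]; positivity
  obtain ⟨t0, ht0⟩ := hkap w
  -- choice of `t`
  have hloss := loss S h2 ω hst M hM
  have hev : ∀ᶠ t : ℕ in Filter.atTop, (ω.H (S.N * M * t + S.rho) + ω.H (S.N * t + S.rho) -
      ω.H (S.N * M * t + (S.N * t + S.rho))) / t < c1 * ε / (4 * Q) :=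
    hloss.eventually_lt_const (by positivity)
  obtain ⟨t1, ht1⟩ := Filter.eventually_atTop.1 hev
  obtain ⟨t, htdef⟩ : ∃ t : ℕ, t = t0 + t1 + w + 1 := ⟨_, rfl⟩
  have htpos : (0 : ℝ) < t := by
    have : 0 < t := by omega
    exact_mod_cast this
  have hl1 := ht1 t (by omega)
  rw [div_lt_iff₀ htpos] at hl1
  have hk := ht0 ω hst t (by omega)
  obtain ⟨n, hn⟩ : ∃ n : ℕ, n = S.N * t + S.rho := ⟨_, rfl⟩
  obtain ⟨L, hL⟩ : ∃ L : ℕ, L = S.N * M * t := ⟨_, rfl⟩
  have hLt : t ≤ L := by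
    rw [hL]
    have : 1 ≤ S.N * M := Nat.mul_pos S.hN hM
    nlinarith
  have hwL : w ≤ L := by omega
  have hg := gain_total S h2 ω hst K hK t L w hw hwL
  rw [← hn, ← hL] at hk hl1
  rw [← hn, ← hQ] at hg
  -- notation
  set SB : ℕ → ℕ → ℝ := fun i B => ∑ T ∈ range (K * t + 1), ∑ R ∈ range (S.p ^ S.rho), (nuF S t (B : ℤ) T R).nc i with hSB
  set D : ℕ → ℕ → ℝ := fun i B => (ω.res n (B : ℤ)).df w i with hD
  set PG : ℕ → ℝ := fun i => ∑ B ∈ range (S.p ^ n), if D i B ≤ ε * ω.m n (B : ℤ) then ω.m n (B : ℤ) else 0 with hPG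
  have hSB0 : ∀ i B, 0 ≤ SB i B := fun i B =>
    Finset.sum_nonneg fun T _ => Finset.sum_nonneg fun R _ => nc_nonneg _ _
  have hD0 : ∀ i B, 0 ≤ D i B := fun i B => df_nonneg _ _ _
  have hSB1 : ∀ i (B : ℕ), S.alive (B : ℤ) → SB i B ≤ 1 := by
    intro i B hB
    rw [← nuF_mass S h2 K hK t (B : ℤ) hB]
    exact Finset.sum_le_sum fun T _ => Finset.sum_le_sum fun R _ => nc_le_mass _ _
  have hdead : ∀ (B : ℕ), ¬ S.alive (B : ℤ) → ω.m n (B : ℤ) = 0 := by
    intro B hB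
    exact hst.supp n (B : ℤ) (by omega) hB
  have hg' : ∑ i ∈ range (L - w + 1), ∑ B ∈ range (S.p ^ n), SB i B * D i B ≤
      Q * (ω.H (L + S.rho) + ω.H n - ω.H (L + n)) := by
    refine le_trans (le_of_eq ?_) hg
    refine Finset.sum_congr rfl fun i _ => Finset.sum_congr rfl fun B _ => ?_
    rw [hSB]
    simp only
    rw [Finset.sum_mul]
    exact Finset.sum_congr rfl fun T _ => by rw [Finset.sum_mul]
  have hA : ∀ i, ∑ B ∈ range (S.p ^ n), ω.m n (B : ℤ) * SB i B ≤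
      PG i + (∑ B ∈ range (S.p ^ n), SB i B * D i B) / ε := by
    intro i
    rw [hPG, Finset.sum_div]
    simp only
    rw [← Finset.sum_add_distrib]
    refine Finset.sum_le_sum fun B _ => ?_
    by_cases hgood : D i B ≤ ε * ω.m n (B : ℤ)
    · rw [if_pos hgood]
      have h1 : ω.m n (B : ℤ) * SB i B ≤ ω.m n (B : ℤ) := by
        by_cases hB : S.alive (B : ℤ)
        · exact mul_le_of_le_one_right (ω.nonneg _ _) (hSB1 i B hB)
        · rw [hdead B hB, zero_mul]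
      have h3 : 0 ≤ SB i B * D i B / ε := div_nonneg (mul_nonneg (hSB0 i B) (hD0 i B)) hεpos.le
      linarith
    · rw [if_neg hgood, zero_add]
      push Not at hgood
      have h1 : ω.m n (B : ℤ) ≤ D i B / ε := by
        rw [le_div_iff₀ hεpos, mul_comm]
        exact hgood.le
      calc ω.m n (B : ℤ) * SB i B ≤ D i B / ε * SB i B := mul_le_mul_of_nonneg_right h1 (hSB0 i B)
        _ = SB i B * D i B / ε := by ring
  -- the total over `i`
  have hPGsum : c1 * t / 2 < ∑ i ∈ range (L - w + 1), PG i := by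
    have h1 : c1 * t ≤ ∑ i ∈ range (L - w + 1), PG i +
        (∑ i ∈ range (L - w + 1), ∑ B ∈ range (S.p ^ n), SB i B * D i B) / ε := by
      refine hk.trans ?_
      rw [Finset.sum_div, ← Finset.sum_add_distrib]
      exact Finset.sum_le_sum fun i _ => hA i
    have h3 : (∑ i ∈ range (L - w + 1), ∑ B ∈ range (S.p ^ n), SB i B * D i B) / ε < c1 * t / 2 := by
      rw [div_lt_iff₀ hεpos]
      refine hg'.trans_lt ?_
      have h4 : Q * (ω.H (L + S.rho) + ω.H n - ω.H (L + n)) < Q * (c1 * ε / (4 * Q) * t) :=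
        mul_lt_mul_of_pos_left hl1 hQpos
      refine h4.trans_le ?_
      have h5 : Q * (c1 * ε / (4 * Q) * t) = c1 * ε * t / 4 := by
        field_simp
      rw [h5]
      have h6 : 0 < c1 * ε * t := by positivity
      nlinarith
    linarith
  obtain ⟨i, hi, hPGi⟩ : ∃ i ∈ range (L - w + 1), 2 * c2 ≤ PG i := by
    by_contra hcon
    push Not at hcon
    have h1 : ∑ i ∈ range (L - w + 1), PG i ≤ ∑ i ∈ range (L - w + 1), 2 * c2 :=
      Finset.sum_le_sum fun i hi => (hcon i hi).le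
    rw [Finset.sum_const, card_range, nsmul_eq_mul] at h1
    have h3 : ((L - w + 1 : ℕ) : ℝ) ≤ S.N * M * t := by
      have : L - w + 1 ≤ L := by omega
      calc ((L - w + 1 : ℕ) : ℝ) ≤ (L : ℝ) := by exact_mod_cast this
        _ = S.N * M * t := by rw [hL]; push_cast; ring
    have h4 : ((L - w + 1 : ℕ) : ℝ) * (2 * c2) ≤ S.N * M * t * (2 * c2) :=
      mul_le_mul_of_nonneg_right h3 (by positivity)
    have h5 : (S.N : ℝ) * M * t * (2 * c2) = c1 * t / 2 := by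
      rw [hc2]
      field_simp
      ring
    linarith
  -- the level
  refine ⟨n + i, by omega, ?_⟩
  have hmass : ∑ B ∈ range (S.p ^ n), ω.m n (B : ℤ) = 1 := by
    rw [ω.sum_eq_mass]
    exact hst.mass
  have hstep : ∀ B : ℕ, (if D i B ≤ ε * ω.m n (B : ℤ) then (1 - δ) * ω.m n (B : ℤ) else 0) ≤
      ∑ y ∈ range (S.p ^ i), (if (ω.res (n + i) ((B + S.p ^ n * y : ℕ) : ℤ)).df w 0 ≤
        δ * ω.m (n + i) ((B + S.p ^ n * y : ℕ) : ℤ) then ω.m (n + i) ((B + S.p ^ n * y : ℕ) : ℤ) else 0) := by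
    intro B
    split_ifs with hgood
    · have h1 : ∀ y ∈ range (S.p ^ i), ω.m (n + i) ((B + S.p ^ n * y : ℕ) : ℤ) -
          (ω.res (n + i) ((B + S.p ^ n * y : ℕ) : ℤ)).df w 0 / δ ≤
          (if (ω.res (n + i) ((B + S.p ^ n * y : ℕ) : ℤ)).df w 0 ≤
            δ * ω.m (n + i) ((B + S.p ^ n * y : ℕ) : ℤ) then ω.m (n + i) ((B + S.p ^ n * y : ℕ) : ℤ) else 0) := by
        intro y _
        have h0 : 0 ≤ (ω.res (n + i) ((B + S.p ^ n * y : ℕ) : ℤ)).df w 0 := df_nonneg _ _ _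
        split_ifs with hy
        · have := div_nonneg h0 hδpos.le
          linarith
        · push Not at hy
          have : ω.m (n + i) ((B + S.p ^ n * y : ℕ) : ℤ) ≤
              (ω.res (n + i) ((B + S.p ^ n * y : ℕ) : ℤ)).df w 0 / δ := by
            rw [le_div_iff₀ hδpos, mul_comm]
            exact hy.le
          linarith
      refine le_trans ?_ (Finset.sum_le_sum h1)
      rw [Finset.sum_sub_distrib, ← Finset.sum_div]
      have h3 : ∑ y ∈ range (S.p ^ i), ω.m (n + i) ((B + S.p ^ n * y : ℕ) : ℤ) = ω.m n (B : ℤ) := by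
        rw [ω.cons_iter n i (B : ℤ)]
        refine Finset.sum_congr rfl fun y _ => ?_
        push_cast
        rfl
      have h4 : ∑ y ∈ range (S.p ^ i), (ω.res (n + i) ((B + S.p ^ n * y : ℕ) : ℤ)).df w 0 = D i B := by
        rw [hD]
        simp only
        rw [df_eq]
        refine Finset.sum_congr rfl fun y _ => ?_
        rw [key_res_res]
        push_cast
        rfl
      rw [h3, h4]
      have h5 : D i B / δ ≤ δ * ω.m n (B : ℤ) := by
        rw [div_le_iff₀ hδpos]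
        calc D i B ≤ ε * ω.m n (B : ℤ) := hgood
          _ = δ * ω.m n (B : ℤ) * δ := by rw [hε]; ring
      linarith
    · exact Finset.sum_nonneg fun y _ => by
        split_ifs
        · exact ω.nonneg _ _
        · exact le_rfl
  rw [Finset.sum_filter, key_bind_sum, pow_add, sum_range_mul]
  refine le_trans ?_ (Finset.sum_le_sum fun B _ => hstep B)
  have h6 : ∑ B ∈ range (S.p ^ n), (if D i B ≤ ε * ω.m n (B : ℤ) then (1 - δ) * ω.m n (B : ℤ) else 0) =
      PG i - δ * PG i := by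
    rw [hPG]
    simp only
    rw [Finset.mul_sum, ← Finset.sum_sub_distrib]
    refine Finset.sum_congr rfl fun B _ => ?_
    split_ifs
    · ring
    · ring
  rw [h6]
  have h7 : PG i ≤ 1 := by
    rw [← hmass, hPG]
    simp only
    refine Finset.sum_le_sum fun B _ => ?_
    split_ifs
    · exact le_rfl
    · exact ω.nonneg _ _
  have h8 : δ * PG i ≤ δ * 1 := mul_le_mul_of_nonneg_left h7 hδpos.le
  linarith

end PoolAgent.Helper28.EC
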