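import Pool.Agent.Helper28.EC.En
import Pool.Agent.Helper66.EC.LocZ

/-!
# EC-LOC: entropy gain of a convolution on `Z/p^w` (helper8's lemma LOC, homogeneous form)

`q`, `ν` nonnegative, periodic modulo `n = p^w`, masses `Q`, `V` over `range n`.  Claim:
`V En(q) + (1/(4 p^(3w))) (V - ∑_e ν(c = e mod p)^2 / V) (Q w log p - En(q)) <= En(q * ν)`.
Proof for `Q = V = 1` (the general case by scaling, `en_smul`; if `Q = 0` or `V = 0` everything is 0):
* `φ(x) + x^2/2` is concave on `[0,1]` (`φ'' = -1/x <= -1`), so for every `x`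
  `φ(∑_c ν_c q(x-c)) - ∑_c ν_c φ(q(x-c)) >= (1/2) Var = (1/4) ∑_{c,c'} ν_c ν_c' (q(x-c) - q(x-c'))^2`.  Sum over `x`:
  `En(q*ν) - En(q) >= (1/4) ∑_{c,c'} ν_c ν_c' ‖q - q^(c'-c)‖^2`, `q^(h)(x) = q(x-h)` (sums over `range n`, squared 2-norms).
* if `c <> c' mod p` then `h = c'-c` is a unit mod `n`, the translates of `q` by `j h`, `j < n`, average to the uniform law `un = 1/n`, and
  `‖q - un‖ <= (1/n) ∑_{j<n} ‖q - q^(jh)‖ <= (1/n) ∑_j j ‖q - q^(h)‖ <= n ‖q - q^(h)‖`.  So `En(q*ν) - En(q) >= (1/4) n^(-2) (1 - coll) ‖q-un‖^2`.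
* `w log p - En(q) = ∑ q log(n q) <= ∑ q (n q - 1) = n ‖q - un‖^2`.
It may be convenient to work on `ZMod (p^w)` and to transfer.
-/

set_option autoImplicit false

namespace PoolAgent.Helper28.EC

open Finset Real

open PoolAgent.Helper66.LocZ

/-- The normalised statement. -/
theorem loc_one {p : ℕ} (hp : p.Prime) (w : ℕ) (hw : 1 ≤ w) (q ν : ℤ → ℝ)
    (hq : ∀ x, 0 ≤ q x) (hν : ∀ x, 0 ≤ ν x)
    (hqp : ∀ x z, q (x + (p : ℤ) ^ w * z) = q x) (hνp : ∀ x z, ν (x + (p : ℤ) ^ w * z) = ν x)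
    (hq1 : ∑ x ∈ range (p ^ w), q (x : ℤ) = 1) (hν1 : ∑ c ∈ range (p ^ w), ν (c : ℤ) = 1) :
    En (range (p ^ w)) (fun x => q (x : ℤ)) +
      1 / (4 * (p : ℝ) ^ (3 * w)) *
        ((1 - ∑ e ∈ range p, (∑ c ∈ range (p ^ (w - 1)), ν ((e : ℤ) + p * c)) ^ 2) *
          (w * Real.log p - En (range (p ^ w)) (fun x => q (x : ℤ)))) ≤
      En (range (p ^ w)) (fun x => ∑ c ∈ range (p ^ w), ν (c : ℤ) * q ((x : ℤ) - c)) := by
  obtain ⟨n, hn⟩ : ∃ n : ℕ, n = p ^ w := ⟨_, rfl⟩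
  have hpos : 0 < n := by rw [hn]; exact pow_pos hp.pos w
  have : NeZero n := ⟨hpos.ne'⟩
  have hn0 : (0 : ℝ) < n := by exact_mod_cast hpos
  have hnz : (p : ℤ) ^ w = (n : ℤ) := by rw [hn]; push_cast; rfl
  rw [hnz] at hqp hνp
  -- functions on `ZMod n`
  set Q : ZMod n → ℝ := fun z => q (z.val : ℤ) with hQ
  set N : ZMod n → ℝ := fun z => ν (z.val : ℤ) with hN
  have hcast : ∀ (f : ℤ → ℝ), (∀ x z, f (x + (n : ℤ) * z) = f x) → ∀ x : ℤ, f x = f (((x : ZMod n).val : ℕ) : ℤ) := by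
    intro f hf x
    have h1 : (((((x : ZMod n).val : ℕ) : ℤ)) : ZMod n) = (x : ZMod n) := by
      push_cast
      exact ZMod.natCast_zmod_val _
    have h2 := (ZMod.intCast_eq_intCast_iff_dvd_sub _ _ _).1 h1
    obtain ⟨z, hz⟩ := h2
    have h3 : x = (((x : ZMod n).val : ℕ) : ℤ) + (n : ℤ) * z := by linarith
    conv_lhs => rw [h3]
    rw [hf]
  have hqQ : ∀ x : ℤ, q x = Q (x : ZMod n) := fun x => hcast q hqp x
  have hνN : ∀ x : ℤ, ν x = N (x : ZMod n) := fun x => hcast ν hνp x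
  rw [← hn] at hq1 hν1 ⊢
  have hqQ' : ∀ x : ℕ, q (x : ℤ) = Q (x : ZMod n) := fun x => by rw [hqQ]; push_cast; rfl
  have hνN' : ∀ x : ℕ, ν (x : ℤ) = N (x : ZMod n) := fun x => by rw [hνN]; push_cast; rfl
  have hQ1 : ∑ z, Q z = 1 := by
    rw [← hq1, ← sum_range_zmod Q]
    exact Finset.sum_congr rfl fun x _ => (hqQ' x).symm
  have hN1 : ∑ z, N z = 1 := by
    rw [← hν1, ← sum_range_zmod N]
    exact Finset.sum_congr rfl fun x _ => (hνN' x).symm
  have hEq : En (range n) (fun x => q (x : ℤ)) = ∑ z, Real.negMulLog (Q z) := by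
    unfold En
    rw [hq1, Real.negMulLog_one, sub_zero, ← sum_range_zmod (fun z => Real.negMulLog (Q z))]
    exact Finset.sum_congr rfl fun x _ => by show Real.negMulLog (q (x : ℤ)) = _; rw [hqQ']
  have hconv : ∀ x : ℕ, ∑ c ∈ range n, ν (c : ℤ) * q ((x : ℤ) - c) = ∑ c, N c * Q ((x : ZMod n) - c) := by
    intro x
    rw [← sum_range_zmod (fun c => N c * Q ((x : ZMod n) - c))]
    refine Finset.sum_congr rfl fun c _ => ?_
    rw [hνN', hqQ]
    push_cast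
    rfl
  have hEc : En (range n) (fun x => ∑ c ∈ range n, ν (c : ℤ) * q ((x : ℤ) - c)) =
      ∑ z, Real.negMulLog (∑ c, N c * Q (z - c)) := by
    unfold En
    simp only [hconv]
    rw [sum_range_zmod (fun z => Real.negMulLog (∑ c, N c * Q (z - c))), sum_range_zmod (fun z => ∑ c, N c * Q (z - c))]
    have e1 : ∑ z, ∑ c, N c * Q (z - c) = 1 := by
      rw [Finset.sum_comm]
      have e2 : ∀ c, ∑ z, N c * Q (z - c) = N c := by
        intro c
        rw [← Finset.mul_sum, sum_shift Q c, hQ1, mul_one]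
      simp only [e2]
      exact hN1
    rw [e1, Real.negMulLog_one, sub_zero]
  rw [hEq, hEc]
  have hgain := conv_gain Q N (fun z => hq _) (fun z => hν _) hQ1 hN1
  refine le_trans ?_ hgain
  have hlog : (w : ℝ) * Real.log p = Real.log n := by
    rw [hn]
    push_cast
    rw [Real.log_pow]
  have hn3 : (p : ℝ) ^ (3 * w) = (n : ℝ) ^ 3 := by
    rw [hn]
    push_cast
    rw [← pow_mul]
    congr 1
    ring
  rw [hlog, hn3]
  -- the sum over pairs
  obtain ⟨U, hU⟩ : ∃ U : ℝ, U = ∑ x, (Q x - 1 / n) ^ 2 := ⟨_, rfl⟩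
  have hU0 : 0 ≤ U := by rw [hU]; exact Finset.sum_nonneg fun _ _ => sq_nonneg _
  have hdef := deficit Q (fun z => hq _) hQ1
  rw [← hU] at hdef
  set Aw : ℕ → ℝ := fun e => ∑ c ∈ range (p ^ (w - 1)), ν ((e : ℤ) + p * c) with hAw
  have hAw0 : ∀ e, 0 ≤ Aw e := fun e => Finset.sum_nonneg fun c _ => hν _
  have hnp : n = p * p ^ (w - 1) := by
    rw [hn]
    conv_lhs => rw [show w = (w - 1) + 1 by omega, pow_succ]
    ring
  have hsumN : ∀ f : ZMod n → ℝ, ∑ c, f c = ∑ e ∈ range p, ∑ c ∈ range (p ^ (w - 1)), f ((e + p * c : ℕ) : ZMod n) := by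
    intro f
    rw [← sum_range_zmod f]
    have hr : range n = range (p * p ^ (w - 1)) := by rw [← hnp]
    rw [hr, sum_range_mul]
  have hNe : ∀ e c : ℕ, N ((e + p * c : ℕ) : ZMod n) = ν ((e : ℤ) + p * c) := by
    intro e c
    rw [← hνN']
    push_cast
    rfl
  have hAsum : ∑ e ∈ range p, Aw e = 1 := by
    rw [← hN1, hsumN N]
    refine Finset.sum_congr rfl fun e _ => ?_
    rw [hAw]
    exact Finset.sum_congr rfl fun c _ => (hNe e c).symm
  have hpair : ∀ e ∈ range p, ∀ e' ∈ range p, e ≠ e' → ∀ c c' : ℕ,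
      U ≤ (n : ℝ) ^ 2 * ∑ x, (Q (x - ((e + p * c : ℕ) : ZMod n)) - Q (x - ((e' + p * c' : ℕ) : ZMod n))) ^ 2 := by
    intro e he e' he' hne c c'
    rw [Finset.mem_range] at he he'
    obtain ⟨h, hh⟩ : ∃ h : ℤ, h = ((e' : ℤ) + p * c') - (e + p * c) := ⟨_, rfl⟩
    have hu : IsUnit ((h : ℤ) : ZMod n) := by
      rw [ZMod.coe_int_isUnit_iff_isCoprime, ← hnz]
      apply IsCoprime.pow_left
      rw [Prime.coprime_iff_not_dvd (Nat.prime_iff_prime_int.1 hp)]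
      intro hd
      have h1 : (p : ℤ) ∣ (e' : ℤ) - e := by
        have h2 : (e' : ℤ) - e = h + p * (c - c') := by rw [hh]; ring
        rw [h2]
        exact dvd_add hd (dvd_mul_right _ _)
      have h3 := Int.eq_zero_of_abs_lt_dvd h1 (by
        rw [abs_lt]
        constructor <;> omega)
      omega
    have h2 := unit_shift Q hQ1 hu
    rw [← hU] at h2
    refine h2.trans (le_of_eq ?_)
    congr 1
    rw [← sum_shift (fun x => (Q x - Q (x - (h : ZMod n))) ^ 2) ((e + p * c : ℕ) : ZMod n)]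
    refine Finset.sum_congr rfl fun x _ => ?_
    have h4 : x - ((e + p * c : ℕ) : ZMod n) - (h : ZMod n) = x - ((e' + p * c' : ℕ) : ZMod n) := by
      rw [hh]
      push_cast
      ring
    rw [h4]
  have hmain : (1 - ∑ e ∈ range p, Aw e ^ 2) * (U / (n : ℝ) ^ 2) ≤
      ∑ c, ∑ c', N c * N c' * ∑ x, (Q (x - c) - Q (x - c')) ^ 2 := by
    have e1 : ∑ c, ∑ c', N c * N c' * ∑ x, (Q (x - c) - Q (x - c')) ^ 2 =
        ∑ e ∈ range p, ∑ e' ∈ range p, ∑ c ∈ range (p ^ (w - 1)), ∑ c' ∈ range (p ^ (w - 1)),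
          N ((e + p * c : ℕ) : ZMod n) * N ((e' + p * c' : ℕ) : ZMod n) *
            ∑ x, (Q (x - ((e + p * c : ℕ) : ZMod n)) - Q (x - ((e' + p * c' : ℕ) : ZMod n))) ^ 2 := by
      rw [hsumN]
      refine Finset.sum_congr rfl fun e _ => ?_
      symm
      rw [Finset.sum_comm]
      refine Finset.sum_congr rfl fun c _ => ?_
      rw [hsumN]
    rw [e1]
    have e2 : (1 - ∑ e ∈ range p, Aw e ^ 2) * (U / (n : ℝ) ^ 2) =
        ∑ e ∈ range p, ∑ e' ∈ range p, (if e = e' then 0 else Aw e * Aw e' * (U / (n : ℝ) ^ 2)) := by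
      have e3 : ∀ e ∈ range p, ∑ e' ∈ range p, (if e = e' then 0 else Aw e * Aw e' * (U / (n : ℝ) ^ 2)) =
          Aw e * (U / (n : ℝ) ^ 2) - Aw e ^ 2 * (U / (n : ℝ) ^ 2) := by
        intro e he
        have e4 : ∀ e' ∈ range p, (if e = e' then 0 else Aw e * Aw e' * (U / (n : ℝ) ^ 2)) =
            Aw e * Aw e' * (U / (n : ℝ) ^ 2) - (if e = e' then Aw e * Aw e' * (U / (n : ℝ) ^ 2) else 0) := by
          intro e' _
          split_ifs <;> ring
        rw [Finset.sum_congr rfl e4, Finset.sum_sub_distrib, Finset.sum_ite_eq, if_pos he, ← Finset.sum_mul,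
          ← Finset.mul_sum, hAsum]
        ring
      rw [Finset.sum_congr rfl e3, Finset.sum_sub_distrib, ← Finset.sum_mul, hAsum, ← Finset.sum_mul]
      ring
    rw [e2]
    refine Finset.sum_le_sum fun e he => Finset.sum_le_sum fun e' he' => ?_
    have hnn : ∀ c c' : ℕ, 0 ≤ N ((e + p * c : ℕ) : ZMod n) * N ((e' + p * c' : ℕ) : ZMod n) *
        ∑ x, (Q (x - ((e + p * c : ℕ) : ZMod n)) - Q (x - ((e' + p * c' : ℕ) : ZMod n))) ^ 2 := by
      intro c c'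
      refine mul_nonneg (mul_nonneg (hν _) (hν _)) (Finset.sum_nonneg fun _ _ => sq_nonneg _)
    split_ifs with hee
    · exact Finset.sum_nonneg fun c _ => Finset.sum_nonneg fun c' _ => hnn c c'
    · have e5 : Aw e * Aw e' * (U / (n : ℝ) ^ 2) = ∑ c ∈ range (p ^ (w - 1)), ∑ c' ∈ range (p ^ (w - 1)),
          N ((e + p * c : ℕ) : ZMod n) * N ((e' + p * c' : ℕ) : ZMod n) * (U / (n : ℝ) ^ 2) := by
        simp only [hNe]
        simp only [← Finset.sum_mul]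
        rw [← Finset.sum_mul_sum]
      rw [e5]
      refine Finset.sum_le_sum fun c _ => Finset.sum_le_sum fun c' _ => ?_
      refine mul_le_mul_of_nonneg_left ?_ (mul_nonneg (hν _) (hν _))
      rw [div_le_iff₀ (by positivity), mul_comm]
      exact hpair e he e' he' hee c c'
  have hcoll : 0 ≤ 1 - ∑ e ∈ range p, Aw e ^ 2 := by
    have e1 : ∑ e ∈ range p, Aw e ^ 2 ≤ ∑ e ∈ range p, Aw e := by
      refine Finset.sum_le_sum fun e he => ?_
      have e2 : Aw e ≤ 1 := by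
        rw [← hAsum]
        exact Finset.single_le_sum (fun e _ => hAw0 e) he
      nlinarith [hAw0 e]
    rw [hAsum] at e1
    linarith
  have hfin : 1 / (4 * (n : ℝ) ^ 3) * ((1 - ∑ e ∈ range p, Aw e ^ 2) * (Real.log n - ∑ z, Real.negMulLog (Q z))) ≤
      1 / 4 * ((1 - ∑ e ∈ range p, Aw e ^ 2) * (U / (n : ℝ) ^ 2)) := by
    have e1 : (1 - ∑ e ∈ range p, Aw e ^ 2) * (Real.log n - ∑ z, Real.negMulLog (Q z)) ≤
        (1 - ∑ e ∈ range p, Aw e ^ 2) * (n * U) := mul_le_mul_of_nonneg_left hdef hcoll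
    have e2 := mul_le_mul_of_nonneg_left e1 (show 0 ≤ 1 / (4 * (n : ℝ) ^ 3) by positivity)
    refine e2.trans (le_of_eq ?_)
    field_simp
  have hm4 := mul_le_mul_of_nonneg_left hmain (show (0 : ℝ) ≤ 1 / 4 by norm_num)
  linarith

theorem loc {p : ℕ} (hp : p.Prime) (w : ℕ) (hw : 1 ≤ w) (q ν : ℤ → ℝ)
    (hq : ∀ x, 0 ≤ q x) (hν : ∀ x, 0 ≤ ν x)
    (hqp : ∀ x z, q (x + (p : ℤ) ^ w * z) = q x) (hνp : ∀ x z, ν (x + (p : ℤ) ^ w * z) = ν x) :
    (∑ c ∈ range (p ^ w), ν c) * En (range (p ^ w)) (fun x => q (x : ℤ)) +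
      1 / (4 * (p : ℝ) ^ (3 * w)) *
        (((∑ c ∈ range (p ^ w), ν c) -
            (∑ e ∈ range p, (∑ c ∈ range (p ^ (w - 1)), ν ((e : ℤ) + p * c)) ^ 2) / (∑ c ∈ range (p ^ w), ν c)) *
          ((∑ x ∈ range (p ^ w), q x) * (w * Real.log p) - En (range (p ^ w)) (fun x => q (x : ℤ)))) ≤
      En (range (p ^ w)) (fun x => ∑ c ∈ range (p ^ w), ν (c : ℤ) * q ((x : ℤ) - c)) := by
  obtain ⟨V, hV⟩ : ∃ V : ℝ, V = ∑ c ∈ range (p ^ w), ν (c : ℤ) := ⟨_, rfl⟩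
  obtain ⟨M, hM⟩ : ∃ M : ℝ, M = ∑ x ∈ range (p ^ w), q (x : ℤ) := ⟨_, rfl⟩
  rw [← hV, ← hM]
  have hV0 : 0 ≤ V := by rw [hV]; exact Finset.sum_nonneg fun _ _ => hν _
  have hM0 : 0 ≤ M := by rw [hM]; exact Finset.sum_nonneg fun _ _ => hq _
  have hnn : 0 ≤ En (range (p ^ w)) (fun x => ∑ c ∈ range (p ^ w), ν (c : ℤ) * q ((x : ℤ) - c)) :=
    en_nonneg _ _ fun x _ => Finset.sum_nonneg fun c _ => mul_nonneg (hν _) (hq _)
  rcases hV0.eq_or_lt with h0 | hVpos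
  · rw [← h0]
    simpa using hnn
  rcases hM0.eq_or_lt with h0 | hMpos
  · have hz : ∀ x ∈ range (p ^ w), q (x : ℤ) = 0 := by
      rw [hM] at h0
      exact (Finset.sum_eq_zero_iff_of_nonneg (fun _ _ => hq _)).1 h0.symm
    have hE : En (range (p ^ w)) (fun x => q (x : ℤ)) = 0 := by
      unfold En
      rw [← hM, ← h0, Real.negMulLog_zero, sub_zero]
      refine Finset.sum_eq_zero fun x hx => ?_
      show Real.negMulLog (q (x : ℤ)) = 0
      rw [hz x hx, Real.negMulLog_zero]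
    rw [hE, ← h0]
    simpa using hnn
  have h1 := loc_one hp w hw (fun x => M⁻¹ * q x) (fun x => V⁻¹ * ν x) (fun x => mul_nonneg (inv_nonneg.2 hM0) (hq x))
    (fun x => mul_nonneg (inv_nonneg.2 hV0) (hν x)) (fun x z => by rw [hqp]) (fun x z => by rw [hνp])
    (by rw [← Finset.mul_sum, ← hM]; exact inv_mul_cancel₀ hMpos.ne')
    (by rw [← Finset.mul_sum, ← hV]; exact inv_mul_cancel₀ hVpos.ne')
  rw [en_smul] at h1
  have e1 : (fun x : ℕ => ∑ c ∈ range (p ^ w), V⁻¹ * ν (c : ℤ) * (M⁻¹ * q ((x : ℤ) - c))) =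
      fun x : ℕ => (V⁻¹ * M⁻¹) * ∑ c ∈ range (p ^ w), ν (c : ℤ) * q ((x : ℤ) - c) := by
    funext x
    rw [Finset.mul_sum]
    exact Finset.sum_congr rfl fun c _ => by ring
  rw [e1, en_smul] at h1
  have e2 : ∑ e ∈ range p, (∑ c ∈ range (p ^ (w - 1)), V⁻¹ * ν ((e : ℤ) + p * c)) ^ 2 =
      V⁻¹ ^ 2 * ∑ e ∈ range p, (∑ c ∈ range (p ^ (w - 1)), ν ((e : ℤ) + p * c)) ^ 2 := by
    rw [Finset.mul_sum]
    refine Finset.sum_congr rfl fun e _ => ?_
    rw [← Finset.mul_sum, mul_pow]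
  rw [e2] at h1
  have h2 := mul_le_mul_of_nonneg_left h1 (mul_pos hVpos hMpos).le
  set E1 := En (range (p ^ w)) (fun x => q (x : ℤ))
  set E2 := En (range (p ^ w)) (fun x => ∑ c ∈ range (p ^ w), ν (c : ℤ) * q ((x : ℤ) - c))
  set S2 := ∑ e ∈ range p, (∑ c ∈ range (p ^ (w - 1)), ν ((e : ℤ) + p * c)) ^ 2
  have e3 : V * M * (V⁻¹ * M⁻¹ * E2) = E2 := by field_simp
  have e4 : V * M * (M⁻¹ * E1 + 1 / (4 * (p : ℝ) ^ (3 * w)) * ((1 - V⁻¹ ^ 2 * S2) * (w * Real.log p - M⁻¹ * E1))) =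
      V * E1 + 1 / (4 * (p : ℝ) ^ (3 * w)) * ((V - S2 / V) * (M * (w * Real.log p) - E1)) := by
    field_simp
  rw [e3, e4] at h2
  exact h2

end PoolAgent.Helper28.EC
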