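import Pool.Agent.Helper28.EC.Chain

/-!
# EC-MINR: minorisation, one more step

`s` is alive: `ω_{rho+N}(s) > 0` and `hst.supp`.  Let `w0` be a letter valid at `s` (`h2`), `R = child w0 s`, `pr w0 s > 0`, `c4 = c3 * pr w0 s / p^N`.  Let `j >= rho`, `x = R mod p^rho`,
`x = R + p^rho v`.  Choose `z` with `d^(tau w0) z = v mod p^j` (`d` is a unit) and `y = s + p^(N+rho) z`, reduced mod `p^(j+N)` to a `y0` in `range (p^(j+N))`.  Then
`child w0 y0 = R + p^rho d^tau z = x mod p^j` (`child_shift`, `pr_per`), so `ω_j(x) >= ω_{j+N}(y0) pr w0 y0 >= c3 p^(-(j+N)) pr w0 s` (`hst.inv`, one term of the sum).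
-/

set_option autoImplicit false

namespace PoolAgent.Helper28.EC

open Finset Real

theorem minor_R (S : Sys) (h2 : S.Two) (ω : Fam S.p) (hst : Stat S ω) (c3 : ℝ) (hc3 : 0 < c3)
    (h : ∃ s : ℤ, ∀ (j : ℕ) (x : ℤ), S.rho + S.N ≤ j → x ≡ s [ZMOD (S.p : ℤ) ^ (S.rho + S.N)] →
      c3 ≤ (S.p : ℝ) ^ j * ω.m j x) :
    ∃ (R : ℤ) (c4 : ℝ), 0 < c4 ∧ ∀ (j : ℕ) (x : ℤ), S.rho ≤ j → x ≡ R [ZMOD (S.p : ℤ) ^ S.rho] →
      c4 ≤ (S.p : ℝ) ^ j * ω.m j x := by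
  obtain ⟨s, hs⟩ := h
  have hp0 : (0 : ℝ) < S.p := by exact_mod_cast S.hp.pos
  -- `s` is alive
  have hal : S.alive s := by
    by_contra hna
    have h1 := hs (S.rho + S.N) s le_rfl (Int.ModEq.refl s)
    rw [hst.supp (S.rho + S.N) s (Nat.le_add_right _ _) hna, mul_zero] at h1
    linarith
  obtain ⟨w0, _, _, hw0, _⟩ := h2 s hal
  have hpr := S.pr_pos w0 s hw0
  refine ⟨S.child w0 s, c3 * S.pr w0 s / (S.p : ℝ) ^ S.N, by positivity, fun j x hj hx => ?_⟩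
  obtain ⟨v, hv⟩ := hx.symm.dvd
  have hcop : IsCoprime (S.d ^ S.tau w0) ((S.p : ℤ) ^ j) := by
    refine IsCoprime.pow ?_
    have hpp : Prime (S.p : ℤ) := Nat.prime_iff_prime_int.1 S.hp
    exact ((Prime.coprime_iff_not_dvd hpp).2 S.hd).symm
  obtain ⟨a, b, hab⟩ := hcop
  set z : ℤ := a * v with hz
  set y : ℤ := s + (S.p : ℤ) ^ (S.N + S.rho) * z with hy
  set n : ℕ := S.p ^ (j + S.N) with hn
  have hn0 : 0 < n := pow_pos S.hp.pos _
  have hnZ : (n : ℤ) = (S.p : ℤ) ^ (j + S.N) := by rw [hn]; push_cast; rfl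
  have hnpos : (0 : ℤ) < n := by exact_mod_cast hn0
  have h1 := Int.emod_nonneg y hnpos.ne'
  have h2' := Int.emod_lt_of_pos y hnpos
  obtain ⟨y0, hy0⟩ := Int.eq_ofNat_of_zero_le h1
  have hy0n : y0 < n := by
    rw [hy0] at h2'
    exact_mod_cast h2'
  have hyy : (y0 : ℤ) = y + (S.p : ℤ) ^ (S.N + j) * (-(y / n)) := by
    have e := Int.emod_add_mul_ediv y n
    rw [hy0] at e
    have e2 : (S.p : ℤ) ^ (S.N + j) = n := by rw [hnZ, add_comm]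
    rw [e2]
    linarith
  -- the letter `w0` at `y` and `y0`
  have hpy : S.pr w0 y = S.pr w0 s := by rw [hy, S.pr_per]
  have hdy : (S.p : ℤ) ^ S.N ∣ S.d ^ S.tau w0 * y + S.off w0 :=
    (S.valid_of_pr w0 y (by rw [hpy]; exact hpr.ne')).1
  have hys : (y0 : ℤ) = s + (S.p : ℤ) ^ (S.N + S.rho) * (z + (S.p : ℤ) ^ (j - S.rho) * (-(y / n))) := by
    rw [hyy, hy]
    have e : (S.p : ℤ) ^ (S.N + j) = (S.p : ℤ) ^ (S.N + S.rho) * (S.p : ℤ) ^ (j - S.rho) := by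
      rw [← pow_add]
      congr 1
      omega
    rw [e]
    ring
  have hpy0 : S.pr w0 (y0 : ℤ) = S.pr w0 s := by rw [hys, S.pr_per]
  have hchild : S.child w0 (y0 : ℤ) ≡ x [ZMOD (S.p : ℤ) ^ j] := by
    have e1 : S.child w0 (y0 : ℤ) = S.child w0 y + (S.p : ℤ) ^ j * (S.d ^ S.tau w0 * (-(y / n))) := by
      rw [hyy, S.child_shift w0 y _ j hdy]
    have e2 : S.child w0 y = S.child w0 s + (S.p : ℤ) ^ S.rho * (S.d ^ S.tau w0 * z) := by
      rw [hy, S.child_shift w0 s _ S.rho hw0.1]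
    have e3 : S.d ^ S.tau w0 * z = v + (S.p : ℤ) ^ j * (-(b * v)) := by
      rw [hz]
      linear_combination v * hab
    have e4 : S.child w0 (y0 : ℤ) = x + (S.p : ℤ) ^ j *
        ((S.p : ℤ) ^ S.rho * (-(b * v)) + S.d ^ S.tau w0 * (-(y / n))) := by
      rw [e1, e2, e3]
      linear_combination -hv
    rw [e4]
    exact (Int.modEq_iff_dvd.2 ⟨-((S.p : ℤ) ^ S.rho * (-(b * v)) + S.d ^ S.tau w0 * (-(y / n))), by ring⟩)
  -- the mass of `y0`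
  have hm : c3 ≤ (S.p : ℝ) ^ (j + S.N) * ω.m (j + S.N) (y0 : ℤ) := by
    refine hs (j + S.N) (y0 : ℤ) (Nat.add_le_add_right hj _) ?_
    rw [hys, add_comm S.rho S.N]
    exact (Int.modEq_iff_dvd.2 ⟨-(z + (S.p : ℤ) ^ (j - S.rho) * (-(y / n))), by ring⟩)
  have hinv := hst.inv j x hj
  have hge : ω.m (j + S.N) (y0 : ℤ) * S.pr w0 s ≤ ω.m j x := by
    rw [hinv]
    have h3 : S.pr w0 s ≤ ∑ w : S.ι, if S.child w (y0 : ℤ) ≡ x [ZMOD (S.p : ℤ) ^ j] then S.pr w (y0 : ℤ) else 0 := by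
      refine le_trans ?_ (Finset.single_le_sum (f := fun w => if S.child w (y0 : ℤ) ≡ x [ZMOD (S.p : ℤ) ^ j]
        then S.pr w (y0 : ℤ) else 0) (fun w _ => ?_) (Finset.mem_univ w0))
      · rw [if_pos hchild, hpy0]
      · split_ifs
        · exact S.pr_nonneg w _
        · exact le_rfl
    refine (mul_le_mul_of_nonneg_left h3 (ω.nonneg _ _)).trans ?_
    refine Finset.single_le_sum (f := fun y : ℕ => ω.m (j + S.N) (y : ℤ) *
      ∑ w : S.ι, if S.child w (y : ℤ) ≡ x [ZMOD (S.p : ℤ) ^ j] then S.pr w (y : ℤ) else 0)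
      (fun y _ => mul_nonneg (ω.nonneg _ _) (Finset.sum_nonneg fun w _ => ?_)) (Finset.mem_range.2 hy0n)
    split_ifs
    · exact S.pr_nonneg w _
    · exact le_rfl
  have hpj : (0 : ℝ) < (S.p : ℝ) ^ j := by positivity
  have hpN : (0 : ℝ) < (S.p : ℝ) ^ S.N := by positivity
  rw [div_le_iff₀ hpN]
  calc c3 * S.pr w0 s ≤ ((S.p : ℝ) ^ (j + S.N) * ω.m (j + S.N) (y0 : ℤ)) * S.pr w0 s :=
        mul_le_mul_of_nonneg_right hm hpr.le
    _ = ((S.p : ℝ) ^ j * (ω.m (j + S.N) (y0 : ℤ) * S.pr w0 s)) * (S.p : ℝ) ^ S.N := by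
        rw [pow_add]; ring
    _ ≤ ((S.p : ℝ) ^ j * ω.m j x) * (S.p : ℝ) ^ S.N :=
        mul_le_mul_of_nonneg_right (mul_le_mul_of_nonneg_left hge hpj.le) hpN.le

end PoolAgent.Helper28.EC
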