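import Pool.Agent.Helper28.EC.Fam

/-!
# EC-MINS: minorisation, pigeonhole over the classes

For every `w` choose a class `s'` mod `p^(rho+N)` with `s' = s mod p^r` (`r <= rho + N`; e.g. `s' = s % p^(rho+N)`).  Finitely many `s'` in `[0, p^(rho+N))`, infinitely many `w`: some `s'` is chosen
for arbitrarily large `w`.  Given `j >= rho + N` and `x = s' mod p^(rho+N)` take such a `w` with `r + w >= j`: by consistency (`Fam.cons_iter`, from the level `j` to `r + w = j + k`)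
`ω_j(x) = ∑_{e<p^k} ω_{j+k}(x + p^j e) >= p^k c3 p^(-(j+k)) = c3 p^(-j)`.
-/

set_option autoImplicit false

namespace PoolAgent.Helper28.EC

open Finset Real

theorem minor_S (S : Sys) (ω : Fam S.p) (c3 : ℝ) (hc3 : 0 < c3)
    (h : ∀ w : ℕ, 1 ≤ w → ∃ (r : ℕ) (s : ℤ), S.rho ≤ r ∧ r < S.rho + S.N ∧
      ∀ x : ℤ, x ≡ s [ZMOD (S.p : ℤ) ^ r] → c3 ≤ (S.p : ℝ) ^ (r + w) * ω.m (r + w) x) :
    ∃ s : ℤ, ∀ (j : ℕ) (x : ℤ), S.rho + S.N ≤ j → x ≡ s [ZMOD (S.p : ℤ) ^ (S.rho + S.N)] →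
      c3 ≤ (S.p : ℝ) ^ j * ω.m j x := by
  have hp : 0 < S.p := S.hp.pos
  have hpR : (0 : ℝ) < S.p := by exact_mod_cast hp
  choose r s hr1 hr2 hs using fun w : ℕ => h (w + 1) (by omega)
  set n : ℕ := S.p ^ (S.rho + S.N) with hn
  have hn0 : 0 < n := by positivity
  have hn0' : (0 : ℤ) < (n : ℤ) := by exact_mod_cast hn0
  -- the class modulo `p^(rho+N)`
  let F : ℕ → Fin n := fun w => ⟨(s w % (n : ℤ)).toNat, by
    have h1 := Int.emod_lt_of_pos (s w) hn0'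
    have h2 := Int.emod_nonneg (s w) hn0'.ne'
    omega⟩
  obtain ⟨y, hy⟩ := Finite.exists_infinite_fiber F
  have hinf : (F ⁻¹' {y}).Infinite := Set.infinite_coe_iff.1 hy
  refine ⟨((y : ℕ) : ℤ), ?_⟩
  intro j x hj hx
  obtain ⟨w, hwy, hwj⟩ := hinf.exists_gt j
  have hFw : (F w : ℕ) = (y : ℕ) := by
    have h1 : F w = y := hwy
    rw [h1]
  have hsy : s w ≡ ((y : ℕ) : ℤ) [ZMOD (S.p : ℤ) ^ (S.rho + S.N)] := by
    have h1 : ((F w : ℕ) : ℤ) = s w % (n : ℤ) := by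
      show (((s w % (n : ℤ)).toNat : ℕ) : ℤ) = _
      exact Int.toNat_of_nonneg (Int.emod_nonneg (s w) hn0'.ne')
    rw [← hFw, h1, hn, Nat.cast_pow]
    exact (Int.mod_modEq _ _).symm
  obtain ⟨k, hk⟩ : ∃ k, r w + (w + 1) = j + k := ⟨r w + (w + 1) - j, by omega⟩
  have hbound : ∀ e ∈ range (S.p ^ k), c3 ≤ (S.p : ℝ) ^ (j + k) * ω.m (j + k) (x + (S.p : ℤ) ^ j * e) := by
    intro e _
    rw [← hk]
    refine hs w _ ?_
    have h1 : x ≡ s w [ZMOD (S.p : ℤ) ^ r w] :=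
      (hx.trans hsy.symm).of_dvd (pow_dvd_pow _ (hr2 w).le)
    have h2 : (S.p : ℤ) ^ j * e ≡ 0 [ZMOD (S.p : ℤ) ^ r w] := by
      rw [Int.modEq_zero_iff_dvd]
      have hrj : r w ≤ j := by have := hr2 w; omega
      exact (pow_dvd_pow _ hrj).mul_right _
    have h3 := h1.add h2
    rwa [add_zero] at h3
  have hsum := Finset.sum_le_sum hbound
  rw [Finset.sum_const, card_range, nsmul_eq_mul, ← Finset.mul_sum, ← ω.cons_iter j k x, Nat.cast_pow] at hsum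
  have hpk : (0 : ℝ) < (S.p : ℝ) ^ k := by positivity
  have h4 : (S.p : ℝ) ^ k * c3 ≤ (S.p : ℝ) ^ k * ((S.p : ℝ) ^ j * ω.m j x) := by
    calc (S.p : ℝ) ^ k * c3 ≤ (S.p : ℝ) ^ (j + k) * ω.m j x := hsum
      _ = _ := by rw [pow_add]; ring
  exact le_of_mul_le_mul_left h4 hpk

end PoolAgent.Helper28.EC
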