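import Pool.Agent.Helper28.EC.En

/-!
# EC-UNIF: nearly maximal entropy implies nearly uniform

`φ(x) + x^2/2` is concave on `[0,1]` (`φ = negMulLog`, `φ'' = -1/x <= -1`), so for a law `q` on `n` points `H(q) + (1/2) ∑ q^2 <= n (φ(1/n) + 1/(2 n^2)) = log n + 1/(2n)`, i.e.
`∑ (q - 1/n)^2 = ∑ q^2 - 1/n <= 2 (log n - H(q))`.  Homogeneous version for mass `Q > 0`: apply to
`q/Q` (`en_smul`); `Q = 0` is trivial since then all `q e = 0`.
-/

set_option autoImplicit false

namespace PoolAgent.Helper28.EC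

open Finset Real

/-- Strong concavity of `φ` on `[0,1]`. -/
theorem concave_aux : ConcaveOn ℝ (Set.Icc (0 : ℝ) 1) (fun x => Real.negMulLog x + x ^ 2 / 2) := by
  refine AntitoneOn.concaveOn_of_deriv (convex_Icc 0 1) ?_ ?_ ?_
  · exact (Real.continuous_negMulLog.add (by fun_prop)).continuousOn
  · rw [interior_Icc]
    intro x hx
    have h1 : DifferentiableAt ℝ Real.negMulLog x := Real.differentiableAt_negMulLog hx.1.ne'
    exact (h1.add (by fun_prop)).differentiableWithinAt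
  · rw [interior_Icc]
    have hd : ∀ x ∈ Set.Ioo (0 : ℝ) 1, deriv (fun x => Real.negMulLog x + x ^ 2 / 2) x = -Real.log x - 1 + x := by
      intro x hx
      have h1 : HasDerivAt Real.negMulLog (-Real.log x - 1) x := Real.hasDerivAt_negMulLog hx.1.ne'
      have h2 : HasDerivAt (fun x : ℝ => x ^ 2 / 2) x x := by
        have := (hasDerivAt_pow 2 x).div_const 2
        simpa using this
      exact (h1.add h2).deriv
    intro x hx y hy hxy
    rw [hd x hx, hd y hy]
    have hx0 := hx.1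
    have hy0 := hy.1
    have h1 : 1 - (y / x)⁻¹ ≤ Real.log (y / x) := Real.one_sub_inv_le_log_of_pos (div_pos hy0 hx0)
    rw [Real.log_div hy0.ne' hx0.ne', inv_div] at h1
    have h2 : y - x ≤ 1 - x / y := by
      rw [show (1 : ℝ) - x / y = (y - x) / y by field_simp]
      rw [le_div_iff₀ hy0]
      nlinarith [hy.2.le, hxy]
    linarith

/-- The case of total mass 1. -/
theorem near_unif_one (n : ℕ) (hn : 1 ≤ n) (q : ℕ → ℝ) (hq : ∀ e ∈ range n, 0 ≤ q e) (hs : ∑ e ∈ range n, q e = 1) :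
    ∑ e ∈ range n, (q e - 1 / n) ^ 2 ≤ 2 * (Real.log n - En (range n) q) := by
  have hn0 : (0 : ℝ) < n := by exact_mod_cast hn
  have hq1 : ∀ e ∈ range n, q e ≤ 1 := fun e he => by
    rw [← hs]; exact Finset.single_le_sum hq he
  have h1 := concave_aux.le_map_sum (t := range n) (w := fun _ => (1 : ℝ) / n) (p := q)
    (fun _ _ => by positivity) (by rw [Finset.sum_const, Finset.card_range, nsmul_eq_mul]; field_simp)
    (fun e he => ⟨hq e he, hq1 e he⟩)
  simp only [smul_eq_mul] at h1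
  rw [← Finset.mul_sum, ← Finset.mul_sum, hs, mul_one, Finset.sum_add_distrib, ← Finset.sum_div] at h1
  have h2 : Real.negMulLog (1 / n) = Real.log n / n := by
    rw [Real.negMulLog, Real.log_div one_ne_zero hn0.ne', Real.log_one]; ring
  rw [h2] at h1
  have h3 := mul_le_mul_of_nonneg_left h1 hn0.le
  have h4 : (n : ℝ) * (1 / n * (∑ e ∈ range n, Real.negMulLog (q e) + (∑ e ∈ range n, q e ^ 2) / 2)) =
      ∑ e ∈ range n, Real.negMulLog (q e) + (∑ e ∈ range n, q e ^ 2) / 2 := by field_simp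
  have h5 : (n : ℝ) * (Real.log n / n + (1 / (n : ℝ)) ^ 2 / 2) = Real.log n + 1 / n / 2 := by field_simp
  rw [h4, h5] at h3
  have h6 : ∑ e ∈ range n, (q e - 1 / n) ^ 2 = ∑ e ∈ range n, q e ^ 2 - 1 / n := by
    have : ∀ e, (q e - 1 / n) ^ 2 = q e ^ 2 - 2 / n * q e + (1 / (n : ℝ)) ^ 2 := fun e => by ring
    simp only [this]
    rw [Finset.sum_add_distrib, Finset.sum_sub_distrib, ← Finset.mul_sum, hs, Finset.sum_const, Finset.card_range,
      nsmul_eq_mul]
    field_simp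
    ring
  have h7 : En (range n) q = ∑ e ∈ range n, Real.negMulLog (q e) := by
    unfold En
    rw [hs]; simp
  rw [h6, h7]
  linarith

theorem near_unif (n : ℕ) (hn : 1 ≤ n) (q : ℕ → ℝ) (hq : ∀ e ∈ range n, 0 ≤ q e) (δ : ℝ) (hδ : 0 ≤ δ)
    (h : (∑ e ∈ range n, q e) * Real.log n - En (range n) q ≤ δ * ∑ e ∈ range n, q e) (e : ℕ) (he : e ∈ range n) :
    (∑ e ∈ range n, q e) * (1 / n - Real.sqrt (2 * δ)) ≤ q e := by
  set Q : ℝ := ∑ e ∈ range n, q e with hQ
  have hQ0 : 0 ≤ Q := Finset.sum_nonneg hq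
  rcases hQ0.eq_or_lt with h0 | h0
  · rw [← h0, zero_mul]; exact hq e he
  have h1 := near_unif_one n hn (fun e => Q⁻¹ * q e) (fun e he => mul_nonneg (inv_nonneg.2 hQ0) (hq e he))
    (by rw [← Finset.mul_sum, ← hQ]; exact inv_mul_cancel₀ h0.ne')
  rw [en_smul] at h1
  have h2 : Real.log n - Q⁻¹ * En (range n) q ≤ δ := by
    have h3 := mul_le_mul_of_nonneg_left h (inv_nonneg.2 hQ0)
    have h4 : Q⁻¹ * (Q * Real.log n - En (range n) q) = Real.log n - Q⁻¹ * En (range n) q := by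
      field_simp
    have h5 : Q⁻¹ * (δ * Q) = δ := by field_simp
    rw [h4, h5] at h3
    exact h3
  have h3 : (Q⁻¹ * q e - 1 / n) ^ 2 ≤ ∑ e ∈ range n, (Q⁻¹ * q e - 1 / n) ^ 2 :=
    Finset.single_le_sum (f := fun e => (Q⁻¹ * q e - 1 / n) ^ 2) (fun _ _ => sq_nonneg _) he
  have h4 : (Q⁻¹ * q e - 1 / n) ^ 2 ≤ 2 * δ := by linarith
  have h5 := Real.abs_le_sqrt h4
  have h6 := (abs_le.1 h5).1
  have h7 : Q * (1 / n - Real.sqrt (2 * δ)) ≤ Q * (Q⁻¹ * q e) := mul_le_mul_of_nonneg_left (by linarith) hQ0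
  rwa [← mul_assoc, mul_inv_cancel₀ h0.ne', one_mul] at h7

end PoolAgent.Helper28.EC
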