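import Pool.Agent.Helper28.EC.Dig
import Pool.Agent.Helper28.EC.Iter
import Pool.Agent.Helper28.EC.Unif

/-!
# EC-MINW: minorisation, first half of section D of h28_PRE5_alt.md

`j = (l - rho)/N`, `r = l - N j` in `[rho, rho+N)`.  `stat_iter` with `j` steps at the level `r + w` (`r + w + N j = l + w`), `y = y0 + p^l e` (`y0 < p^l`, `e < p^w`,
`sum_range_mul`): `pc u y = pc u y0` (`pc_per`, `N j + rho <= l`), `cc u y = cc u y0 + p^r d^(tt u) e` (`cc_shift`, `k = r`).  For good `y0` (those of the filter in `hkey`)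
`near_unif` with `n = p^w` gives `ω_{l+w}(y0 + p^l e) >= ω_l(y0) p^(-w)/2` for every `e` (`(ω.res l y0).df w 0 = mass * (w log p) - (H w - H 0)`, `H_zero`,
`H w = En (range (p^w)) ...` by definition), and for each `u` with `cc u y0 = x mod p^r` exactly one `e < p^w` has `cc u y0 + p^r d^(tt u) e = x mod p^(r+w)` (`d` is a unit).
So `ω_{r+w}(x) >= (p^(-w)/2) v(x)`, `v(s) = ∑_{y0 good} ω_l(y0) ∑_u pc u y0 [cc u y0 = s mod p^r]`, `∑_{s<p^r} v(s) = ω(good) >= c2`
(`pc_sum`; good `y0` of positive mass are alive by `hst.supp`), so some `s` has `v(s) >= c2/p^r`.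
-/

set_option autoImplicit false

namespace PoolAgent.Helper28.EC

open Finset Real

/-- The classes above a good class are nearly uniform. -/
private theorem mw_unif (S : Sys) (ω : Fam S.p) (w : ℕ) (δ : ℝ) (hδ : 0 < δ)
    (hδw : Real.sqrt (2 * δ) ≤ 1 / (2 * (S.p : ℝ) ^ w)) (l : ℕ) (y : ℤ)
    (hy : (ω.res l y).df w 0 ≤ δ * ω.m l y) (e : ℕ) (he : e ∈ range (S.p ^ w)) :
    ω.m l y * (1 / (2 * (S.p : ℝ) ^ w)) ≤ ω.m (l + w) (y + (S.p : ℤ) ^ l * e) := by
  have hp : (0 : ℝ) < (S.p : ℝ) := by exact_mod_cast S.hp.pos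
  have hn : 1 ≤ S.p ^ w := Nat.one_le_pow _ _ S.hp.pos
  have hsum : ∑ e ∈ range (S.p ^ w), (ω.res l y).m w (e : ℤ) = ω.m l y := by
    rw [Fam.sum_eq_mass, Fam.res_mass]
  have h := near_unif (S.p ^ w) hn (fun e => (ω.res l y).m w (e : ℤ)) (fun e _ => (ω.res l y).nonneg _ _)
    δ hδ.le ?_ e he
  · rw [hsum] at h
    have h1 : ω.m l y * (1 / (2 * (S.p : ℝ) ^ w)) ≤ ω.m l y * (1 / ((S.p ^ w : ℕ) : ℝ) - Real.sqrt (2 * δ)) := by
      refine mul_le_mul_of_nonneg_left ?_ (ω.nonneg _ _)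
      have h2 : (1 : ℝ) / ((S.p ^ w : ℕ) : ℝ) = 1 / (2 * (S.p : ℝ) ^ w) + 1 / (2 * (S.p : ℝ) ^ w) := by
        push_cast
        field_simp
        norm_num
      rw [h2]
      linarith
    exact h1.trans h
  · rw [hsum]
    have h3 : (ω.res l y).df w 0 = ω.m l y * (w * Real.log S.p) -
        En (range (S.p ^ w)) (fun e => (ω.res l y).m w (e : ℤ)) := by
      unfold Fam.df
      rw [H_zero, Fam.res_mass, zero_add, sub_zero]
      rfl
    rw [h3] at hy
    rw [Nat.cast_pow, Real.log_pow]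
    exact hy

/-- Solving `c + p^r D e = x` modulo `p^(r+w)`. -/
private theorem mw_solve (p : ℕ) (hp : p.Prime) (D : ℤ) (hD : ¬ (p : ℤ) ∣ D) (r w : ℕ) (c x : ℤ)
    (h : c ≡ x [ZMOD (p : ℤ) ^ r]) :
    ∃ e ∈ range (p ^ w), c + (p : ℤ) ^ r * (D * (e : ℤ)) ≡ x [ZMOD (p : ℤ) ^ (r + w)] := by
  obtain ⟨z, hz⟩ := h.dvd
  have hcop : IsCoprime D ((p : ℤ) ^ w) := by
    apply IsCoprime.pow_right
    rw [isCoprime_comm]
    exact (Prime.coprime_iff_not_dvd (Nat.prime_iff_prime_int.1 hp)).2 hD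
  obtain ⟨a, b, hab⟩ := hcop
  have hn : (0 : ℤ) < (p : ℤ) ^ w := pow_pos (by exact_mod_cast hp.pos) w
  refine ⟨((a * z) % (p : ℤ) ^ w).toNat, ?_, ?_⟩
  · rw [mem_range]
    have h1 := Int.emod_lt_of_pos (a * z) hn
    have h2 := Int.emod_nonneg (a * z) hn.ne'
    zify
    rw [Int.toNat_of_nonneg h2]
    exact h1
  · rw [Int.toNat_of_nonneg (Int.emod_nonneg _ hn.ne'), Int.modEq_iff_dvd]
    have h3 : (a * z) % (p : ℤ) ^ w = a * z - (p : ℤ) ^ w * ((a * z) / (p : ℤ) ^ w) := by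
      have := Int.emod_add_mul_ediv (a * z) ((p : ℤ) ^ w)
      linarith
    rw [h3]
    refine ⟨b * z + D * ((a * z) / (p : ℤ) ^ w), ?_⟩
    have h4 : x = c + (p : ℤ) ^ r * z := by linarith
    rw [h4, pow_add]
    linear_combination (-((p : ℤ) ^ r * z)) * hab

open Classical in
/-- The lower bound by the good classes. -/
private theorem mw_lower (S : Sys) (ω : Fam S.p) (hst : Stat S ω) (w : ℕ) (δ : ℝ) (hδ : 0 < δ)
    (hδw : Real.sqrt (2 * δ) ≤ 1 / (2 * (S.p : ℝ) ^ w)) (r j : ℕ) (hr : S.rho ≤ r) (x : ℤ)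
    (G : Finset ℕ) (hG : G ⊆ range (S.p ^ (r + S.N * j)))
    (hgood : ∀ y ∈ G, (ω.res (r + S.N * j) (y : ℤ)).df w 0 ≤ δ * ω.m (r + S.N * j) (y : ℤ)) :
    (1 / (2 * (S.p : ℝ) ^ w)) * ∑ y ∈ G, ω.m (r + S.N * j) (y : ℤ) *
      (∑ u ∈ S.chains j, if S.cc u y ≡ x [ZMOD (S.p : ℤ) ^ r] then S.pc u y else 0) ≤ ω.m (r + w) x := by
  have hp : (0 : ℝ) < (S.p : ℝ) := by exact_mod_cast S.hp.pos
  rw [stat_iter S ω hst j (r + w) x (by omega)]
  have e1 : r + w + S.N * j = (r + S.N * j) + w := by ring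
  rw [e1, pow_add S.p (r + S.N * j) w, sum_range_mul, Finset.mul_sum]
  refine le_trans (Finset.sum_le_sum ?_) (Finset.sum_le_sum_of_subset_of_nonneg hG ?_)
  · intro y hy
    have hper : ∀ u ∈ S.chains j, ∀ e : ℕ, S.pc u (((y + S.p ^ (r + S.N * j) * e : ℕ) : ℤ)) = S.pc u y := by
      intro u hu e
      have hlen : u.length = j := (S.mem_chains j u).1 hu
      have := S.pc_per u (y : ℤ) ((S.p : ℤ) ^ (r - S.rho) * e)
      rw [← this]
      congr 1
      push_cast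
      congr 1
      rw [← mul_assoc, ← pow_add]
      congr 2
      rw [hlen]
      omega
    have hq : ∀ e ∈ range (S.p ^ w), ω.m (r + S.N * j) (y : ℤ) * (1 / (2 * (S.p : ℝ) ^ w)) ≤
        ω.m ((r + S.N * j) + w) (((y + S.p ^ (r + S.N * j) * e : ℕ) : ℤ)) := by
      intro e he
      have := mw_unif S ω w δ hδ hδw (r + S.N * j) (y : ℤ) (hgood y hy) e he
      push_cast
      exact this
    calc (1 / (2 * (S.p : ℝ) ^ w)) * (ω.m (r + S.N * j) (y : ℤ) *
          (∑ u ∈ S.chains j, if S.cc u y ≡ x [ZMOD (S.p : ℤ) ^ r] then S.pc u y else 0))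
        = (ω.m (r + S.N * j) (y : ℤ) * (1 / (2 * (S.p : ℝ) ^ w))) *
          (∑ u ∈ S.chains j, if S.cc u y ≡ x [ZMOD (S.p : ℤ) ^ r] then S.pc u y else 0) := by ring
      _ ≤ (ω.m (r + S.N * j) (y : ℤ) * (1 / (2 * (S.p : ℝ) ^ w))) *
          (∑ e ∈ range (S.p ^ w), ∑ u ∈ S.chains j,
            if S.cc u (((y + S.p ^ (r + S.N * j) * e : ℕ) : ℤ)) ≡ x [ZMOD (S.p : ℤ) ^ (r + w)] then
              S.pc u (((y + S.p ^ (r + S.N * j) * e : ℕ) : ℤ)) else 0) := by
          refine mul_le_mul_of_nonneg_left ?_ (mul_nonneg (ω.nonneg _ _) (by positivity))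
          rw [Finset.sum_comm]
          refine Finset.sum_le_sum fun u hu => ?_
          have hnn : ∀ e ∈ range (S.p ^ w), (0 : ℝ) ≤
              if S.cc u (((y + S.p ^ (r + S.N * j) * e : ℕ) : ℤ)) ≡ x [ZMOD (S.p : ℤ) ^ (r + w)] then
              S.pc u (((y + S.p ^ (r + S.N * j) * e : ℕ) : ℤ)) else 0 := by
            intro e _
            split_ifs
            · exact S.pc_nonneg _ _
            · exact le_rfl
          by_cases hc : S.cc u y ≡ x [ZMOD (S.p : ℤ) ^ r]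
          · rw [if_pos hc]
            by_cases h0 : S.pc u (y : ℤ) = 0
            · rw [h0]
              exact Finset.sum_nonneg hnn
            · have hD : ¬ (S.p : ℤ) ∣ S.d ^ S.tt u := fun hd =>
                S.hd ((Nat.prime_iff_prime_int.1 S.hp).dvd_of_dvd_pow hd)
              obtain ⟨e, he, hes⟩ := mw_solve S.p S.hp (S.d ^ S.tt u) hD r w _ x hc
              refine le_trans (le_of_eq ?_) (Finset.single_le_sum hnn he)
              have hlen : u.length = j := (S.mem_chains j u).1 hu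
              have hcc : S.cc u (((y + S.p ^ (r + S.N * j) * e : ℕ) : ℤ)) =
                  S.cc u y + (S.p : ℤ) ^ r * (S.d ^ S.tt u * e) := by
                have := S.cc_shift u (y : ℤ) (e : ℤ) r h0
                rw [← this]
                congr 1
                push_cast
                congr 3
                rw [hlen]
                ring
              rw [hcc, if_pos hes, hper u hu e]
          · rw [if_neg hc]
            exact Finset.sum_nonneg hnn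
      _ = ∑ e ∈ range (S.p ^ w), (ω.m (r + S.N * j) (y : ℤ) * (1 / (2 * (S.p : ℝ) ^ w))) *
          (∑ u ∈ S.chains j,
            if S.cc u (((y + S.p ^ (r + S.N * j) * e : ℕ) : ℤ)) ≡ x [ZMOD (S.p : ℤ) ^ (r + w)] then
              S.pc u (((y + S.p ^ (r + S.N * j) * e : ℕ) : ℤ)) else 0) := Finset.mul_sum _ _ _
      _ ≤ _ := by
          refine Finset.sum_le_sum fun e he => ?_
          refine mul_le_mul_of_nonneg_right (hq e he) (Finset.sum_nonneg fun u _ => ?_)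
          split_ifs
          · exact S.pc_nonneg _ _
          · exact le_rfl
  · intro y _ _
    refine Finset.sum_nonneg fun e _ => mul_nonneg (ω.nonneg _ _) (Finset.sum_nonneg fun u _ => ?_)
    split_ifs
    · exact S.pc_nonneg _ _
    · exact le_rfl

/-- Exactly one residue. -/
private theorem mw_one (p : ℕ) (hp : 0 < p) (r : ℕ) (c : ℤ) (a : ℝ) :
    ∑ s ∈ range (p ^ r), (if c ≡ (s : ℤ) [ZMOD (p : ℤ) ^ r] then a else 0) = a := by
  have hn : (0 : ℤ) < (p : ℤ) ^ r := pow_pos (by exact_mod_cast hp) r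
  have h2 := Int.emod_nonneg c hn.ne'
  have h1 := Int.emod_lt_of_pos c hn
  rw [Finset.sum_eq_single (c % (p : ℤ) ^ r).toNat]
  · rw [if_pos]
    rw [Int.toNat_of_nonneg h2]
    exact (Int.mod_modEq c _).symm
  · intro b hb hne
    rw [if_neg]
    intro h
    apply hne
    have h3 : c % (p : ℤ) ^ r = b := by
      have h4 : c % (p : ℤ) ^ r = (b : ℤ) % (p : ℤ) ^ r := h
      rw [h4, Int.emod_eq_of_lt (by positivity)]
      exact_mod_cast mem_range.1 hb
    rw [h3]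
    simp
  · intro hne
    exfalso
    apply hne
    rw [mem_range]
    zify
    rw [Int.toNat_of_nonneg h2]
    exact h1

theorem minor_w (S : Sys) (h2 : S.Two) (ω : Fam S.p) (hst : Stat S ω) (c2 : ℝ) (hc2 : 0 < c2) (w : ℕ) (hw : 1 ≤ w)
    (δ : ℝ) (hδ : 0 < δ) (hδw : Real.sqrt (2 * δ) ≤ 1 / (2 * (S.p : ℝ) ^ w)) (l : ℕ) (hl : S.rho ≤ l)
    (hkey : open Classical in c2 ≤ ∑ y ∈ (range (S.p ^ l)).filter (fun y => (ω.res l (y : ℤ)).df w 0 ≤ δ * ω.m l (y : ℤ)),
      ω.m l (y : ℤ)) :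
    ∃ (r : ℕ) (s : ℤ), S.rho ≤ r ∧ r < S.rho + S.N ∧
      ∀ x : ℤ, x ≡ s [ZMOD (S.p : ℤ) ^ r] → c2 / 2 ≤ (S.p : ℝ) ^ (r + w) * ω.m (r + w) x := by
  classical
  have hp : (0 : ℝ) < (S.p : ℝ) := by exact_mod_cast S.hp.pos
  have hN := S.hN
  obtain ⟨j, r, hr1, hr2, hlr⟩ : ∃ j r : ℕ, S.rho ≤ r ∧ r < S.rho + S.N ∧ l = r + S.N * j := by
    refine ⟨(l - S.rho) / S.N, S.rho + (l - S.rho) % S.N, by omega, ?_, ?_⟩
    · have := Nat.mod_lt (l - S.rho) (show 0 < S.N by omega)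
      omega
    · have := Nat.mod_add_div (l - S.rho) S.N
      omega
  subst hlr
  set G : Finset ℕ := (range (S.p ^ (r + S.N * j))).filter
    (fun y => (ω.res (r + S.N * j) (y : ℤ)).df w 0 ≤ δ * ω.m (r + S.N * j) (y : ℤ)) with hGdef
  have hkey' : c2 ≤ ∑ y ∈ G, ω.m (r + S.N * j) (y : ℤ) := by
    refine hkey.trans (le_of_eq ?_)
    have hset : (do let a ← range (S.p ^ (r + S.N * j)); pure (a : ℤ) : Finset ℤ) =
        (range (S.p ^ (r + S.N * j))).image (fun a : ℕ => (a : ℤ)) := by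
      ext a
      simp only [Finset.fmap_def, bind_pure_comp, eq_comm, Finset.mem_image]
    rw [hset, Finset.filter_image, Finset.sum_image (fun a _ b _ h => by simpa using h)]
  set v : ℤ → ℝ := fun x => ∑ y ∈ G, ω.m (r + S.N * j) (y : ℤ) *
      (∑ u ∈ S.chains j, if S.cc u y ≡ x [ZMOD (S.p : ℤ) ^ r] then S.pc u y else 0) with hv
  have hvsum : ∑ s ∈ range (S.p ^ r), v (s : ℤ) = ∑ y ∈ G, ω.m (r + S.N * j) (y : ℤ) := by
    rw [hv]
    simp only
    rw [Finset.sum_comm]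
    refine Finset.sum_congr rfl fun y _ => ?_
    rw [← Finset.mul_sum, Finset.sum_comm]
    have h3 : ∀ u ∈ S.chains j, ∑ s ∈ range (S.p ^ r),
        (if S.cc u y ≡ (s : ℤ) [ZMOD (S.p : ℤ) ^ r] then S.pc u (y : ℤ) else 0) = S.pc u (y : ℤ) :=
      fun u _ => mw_one S.p S.hp.pos r _ _
    rw [Finset.sum_congr rfl h3]
    by_cases ha : S.alive (y : ℤ)
    · rw [S.pc_sum h2 j _ ha, mul_one]
    · rw [hst.supp _ _ hl ha, zero_mul]
  obtain ⟨s, hs, hvs⟩ : ∃ s ∈ range (S.p ^ r), c2 / (S.p : ℝ) ^ r ≤ v (s : ℤ) := by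
    by_contra hcon
    push Not at hcon
    have hne : (range (S.p ^ r)).Nonempty := by
      rw [Finset.nonempty_range_iff]
      exact (pow_pos S.hp.pos r).ne'
    have h4 : ∑ s ∈ range (S.p ^ r), v (s : ℤ) < ∑ s ∈ range (S.p ^ r), c2 / (S.p : ℝ) ^ r :=
      Finset.sum_lt_sum_of_nonempty hne hcon
    rw [hvsum, Finset.sum_const, card_range, nsmul_eq_mul, Nat.cast_pow, mul_div_cancel₀ _ (by positivity)] at h4
    linarith
  refine ⟨r, (s : ℤ), hr1, hr2, fun x hx => ?_⟩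
  have hlow := mw_lower S ω hst w δ hδ hδw r j hr1 x G (Finset.filter_subset _ _)
    (fun y hy => (Finset.mem_filter.1 hy).2)
  have hvx : v x = v (s : ℤ) := by
    rw [hv]
    simp only
    refine Finset.sum_congr rfl fun y _ => ?_
    congr 1
    refine Finset.sum_congr rfl fun u _ => ?_
    have : (S.cc u y ≡ x [ZMOD (S.p : ℤ) ^ r]) ↔ (S.cc u y ≡ (s : ℤ) [ZMOD (S.p : ℤ) ^ r]) :=
      ⟨fun h => h.trans hx, fun h => h.trans hx.symm⟩
    simp only [this]
  have h5 : (1 / (2 * (S.p : ℝ) ^ w)) * v x ≤ ω.m (r + w) x := by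
    rw [hv]
    convert hlow using 2
  rw [hvx] at h5
  have h6 : (1 / (2 * (S.p : ℝ) ^ w)) * (c2 / (S.p : ℝ) ^ r) ≤ ω.m (r + w) x :=
    (mul_le_mul_of_nonneg_left hvs (by positivity)).trans h5
  calc c2 / 2 = (S.p : ℝ) ^ (r + w) * ((1 / (2 * (S.p : ℝ) ^ w)) * (c2 / (S.p : ℝ) ^ r)) := by
        rw [pow_add]
        field_simp
    _ ≤ _ := mul_le_mul_of_nonneg_left h6 (by positivity)


end PoolAgent.Helper28.EC
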