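import Pool.Agent.Helper28.EC.Key
import Pool.Agent.Helper28.EC.MinorW
import Pool.Agent.Helper28.EC.MinorS
import Pool.Agent.Helper28.EC.MinorR

/-!
# EC-MIN: minorisation (section D of h28_PRE5_alt.md), assembly
-/

set_option autoImplicit false

namespace PoolAgent.Helper28.EC

open Finset Real

/-- Every stationary family is bounded below by a positive multiple of the uniform law on some class modulo `p^rho`. -/
def Minor (S : Sys) : Prop := ∀ ω : Fam S.p, Stat S ω → ∃ (R : ℤ) (c4 : ℝ), 0 < c4 ∧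
    ∀ (j : ℕ) (x : ℤ), S.rho ≤ j → x ≡ R [ZMOD (S.p : ℤ) ^ S.rho] → c4 ≤ (S.p : ℝ) ^ j * ω.m j x

theorem minor (S : Sys) (h2 : S.Two) (hsep : S.Sep) (M : ℕ) (hM : 1 ≤ M) (hoff : S.OffBd M) : Minor S := by
  obtain ⟨c2, hc2, hkey⟩ := key S h2 hsep M hM hoff
  intro ω hst
  have hp : (0 : ℝ) < (S.p : ℝ) := by exact_mod_cast S.hp.pos
  refine minor_R S h2 ω hst (c2 / 2) (by positivity) (minor_S S ω (c2 / 2) (by positivity) ?_)
  intro w hw
  have hδ : (0 : ℝ) < 1 / (8 * (S.p : ℝ) ^ (2 * w)) := by positivity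
  obtain ⟨l, hl, hk⟩ := hkey ω hst w hw _ hδ
  refine minor_w S h2 ω hst c2 hc2 w hw _ hδ ?_ l hl hk
  have h1 : 2 * (1 / (8 * (S.p : ℝ) ^ (2 * w))) = (1 / (2 * (S.p : ℝ) ^ w)) ^ 2 := by
    rw [mul_comm 2 w, pow_mul]
    field_simp
    ring
  rw [h1, Real.sqrt_sq (by positivity)]

end PoolAgent.Helper28.EC
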